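import Mathlib

/-!
Slices, Daugavet points and the super alternative Daugavet property.
-/

namespace Pool.Agent.Lib.MP_67dc8a_an

variable (𝕜 : Type) [RCLike 𝕜]

/-- The slice `S(B_X, f, α)` of the closed unit ball. -/
def slice {X : Type} [NormedAddCommGroup X] [NormedSpace 𝕜 X] (f : StrongDual 𝕜 X) (α : ℝ) :
    Set X :=
  {y | y ∈ Metric.closedBall (0 : X) 1 ∧
    sSup ((fun z => RCLike.re (f z)) '' Metric.closedBall (0 : X) 1) - α < RCLike.re (f y)}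

/-- `x` is a Daugavet point: `‖x‖ = 1` and `sup_{y ∈ S} ‖x + y‖ = 2` for every slice `S` of the
closed unit ball. -/
def IsDaugavetPoint {X : Type} [NormedAddCommGroup X] [NormedSpace 𝕜 X] (x : X) : Prop :=
  ‖x‖ = 1 ∧ ∀ f : StrongDual 𝕜 X, f ≠ 0 → ∀ α : ℝ, 0 < α →
    IsLUB ((fun y => ‖x + y‖) '' slice 𝕜 f α) 2

/-- The super alternative Daugavet property: for every `x` in the unit sphere and every relatively
weakly open subset `W` of the closed unit ball that meets the unit sphere,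
`sup_{y ∈ W} max_{|θ| = 1} ‖x + θ y‖ = 2`. -/
def SuperADP (X : Type) [NormedAddCommGroup X] [NormedSpace 𝕜 X] : Prop :=
  ∀ x : X, ‖x‖ = 1 → ∀ W : Set X,
    (∃ U : Set (WeakSpace 𝕜 X), IsOpen U ∧
      W = Metric.closedBall (0 : X) 1 ∩ toWeakSpace 𝕜 X ⁻¹' U) →
    (∃ y ∈ W, ‖y‖ = 1) →
    IsLUB {r : ℝ | ∃ y ∈ W, ∃ θ : 𝕜, ‖θ‖ = 1 ∧ r = ‖x + θ • y‖} 2

end Pool.Agent.Lib.MP_67dc8a_an
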