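import Mathlib

-- part Pool.Agent.Lib.MP_67dc8a_an.RBase
section

/-!
Real example, part 1: generators, splitting relations and the seminorms given by weights.
-/

namespace Pool.Agent.Lib.MP_67dc8a_an.R

open Finset

/-- Generators: a binary tree and countably many families of children of requested vectors. -/
abbrev G : Type := List Bool ⊕ ℕ × ℕ

/-- Stage of a generator. -/
def st : G → ℕ
  | Sum.inl s => s.length
  | Sum.inr p => p.1 + 1

theorem exists_rq : ∃ r : ℕ → (G →₀ ℚ) × ℕ, ∀ a n0, ∃ n, n0 ≤ n ∧ r n = a := by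
  obtain ⟨e, he⟩ := exists_surjective_nat (((G →₀ ℚ) × ℕ) × ℕ)
  refine ⟨fun n => (e n).1, fun a n0 => ?_⟩
  by_contra hcon
  push Not at hcon
  choose u hu using fun k : ℕ => he (a, k)
  have hinj : Function.Injective u := fun i j hij => by
    have := (hu i).symm.trans (hij ▸ hu j)
    simpa using this
  have hlt : ∀ k, u k < n0 := fun k => by
    by_contra h
    exact hcon (u k) (not_lt.mp h) (by rw [hu k])
  exact not_injective_infinite_finite (fun k => (⟨u k, hlt k⟩ : Fin n0))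
    fun i j hij => hinj (by simpa using hij)

/-- The list of requests. -/
noncomputable def rq : ℕ → (G →₀ ℚ) × ℕ := exists_rq.choose

/-- Supported on generators of stage at most `n`. -/
def Lv (n : ℕ) (x : G →₀ ℝ) : Prop := ∀ g ∈ x.support, st g ≤ n

/-- Real vector of a rational vector. -/
noncomputable def cst (y : G →₀ ℚ) : G →₀ ℝ := y.mapRange (fun q : ℚ => (q : ℝ)) (by simp)

open Classical in
/-- The vector that is split at stage `n`. -/
noncomputable def zz (n : ℕ) : G →₀ ℝ := if Lv n (cst (rq n).1) then cst (rq n).1 else 0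

theorem Lv.mono {n m : ℕ} {x : G →₀ ℝ} (h : Lv n x) (hm : n ≤ m) : Lv m x :=
  fun g hg => (h g hg).trans hm

theorem lv_zero (n : ℕ) : Lv n 0 := fun g hg => by simp at hg

theorem Lv.add {n : ℕ} {x y : G →₀ ℝ} (hx : Lv n x) (hy : Lv n y) : Lv n (x + y) := by
  classical
  intro g hg
  rcases Finset.mem_union.mp (Finsupp.support_add hg) with h | h
  exacts [hx g h, hy g h]

theorem Lv.smul {n : ℕ} {x : G →₀ ℝ} (hx : Lv n x) (c : ℝ) : Lv n (c • x) :=
  fun g hg => hx g (Finsupp.support_smul hg)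

theorem Lv.sub {n : ℕ} {x y : G →₀ ℝ} (hx : Lv n x) (hy : Lv n y) : Lv n (x - y) := by
  have := hx.add (hy.smul (-1))
  rwa [neg_one_smul, ← sub_eq_add_neg] at this

theorem lv_single (g : G) (r : ℝ) : Lv (st g) (Finsupp.single g r) := fun g' hg' => by
  rw [Finset.mem_singleton.mp (Finsupp.support_single_subset hg')]

theorem lv_sum {κ : Type} {n : ℕ} (s : Finset κ) {x : κ → G →₀ ℝ} (h : ∀ k, Lv n (x k)) :
    Lv n (∑ k ∈ s, x k) :=
  Finset.sum_induction _ (Lv n) (fun _ _ => Lv.add) (lv_zero n) fun k _ => h k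

theorem lv_zz (n : ℕ) : Lv n (zz n) := by
  unfold zz
  split_ifs with h
  exacts [h, lv_zero n]

/-- Level of a vector. -/
def lvl (x : G →₀ ℝ) : ℕ := x.support.sup st

theorem lv_lvl (x : G →₀ ℝ) : Lv (lvl x) x := fun _ hg => Finset.le_sup hg

theorem Lv.lvl_le {n : ℕ} {x : G →₀ ℝ} (h : Lv n x) : lvl x ≤ n := Finset.sup_le h

theorem exists_zz (y : G →₀ ℚ) (t n0 : ℕ) : ∃ n, n0 ≤ n ∧ zz n = cst y ∧ (rq n).2 = t := by
  obtain ⟨n, hn, h⟩ := exists_rq.choose_spec (y, t) (max n0 (lvl (cst y)))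
  have h' : rq n = (y, t) := h
  refine ⟨n, (le_max_left _ _).trans hn, ?_, by rw [h']⟩
  unfold zz
  rw [h', if_pos ((lv_lvl _).mono ((le_max_right _ _).trans hn))]

/-- The vector a generator is a child of. -/
noncomputable def par : G → (G →₀ ℝ)
  | Sum.inl [] => 0
  | Sum.inl (_ :: s) => Finsupp.single (Sum.inl s) 1
  | Sum.inr p => zz p.1

theorem lv_par {g : G} {k : ℕ} (h : st g = k + 1) : Lv k (par g) := by
  rcases g with (_ | ⟨b, s⟩) | ⟨n, m⟩
  · exact lv_zero k
  · have : s.length = k := by simpa [st] using h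
    exact this ▸ lv_single (Sum.inl s) 1
  · have : n = k := by simpa [st] using h
    exact this ▸ lv_zz n

theorem par_eq_zero {g : G} (h : st g = 0) : par g = 0 := by
  rcases g with (_ | ⟨b, s⟩) | ⟨n, m⟩
  · rfl
  · simp [st] at h
  · simp [st] at h

/-- The linear functional with given values on the generators. -/
noncomputable def ev (f : G → ℝ) : (G →₀ ℝ) →ₗ[ℝ] ℝ := Finsupp.linearCombination ℝ f

theorem ev_apply (f : G → ℝ) (x : G →₀ ℝ) : ev f x = ∑ g ∈ x.support, x g * f g := by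
  simp [ev, Finsupp.linearCombination_apply, Finsupp.sum]

@[simp] theorem ev_single (f : G → ℝ) (g : G) (r : ℝ) : ev f (Finsupp.single g r) = r * f g := by
  simp [ev]

theorem ev_congr {n : ℕ} {f f' : G → ℝ} {x : G →₀ ℝ} (hx : Lv n x)
    (h : ∀ g, st g ≤ n → f g = f' g) : ev f x = ev f' x := by
  rw [ev_apply, ev_apply]
  exact Finset.sum_congr rfl fun g hg => by rw [h g (hx g hg)]

theorem ev_comb (a b : ℝ) (f f' : G → ℝ) (x : G →₀ ℝ) :
    ev (fun g => a * f g + b * f' g) x = a * ev f x + b * ev f' x := by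
  simp only [ev_apply, Finset.mul_sum, ← Finset.sum_add_distrib]
  exact Finset.sum_congr rfl fun g _ => by ring

theorem ev_zero (x : G →₀ ℝ) : ev (fun _ => 0) x = 0 := by simp [ev_apply]

theorem ev_par_congr {f f' : G → ℝ} {g : G} (h : ∀ g', st g' < st g → f g' = f' g') :
    ev f (par g) = ev f' (par g) := by
  rcases h0 : st g with _ | k
  · rw [par_eq_zero h0, map_zero, map_zero]
  · exact ev_congr (lv_par h0) fun g' hg' => h g' (by omega)

/-- Increment of a functional from the parent to the child. -/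
noncomputable def dif (f : G → ℝ) (g : G) : ℝ := f g - ev f (par g)

/-- The increments cancel in all families of stage at most `n`. -/
def Zs (n : ℕ) (d : G → ℝ) : Prop :=
  (∀ s : List Bool, s.length < n → d (Sum.inl (true :: s)) + d (Sum.inl (false :: s)) = 0) ∧
    ∀ k < n, ∑ m ∈ range (k + 1), d (Sum.inr (k, m)) = 0

theorem Zs.mono {n m : ℕ} {d : G → ℝ} (h : Zs m d) (hm : n ≤ m) : Zs n d :=
  ⟨fun s hs => h.1 s (by omega), fun k hk => h.2 k (by omega)⟩

theorem Zs.congr {n : ℕ} {d d' : G → ℝ} (h : Zs n d) (h' : ∀ g, st g ≤ n → d' g = d g) :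
    Zs n d' := by
  refine ⟨fun s hs => ?_, fun k hk => ?_⟩
  · rw [h' _ (by simp [st]; omega), h' _ (by simp [st]; omega)]
    exact h.1 s hs
  · rw [← h.2 k hk]
    exact Finset.sum_congr rfl fun m _ => h' _ (by simp [st]; omega)

theorem Zs.comb {n : ℕ} {f f' : G → ℝ} (h : Zs n (dif f)) (h' : Zs n (dif f')) (a b : ℝ) :
    Zs n (dif fun g => a * f g + b * f' g) := by
  have h0 : ∀ g, dif (fun g => a * f g + b * f' g) g = a * dif f g + b * dif f' g := by
    intro g; simp only [dif, ev_comb]; ring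
  refine ⟨fun s hs => ?_, fun k hk => ?_⟩
  · rw [h0, h0]
    linear_combination a * h.1 s hs + b * h'.1 s hs
  · simp only [h0, Finset.sum_add_distrib, ← Finset.mul_sum, h.2 k hk, h'.2 k hk]
    ring

theorem zs_zero (n : ℕ) : Zs n (dif fun _ => 0) :=
  ⟨fun s _ => by simp [dif, ev_zero], fun k _ => by simp [dif, ev_zero]⟩

/-- Approximations of the functional with given increments. -/
noncomputable def bld (d : G → ℝ) : ℕ → G → ℝ
  | 0 => d
  | k + 1 => fun g => d g + ev (bld d k) (par g)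

theorem bld_stable (d : G → ℝ) (k : ℕ) : ∀ g, st g ≤ k → bld d (k + 1) g = bld d k g := by
  induction k with
  | zero =>
    intro g hg
    simp [bld, par_eq_zero (Nat.le_zero.mp hg)]
  | succ k ih =>
    intro g hg
    change d g + ev (bld d (k + 1)) (par g) = d g + ev (bld d k) (par g)
    rw [ev_par_congr fun g' hg' => ih g' (by omega)]

/-- The functional with given increments. -/
noncomputable def build (d : G → ℝ) (g : G) : ℝ := bld d (st g) g

theorem bld_eq (d : G → ℝ) {k : ℕ} {g : G} (h : st g ≤ k) : bld d k g = build d g := by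
  induction k, h using Nat.le_induction with
  | base => rfl
  | succ k hk ih => rw [bld_stable d k g hk, ih]

theorem build_eq (d : G → ℝ) (g : G) : build d g = d g + ev (build d) (par g) := by
  rw [← bld_eq d (Nat.le_succ (st g))]
  change d g + ev (bld d (st g)) (par g) = _
  rw [ev_par_congr fun g' hg' => bld_eq d hg'.le]

theorem dif_build (d : G → ℝ) : dif (build d) = d := by
  funext g
  rw [dif, build_eq]; ring

theorem eq_of_dif {n : ℕ} {f f' : G → ℝ} (h : ∀ g, st g ≤ n → dif f g = dif f' g) :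
    ∀ g, st g ≤ n → f g = f' g := by
  intro g
  induction hk : st g using Nat.strong_induction_on generalizing g with
  | _ k ih =>
    intro hg
    have h1 := h g (hk ▸ hg)
    rw [dif, dif, ev_par_congr (f' := f') fun g' hg' => ih _ (hk ▸ hg') g' rfl (by omega)] at h1
    linarith

/-- Admissible functionals for a weight, up to stage `n`. -/
def Adm (ω : G → ℝ) (n : ℕ) (f : G → ℝ) : Prop := Zs n (dif f) ∧ ∀ g, st g ≤ n → |f g| ≤ ω g

/-- The seminorm of a weight, at stage `n`. -/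
noncomputable def Sn (ω : G → ℝ) (n : ℕ) (x : G →₀ ℝ) : ℝ :=
  sSup ((fun f => ev f x) '' {f | Adm ω n f})

theorem Sn_congr {ω ω' : G → ℝ} {n : ℕ} (h : ∀ g, st g ≤ n → ω g = ω' g) : Sn ω n = Sn ω' n := by
  funext x
  unfold Sn
  congr 2
  ext f
  exact and_congr_right fun _ => forall₂_congr fun g hg => by rw [h g hg]

variable {ω ω' : G → ℝ} {n : ℕ} {x y : G →₀ ℝ}

theorem Adm.le_Sn {f : G → ℝ} (hf : Adm ω n f) (hx : Lv n x) : ev f x ≤ Sn ω n x := by
  refine le_csSup ⟨∑ g ∈ x.support, |x g| * ω g, ?_⟩ ⟨f, hf, rfl⟩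
  rintro _ ⟨f', hf', rfl⟩
  simp only [ev_apply]
  refine Finset.sum_le_sum fun g hg => (le_abs_self _).trans ?_
  rw [abs_mul]
  exact mul_le_mul_of_nonneg_left (hf'.2 g (hx g hg)) (abs_nonneg _)

theorem adm_zero (h : ∀ g, st g ≤ n → 0 ≤ ω g) : Adm ω n fun _ => 0 :=
  ⟨zs_zero n, fun g hg => by simpa using h g hg⟩

theorem Sn_le (h : ∀ g, st g ≤ n → 0 ≤ ω g) {B : ℝ} (hB : ∀ f, Adm ω n f → ev f x ≤ B) :
    Sn ω n x ≤ B :=
  csSup_le ⟨_, _, adm_zero h, rfl⟩ (by rintro _ ⟨f, hf, rfl⟩; exact hB f hf)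

theorem Sn_nonneg (h : ∀ g, st g ≤ n → 0 ≤ ω g) (hx : Lv n x) : 0 ≤ Sn ω n x := by
  have := (adm_zero h).le_Sn hx
  rwa [ev_zero] at this

theorem abs_ev_le {f : G → ℝ} {c : ℝ} (hc : 0 < c) (hf : Zs n (dif f))
    (h : ∀ g, st g ≤ n → |f g| ≤ c * ω g) (hx : Lv n x) : |ev f x| ≤ c * Sn ω n x := by
  have key : ∀ e : ℝ, |e| = 1 → e * ev f x ≤ c * Sn ω n x := by
    intro e he
    have h1 : Adm ω n fun g => (e / c) * f g + 0 * f g := by
      refine ⟨hf.comb hf _ _, fun g hg => ?_⟩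
      dsimp only
      rw [zero_mul, add_zero, abs_mul, abs_div, he, abs_of_pos hc, div_mul_eq_mul_div, one_mul,
        div_le_iff₀' hc]
      exact h g hg
    have h2 := h1.le_Sn hx
    rw [ev_comb, zero_mul, add_zero, div_mul_eq_mul_div, div_le_iff₀' hc] at h2
    exact h2
  have h1 := key 1 abs_one
  have h2 := key (-1) (by simp)
  exact abs_le.mpr ⟨by linarith, by linarith⟩

theorem Adm.abs_le {f : G → ℝ} (hf : Adm ω n f) (hx : Lv n x) : |ev f x| ≤ Sn ω n x := by
  simpa using abs_ev_le (ω := ω) one_pos hf.1 (by simpa using hf.2) hx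

/-- Comparison of the seminorms from a comparison of the weights. -/
theorem Sn_comp (h0 : ∀ g, st g ≤ n → 0 ≤ ω g) {φ : G → ℝ} {c : ℝ} (hc : 0 < c)
    (hφ : Zs n (dif φ)) (h : ∀ g, st g ≤ n → ω g + |φ g| ≤ c * ω' g) (hx : Lv n x) :
    Sn ω n x + |ev φ x| ≤ c * Sn ω' n x := by
  rw [← le_sub_iff_add_le]
  refine Sn_le h0 fun f hf => ?_
  obtain ⟨e, he, hex⟩ : ∃ e : ℝ, |e| = 1 ∧ e * ev φ x = |ev φ x| := by
    rcases le_total 0 (ev φ x) with h1 | h1
    · exact ⟨1, abs_one, by rw [one_mul, abs_of_nonneg h1]⟩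
    · exact ⟨-1, by simp, by rw [abs_of_nonpos h1]; ring⟩
  have h1 := abs_ev_le (ω := ω') hc (hf.1.comb hφ 1 e) (fun g hg => by
    refine (abs_add_le _ _).trans (le_trans ?_ (h g hg))
    rw [one_mul, abs_mul, he, one_mul]
    exact add_le_add (hf.2 g hg) le_rfl) hx
  rw [ev_comb, one_mul, hex] at h1
  linarith [le_abs_self (ev f x + |ev φ x|)]

theorem Sn_le_mul (h0 : ∀ g, st g ≤ n → 0 ≤ ω g) {c : ℝ} (hc : 0 < c)
    (h : ∀ g, st g ≤ n → ω g ≤ c * ω' g) (hx : Lv n x) : Sn ω n x ≤ c * Sn ω' n x := by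
  have := Sn_comp (ω' := ω') h0 hc (zs_zero n) (by simpa using h) hx
  simpa [ev_zero] using this

theorem Sn_add (h0 : ∀ g, st g ≤ n → 0 ≤ ω g) (hx : Lv n x) (hy : Lv n y) :
    Sn ω n (x + y) ≤ Sn ω n x + Sn ω n y :=
  Sn_le h0 fun f hf => by rw [map_add]; exact add_le_add (hf.le_Sn hx) (hf.le_Sn hy)

theorem Sn_smul (h0 : ∀ g, st g ≤ n → 0 ≤ ω g) (hx : Lv n x) (c : ℝ) :
    Sn ω n (c • x) ≤ |c| * Sn ω n x :=
  Sn_le h0 fun f hf => by
    rw [map_smul, smul_eq_mul]
    refine (le_abs_self _).trans ?_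
    rw [abs_mul]
    exact mul_le_mul_of_nonneg_left (hf.abs_le hx) (abs_nonneg _)

theorem Sn_eq_zero (h0 : ∀ g, st g ≤ n → ω g = 0) (hx : Lv n x) : Sn ω n x = 0 := by
  refine le_antisymm (Sn_le (fun g hg => (h0 g hg).ge) fun f hf => ?_)
    (Sn_nonneg (fun g hg => (h0 g hg).ge) hx)
  rw [ev_congr (f' := fun _ => 0) hx fun g hg => by simpa [h0 g hg] using hf.2 g hg, ev_zero]

/-- The weight of a child is at least the seminorm of its parent. -/
def Cons (ω : G → ℝ) : Prop := (∀ g, 0 ≤ ω g) ∧ ∀ g k, st g = k + 1 → Sn ω k (par g) ≤ ω g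

/-- One-step extension of a functional. -/
noncomputable def ext (n : ℕ) (f : G → ℝ) (g : G) : ℝ := if st g ≤ n then f g else ev f (par g)

theorem ev_ext (f : G → ℝ) (hx : Lv n x) : ev (ext n f) x = ev f x :=
  ev_congr hx fun _ hg => if_pos hg

theorem Adm.ext (hω : Cons ω) {f : G → ℝ} (hf : Adm ω n f) : Adm ω (n + 1) (ext n f) := by
  have h1 : ∀ g, st g ≤ n + 1 → dif (R.ext n f) g = if st g ≤ n then dif f g else 0 := by
    intro g hg
    rw [dif, ev_par_congr (f := R.ext n f) (f' := f) fun g' hg' => if_pos (by omega)]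
    unfold R.ext
    split_ifs
    · rfl
    · ring
  refine ⟨Zs.congr (d := fun g => if st g ≤ n then dif f g else 0) ⟨fun s hs => ?_, fun k hk => ?_⟩
    h1, fun g hg => ?_⟩
  · by_cases h : s.length + 1 ≤ n
    · simp only [st, List.length_cons, h, if_true]
      exact hf.1.1 s h
    · simp only [st, List.length_cons, h, if_false, add_zero]
  · by_cases h : k + 1 ≤ n
    · simp only [st, h, if_true]
      exact hf.1.2 k h
    · simp only [st, h, if_false, Finset.sum_const_zero]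
  · unfold R.ext
    split_ifs with h
    · exact hf.2 g h
    · have h2 : st g = n + 1 := by omega
      exact (hf.abs_le (lv_par h2)).trans (hω.2 g n h2)

theorem Sn_stable (hω : Cons ω) (hx : Lv n x) {m : ℕ} (hm : n ≤ m) : Sn ω m x = Sn ω n x := by
  induction m, hm using Nat.le_induction with
  | base => rfl
  | succ m hm ih =>
    rw [← ih]
    refine le_antisymm (Sn_le (fun g _ => hω.1 g) fun f hf => ?_)
      (Sn_le (fun g _ => hω.1 g) fun f hf => ?_)
    · exact Adm.le_Sn ⟨hf.1.mono (Nat.le_succ m), fun g hg => hf.2 g (by omega)⟩ (hx.mono hm)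
    · rw [← ev_ext f (hx.mono hm)]
      exact (hf.ext hω).le_Sn (hx.mono (by omega))

/-- The seminorm of a weight. -/
noncomputable def S (ω : G → ℝ) (x : G →₀ ℝ) : ℝ := Sn ω (lvl x) x

theorem S_eq (hω : Cons ω) (hx : Lv n x) : S ω x = Sn ω n x :=
  (Sn_stable hω (lv_lvl x) hx.lvl_le).symm

theorem bound_of_default (hω : Cons ω) {F : G → ℝ} {c : ℝ} (hc : 0 < c) (hF : Zs n (dif F))
    (h : ∀ g, st g ≤ n → |F g| ≤ c * ω g ∨ dif F g = 0) : ∀ g, st g ≤ n → |F g| ≤ c * ω g := by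
  intro g
  induction hk : st g using Nat.strong_induction_on generalizing g with
  | _ k ih =>
    intro hg
    rcases h g (hk ▸ hg) with h1 | h1
    · exact h1
    · rw [dif, sub_eq_zero] at h1
      rw [h1]
      rcases k with _ | k
      · rw [par_eq_zero hk, map_zero, abs_zero]
        exact mul_nonneg hc.le (hω.1 g)
      · refine (abs_ev_le (ω := ω) hc (hF.mono (by omega))
          (fun g' hg' => ih _ (by omega) g' rfl (by omega)) (lv_par hk)).trans ?_
        exact mul_le_mul_of_nonneg_left (hω.2 g k hk) hc.le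

/-- Few children of a large family are almost `ℓ¹`-orthogonal to the earlier stages. -/
theorem Sn_children (hω : Cons ω) {κ : ℝ} (hκ : ∀ m, ω (Sum.inr (n, m)) = κ) (hx : Lv n x)
    {k : ℕ} (hk : 0 < k) (J : Fin k → Fin (n + 1)) {θ : ℝ} (hθ : |θ| = 1)
    (hξ : 2 * (k : ℝ) / (n + 1) ≤ 1 / 2) :
    (1 - 2 * (2 * (k : ℝ) / (n + 1))) * (Sn ω n x + κ) ≤ Sn ω (n + 1)
      (x + θ • (k : ℝ)⁻¹ • ∑ l, Finsupp.single (Sum.inr (n, (J l : ℕ)) : G) (1 : ℝ)) := by
  classical
  set ξ : ℝ := 2 * (k : ℝ) / (n + 1) with hξdef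
  have hn0 : (0 : ℝ) < n + 1 := by positivity
  have hξ0 : 0 ≤ ξ := by positivity
  have hκ0 : 0 ≤ κ := hκ 0 ▸ hω.1 _
  have hlv : Lv (n + 1)
      (x + θ • (k : ℝ)⁻¹ • ∑ l, Finsupp.single (Sum.inr (n, (J l : ℕ)) : G) (1 : ℝ)) :=
    (hx.mono (Nat.le_succ n)).add (((lv_sum _ fun l =>
      lv_single (Sum.inr (n, (J l : ℕ)) : G) 1).smul _).smul _)
  set B := Sn ω (n + 1)
      (x + θ • (k : ℝ)⁻¹ • ∑ l, Finsupp.single (Sum.inr (n, (J l : ℕ)) : G) (1 : ℝ)) with hB
  have key : ∀ f, Adm ω n f → (1 - ξ) * ev f x + (1 - 2 * ξ) * κ ≤ B := by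
    intro f hf
    let I : Finset ℕ := Finset.univ.image fun l => (J l : ℕ)
    have hI : I ⊆ range (n + 1) := by
      intro m hm
      obtain ⟨l, -, rfl⟩ := Finset.mem_image.mp hm
      exact Finset.mem_range.mpr (J l).2
    set r : ℝ := (I.card : ℝ) / (n + 1) with hr
    have hr0 : 0 ≤ r := by positivity
    have hr1 : 2 * r ≤ ξ := by
      have : (I.card : ℝ) ≤ k := by
        exact_mod_cast (Finset.card_image_le.trans (by simp) : I.card ≤ k)
      rw [hr, hξdef, mul_div_assoc]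
      gcongr
    set a := ev f (zz n) with ha
    have ha1 : |a| ≤ κ := (hf.abs_le (lv_zz n)).trans (hκ 0 ▸ hω.2 (Sum.inr (n, 0)) n rfl)
    let h : G → ℝ := fun g => match g with
      | Sum.inl _ => 0
      | Sum.inr p => if p.1 = n then (if p.2 ∈ I then 1 else 0) - r else 0
    have hh0 : ∀ g, st g ≤ n → h g = 0 := by
      rintro (s | ⟨j, m⟩) hg
      · rfl
      · have : j ≠ n := by simp [st] at hg; omega
        simp [h, this]
    have hdif : ∀ g, st g ≤ n + 1 → dif h g = h g := by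
      intro g hg
      rw [dif, ev_par_congr (f' := fun _ => 0) fun g' hg' => hh0 g' (by omega), ev_zero, sub_zero]
    have hz : Zs (n + 1) (dif h) := by
      refine Zs.congr (d := h) ⟨fun s _ => by simp [h], fun j _ => ?_⟩ hdif
      by_cases hj : j = n
      · subst hj
        simp only [h, if_true, Finset.sum_sub_distrib, Finset.sum_const, Finset.card_range,
          nsmul_eq_mul, Finset.sum_boole, Finset.filter_mem_eq_inter,
          Finset.inter_eq_right.mpr hI]
        rw [hr]; push_cast; field_simp; ring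
      · simp [h, hj]
    have hθ2 : θ = 1 ∨ θ = -1 := by
      rcases abs_eq (zero_le_one' ℝ) |>.mp hθ with h1 | h1
      exacts [Or.inl h1, Or.inr h1]
    have hext : ∀ m, R.ext n f (Sum.inr (n, m)) = a := fun m => by
      simp [R.ext, st, par, ha]
    have hadm : Adm ω (n + 1) fun g => (1 - ξ) * R.ext n f g + ((1 - ξ) * (θ * κ - a)) * h g := by
      refine ⟨(hf.ext hω).1.comb hz _ _, fun g hg => ?_⟩
      have hgen : h g = 0 → |(1 - ξ) * R.ext n f g + ((1 - ξ) * (θ * κ - a)) * h g| ≤ ω g := by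
        intro h0
        rw [h0, mul_zero, add_zero, abs_mul, abs_of_nonneg (by linarith)]
        have := (hf.ext hω).2 g hg
        nlinarith [abs_nonneg (R.ext n f g)]
      rcases g with s | ⟨j, m⟩
      · exact hgen rfl
      · by_cases hj : j = n
        · subst hj
          dsimp only
          rw [hext, hκ]
          obtain ⟨ha2, ha3⟩ := abs_le.mp ha1
          have hrk := mul_nonneg hr0 hκ0
          have hxk := mul_nonneg hξ0 hκ0
          by_cases hm : m ∈ I
          · simp only [h, if_true, hm]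
            have e1 : (1 - ξ) * a + (1 - ξ) * (θ * κ - a) * (1 - r) =
                (1 - ξ) * (r * a + (1 - r) * (θ * κ)) := by ring
            rw [e1, abs_mul, abs_of_nonneg (by linarith : 0 ≤ 1 - ξ)]
            have e2 : |r * a + (1 - r) * (θ * κ)| ≤ κ := by
              rcases hθ2 with h1 | h1 <;> rw [h1, abs_le] <;> constructor <;> nlinarith
            nlinarith [abs_nonneg (r * a + (1 - r) * (θ * κ))]
          · simp only [h, if_true, hm, if_false]
            have e1 : (1 - ξ) * a + (1 - ξ) * (θ * κ - a) * (0 - r) =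
                (1 - ξ) * ((1 + r) * a - r * (θ * κ)) := by ring
            rw [e1, abs_mul, abs_of_nonneg (by linarith : 0 ≤ 1 - ξ)]
            have e2 : |(1 + r) * a - r * (θ * κ)| ≤ (1 + ξ) * κ := by
              rcases hθ2 with h1 | h1 <;> rw [h1, abs_le] <;> constructor <;> nlinarith
            calc (1 - ξ) * |(1 + r) * a - r * (θ * κ)| ≤ (1 - ξ) * ((1 + ξ) * κ) :=
                  mul_le_mul_of_nonneg_left e2 (by linarith)
              _ ≤ κ := by nlinarith [mul_nonneg hξ0 hxk]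
        · exact hgen (by simp [h, hj])
    refine le_trans ?_ (hadm.le_Sn hlv)
    have hk0 : (k : ℝ) ≠ 0 := by exact_mod_cast hk.ne'
    have hJ : ∀ l, h (Sum.inr (n, (J l : ℕ))) = 1 - r := fun l => by
      have : (J l : ℕ) ∈ I := Finset.mem_image.mpr ⟨l, Finset.mem_univ _, rfl⟩
      simp [h, this]
    rw [map_add, ev_comb, ev_ext f hx, ev_congr (f' := fun _ => 0) hx hh0, ev_zero, map_smul,
      map_smul, map_sum]
    simp only [ev_single, hext, hJ, one_mul, Finset.sum_const, Finset.card_univ, Fintype.card_fin,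
      nsmul_eq_mul, smul_eq_mul, mul_zero, add_zero]
    rw [← mul_assoc (k : ℝ)⁻¹, inv_mul_cancel₀ hk0, one_mul]
    obtain ⟨ha2, ha3⟩ := abs_le.mp ha1
    have e1 : θ * ((1 - ξ) * a + (1 - ξ) * (θ * κ - a) * (1 - r)) =
        (1 - ξ) * (r * (θ * a) + (1 - r) * (θ * θ * κ)) := by ring
    have e2 : (1 - ξ) * κ ≤ r * (θ * a) + (1 - r) * (θ * θ * κ) := by
      have := mul_nonneg hr0 hκ0
      rcases hθ2 with h1 | h1 <;> rw [h1] <;> nlinarith
    have e3 := mul_le_mul_of_nonneg_left e2 (by linarith : 0 ≤ 1 - ξ)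
    rw [e1]
    nlinarith [mul_nonneg (mul_nonneg hξ0 hξ0) hκ0]
  have h1 : Sn ω n x ≤ (B - (1 - 2 * ξ) * κ) / (1 - ξ) := by
    refine Sn_le (fun g _ => hω.1 g) fun f hf => ?_
    rw [le_div_iff₀ (by linarith)]
    linarith [key f hf]
  rw [le_div_iff₀ (by linarith)] at h1
  nlinarith [Sn_nonneg (fun g _ => hω.1 g) hx]

end Pool.Agent.Lib.MP_67dc8a_an.R
end

-- part Pool.Agent.Lib.MP_67dc8a_an.RRec
section

/-!
Real example, part 2: the recursive choice of the weights and of the witnessing functionals.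
-/

namespace Pool.Agent.Lib.MP_67dc8a_an.R

open Finset

/-- Sum of the components seen by type `τ`. -/
def tot (s : ℕ → ℕ → ℝ) (n τ : ℕ) : ℝ := ∑ σ ∈ range n, s σ (min τ (σ + 1))

/-- Requirements on the new weights. -/
structure Good (n τ0 : ℕ) (η : ℕ → ℝ) (s0 : ℝ) (s : ℕ → ℕ → ℝ) (p : ℕ → ℝ) (κ : ℕ → ℕ → ℝ) :
    Prop where
  ge : ∀ σ τ, σ < n → s σ τ ≤ κ σ τ
  zero : ∀ σ τ, n ≤ σ → κ σ τ = 0
  le1 : ∀ σ τ, σ < n → τ ≤ σ → κ σ τ ≤ κ σ (σ + 1)
  le2 : ∀ σ, σ < n → κ σ (σ + 1) ≤ η σ * s0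
  le3 : ∀ σ, σ < n → κ σ σ + p σ ≤ η σ * s0
  up : ∀ B, tot s n n ≤ B → (∀ τ < n, tot s n τ + p τ ≤ B) →
    tot κ n n ≤ B ∧ ∀ τ < n, tot κ n τ + p τ ≤ B
  low : τ0 < n → tot s n n ≤ tot κ n τ0 + p τ0 ∧ ∀ τ < n, tot s n τ + p τ ≤ tot κ n τ0 + p τ0

theorem exists_tail_max (n : ℕ) (ρ : ℕ → ℝ) :
    ∃ M : ℕ → ℝ, M n = 0 ∧ ∀ τ < n, M τ = max (ρ τ) (M (τ + 1)) := by
  let H : ℕ → ℝ := fun k => Nat.rec 0 (fun k h => max (ρ (n - (k + 1))) h) k
  refine ⟨fun τ => H (n - τ), by simp [H], fun τ hτ => ?_⟩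
  have h1 : n - τ = n - (τ + 1) + 1 := by omega
  have h2 : n - (n - (τ + 1) + 1) = τ := by omega
  simp only [h1, H, h2]

theorem exists_good (n τ0 : ℕ) (η : ℕ → ℝ) (s0 : ℝ) (s : ℕ → ℕ → ℝ) (p : ℕ → ℝ)
    (h1 : ∀ σ τ, σ < n → τ ≤ σ → s σ τ ≤ s σ (σ + 1)) (h2 : ∀ σ, σ < n → s σ (σ + 1) ≤ η σ * s0)
    (h3 : ∀ σ, σ < n → s σ σ + p σ ≤ η σ * s0) (hp : ∀ τ, 0 ≤ p τ) :
    ∃ κ, Good n τ0 η s0 s p κ := by
  classical
  let gap : ℕ → ℕ → ℝ := fun σ τ => s σ (σ + 1) - s σ (min τ (σ + 1))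
  have hgap : ∀ σ τ, σ < n → 0 ≤ gap σ τ := by
    intro σ τ hσ
    rcases le_or_gt τ σ with h | h
    · simp only [gap, min_eq_left (by omega : τ ≤ σ + 1)]
      linarith [h1 σ τ hσ h]
    · simp only [gap, min_eq_right (by omega : σ + 1 ≤ τ), sub_self, le_refl]
  have hgap0 : ∀ σ τ, σ < τ → gap σ τ = 0 := fun σ τ h => by
    simp only [gap, min_eq_right (by omega : σ + 1 ≤ τ), sub_self]
  have hgap1 : ∀ σ τ, τ ≤ σ → gap σ τ = s σ (σ + 1) - s σ τ := fun σ τ h => by
    simp only [gap, min_eq_left (by omega : τ ≤ σ + 1)]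
  let D : ℕ → ℝ := fun τ => ∑ σ ∈ range n, gap σ τ
  have htn : tot s n n = ∑ σ ∈ range n, s σ (σ + 1) :=
    Finset.sum_congr rfl fun σ hσ => by
      rw [min_eq_right (by have := Finset.mem_range.mp hσ; omega)]
  have hD : ∀ τ, tot s n τ = tot s n n - D τ := by
    intro τ
    rw [htn]
    simp only [D, gap, Finset.sum_sub_distrib, tot]
    ring
  have hDg : ∀ τ < n, gap τ τ ≤ D τ := fun τ hτ =>
    Finset.single_le_sum (f := fun σ => gap σ τ)
      (fun σ hσ => hgap σ τ (Finset.mem_range.mp hσ)) (Finset.mem_range.mpr hτ)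
  set a' : ℝ := if τ0 < n then max (p τ0 - D τ0) 0 else 0 with ha'
  have ha0 : 0 ≤ a' := by rw [ha']; split_ifs <;> simp
  obtain ⟨M, hMn, hM⟩ := exists_tail_max n fun τ => max (p τ - D τ - a') 0
  have hM1 : ∀ τ < n, M (τ + 1) ≤ M τ := fun τ hτ => by rw [hM τ hτ]; exact le_max_right _ _
  have hM2 : ∀ τ < n, p τ - D τ - a' ≤ M τ := fun τ hτ => by
    rw [hM τ hτ]; exact (le_max_left _ _).trans (le_max_left _ _)
  have hM0 : ∀ τ ≤ n, 0 ≤ M τ := fun τ hτ => by
    rcases hτ.eq_or_lt with h | h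
    · rw [h, hMn]
    · rw [hM τ h]; exact (le_max_right _ _).trans (le_max_left _ _)
  have hM3 : ∀ τ ≤ n, M τ ≤ M 0 := by
    intro τ hτ
    induction τ with
    | zero => exact le_rfl
    | succ τ ih => exact (hM1 τ hτ).trans (ih (by omega))
  have hM4 : ∀ c, 0 ≤ c → (∀ τ < n, p τ - D τ - a' ≤ c) → M 0 ≤ c := by
    intro c hc h
    have : ∀ k ≤ n, M (n - k) ≤ c := by
      intro k hk
      induction k with
      | zero => rw [Nat.sub_zero, hMn]; exact hc
      | succ k ih =>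
        rw [hM _ (by omega), show n - (k + 1) + 1 = n - k by omega]
        exact max_le (max_le (h _ (by omega)) hc) (ih (by omega))
    simpa using this n le_rfl
  have hβ : ∀ σ < n, s σ (σ + 1) + (M σ - M (σ + 1)) ≤ η σ * s0 := by
    intro σ hσ
    have e1 := hM0 (σ + 1) hσ
    have e2 := hDg σ hσ
    rw [hgap1 σ σ le_rfl] at e2
    rw [hM σ hσ]
    rcases le_total (max (p σ - D σ - a') 0) (M (σ + 1)) with h | h
    · rw [max_eq_right h]; linarith [h2 σ hσ]
    · rw [max_eq_left h]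
      rcases le_total (p σ - D σ - a') 0 with h' | h'
      · rw [max_eq_right h']; linarith [h2 σ hσ]
      · rw [max_eq_left h']; linarith [h3 σ hσ]
  have hβ0 : τ0 < n → M τ0 - M (τ0 + 1) = 0 := by
    intro h
    have e1 : p τ0 - D τ0 - a' ≤ 0 := by
      rw [ha', if_pos h]; linarith [le_max_left (p τ0 - D τ0) 0]
    rw [hM τ0 h, max_eq_right e1, max_eq_right (hM0 _ h), sub_self]
  set d0 := min (gap τ0 τ0) (p τ0) with hd0
  set D1 := D τ0 - gap τ0 τ0 with hD1
  set t := min D1 (p τ0 - d0) / D1 with ht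
  have hd1 : d0 ≤ p τ0 := min_le_right _ _
  have ht01 : τ0 < n → 0 ≤ t ∧ t ≤ 1 ∧ t * D1 = min D1 (p τ0 - d0) := by
    intro h
    have e1 : 0 ≤ D1 := by linarith [hDg τ0 h]
    refine ⟨div_nonneg (le_min e1 (by linarith)) e1, div_le_one_of_le₀ (min_le_left _ _) e1, ?_⟩
    rcases e1.eq_or_lt with h0 | h0
    · rw [← h0, mul_zero, min_eq_left (by linarith)]
    · rw [ht, div_mul_cancel₀ _ h0.ne']
  let g2 : ℕ → ℝ := fun σ => if σ = τ0 then d0 else t * gap σ τ0
  have hg2 : ∀ σ < n, τ0 < n → 0 ≤ g2 σ ∧ g2 σ ≤ gap σ τ0 := by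
    intro σ hσ h
    obtain ⟨e1, e2, -⟩ := ht01 h
    have e3 := hgap σ τ0 hσ
    simp only [g2]
    split_ifs with h'
    · subst h'
      exact ⟨le_min e3 (hp _), min_le_left _ _⟩
    · exact ⟨mul_nonneg e1 e3, mul_le_of_le_one_left e3 e2⟩
  let κ : ℕ → ℕ → ℝ := fun σ τ => if n ≤ σ then 0 else if τ = σ + 1 then
    s σ τ + (M σ - M (σ + 1)) else if τ = τ0 ∧ τ ≤ σ then
      s σ (σ + 1) + (M σ - M (σ + 1)) - g2 σ else s σ τ
  have hκ1 : ∀ σ < n, κ σ (σ + 1) = s σ (σ + 1) + (M σ - M (σ + 1)) := fun σ hσ => by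
    simp [κ, not_le.mpr hσ]
  have hκ2 : ∀ σ < n, τ0 ≤ σ → κ σ τ0 = s σ (σ + 1) + (M σ - M (σ + 1)) - g2 σ := fun σ hσ h => by
    have hne : τ0 ≠ σ + 1 := by omega
    simp only [κ, not_le.mpr hσ, hne, h, if_false, and_self, if_true]
  have hκ3 : ∀ σ τ, σ < n → τ ≠ σ + 1 → ¬(τ = τ0 ∧ τ ≤ σ) → κ σ τ = s σ τ :=
    fun σ τ hσ h h' => by simp only [κ, not_le.mpr hσ, h, h', if_false]
  have htot1 : ∀ τ ≤ n, (τ = τ0 → τ = n) → tot κ n τ = tot s n τ + (M 0 - M τ) := by
    intro τ hτ hτ0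
    have e1 : ∑ σ ∈ range n, (if σ < τ then M σ - M (σ + 1) else 0) = M 0 - M τ := by
      rw [← Finset.sum_range_sub' M τ, ← Finset.sum_filter]
      congr 1
      ext σ
      simp only [Finset.mem_filter, Finset.mem_range]
      omega
    rw [← e1, tot, tot, ← Finset.sum_add_distrib]
    refine Finset.sum_congr rfl fun σ hσ => ?_
    have hσ' := Finset.mem_range.mp hσ
    split_ifs with h
    · rw [min_eq_right (by omega), hκ1 σ hσ']
    · rw [min_eq_left (by omega), hκ3 σ τ hσ' (by omega) (by omega), add_zero]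
  have htot2 : τ0 < n → tot κ n τ0 + p τ0 = tot s n n + M 0 + a' := by
    intro h
    have e1 : tot κ n τ0 = ∑ σ ∈ range n, (s σ (σ + 1) + (M σ - M (σ + 1)) - g2 σ) := by
      refine Finset.sum_congr rfl fun σ hσ => ?_
      have hσ' := Finset.mem_range.mp hσ
      rcases le_or_gt τ0 σ with h' | h'
      · rw [min_eq_left (by omega), hκ2 σ hσ' h']
      · rw [min_eq_right (by omega), hκ1 σ hσ']
        simp [g2, h'.ne, hgap0 σ τ0 h']
    have e2 : ∑ σ ∈ range n, g2 σ = d0 + t * D1 := by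
      have e3 : ∀ σ, g2 σ = t * gap σ τ0 + if σ = τ0 then d0 - t * gap τ0 τ0 else 0 := by
        intro σ
        simp only [g2]
        split_ifs with h'
        · rw [h']; ring
        · ring
      simp only [e3, Finset.sum_add_distrib, ← Finset.mul_sum, Finset.sum_ite_eq',
        Finset.mem_range, h, if_true]
      rw [hD1]; simp only [D]; ring
    rw [e1, Finset.sum_sub_distrib, Finset.sum_add_distrib, Finset.sum_range_sub' M n, hMn, e2,
      (ht01 h).2.2, ← htn, ha', if_pos h]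
    have e4 : 0 ≤ D1 := by linarith [hDg τ0 h]
    have e5 : D τ0 = D1 + gap τ0 τ0 := by rw [hD1]; ring
    rw [e5, hd0]
    simp only [min_def, max_def]
    split_ifs <;> linarith
  refine ⟨κ, fun σ τ hσ => ?_, fun σ τ hσ => by simp [κ, hσ], fun σ τ hσ hτ => ?_,
    fun σ hσ => by rw [hκ1 σ hσ]; exact hβ σ hσ, fun σ hσ => ?_, fun B hB1 hB2 => ?_, fun h => ?_⟩
  · have e1 := hM1 σ hσ
    by_cases h : τ = σ + 1
    · rw [h, hκ1 σ hσ]; linarith
    · by_cases h' : τ = τ0 ∧ τ ≤ σ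
      · obtain ⟨rfl, h'⟩ := h'
        have e2 := (hg2 σ hσ (by omega)).2
        rw [hgap1 σ τ h'] at e2
        rw [hκ2 σ hσ h']; linarith
      · rw [hκ3 σ τ hσ h h']
  · have e1 := hM1 σ hσ
    rw [hκ1 σ hσ]
    by_cases h' : τ = τ0
    · subst h'
      rw [hκ2 σ hσ hτ]; linarith [(hg2 σ hσ (by omega)).1]
    · rw [hκ3 σ τ hσ (by omega) (fun h => h' h.1)]; linarith [h1 σ τ hσ hτ]
  · by_cases h' : σ = τ0
    · subst h'
      rw [hκ2 σ hσ le_rfl, hβ0 hσ]
      have e1 := hgap1 σ σ le_rfl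
      simp only [g2, if_true, hd0, min_def]
      split_ifs <;> linarith [h2 σ hσ, h3 σ hσ]
    · rw [hκ3 σ σ hσ (by omega) (fun h => h' h.1)]; exact h3 σ hσ
  · have e0 : ∀ τ < n, p τ - D τ ≤ B - tot s n n := fun τ hτ => by
      linarith [hB2 τ hτ, hD τ]
    have e1 : a' ≤ B - tot s n n := by
      rw [ha']
      split_ifs with h
      · exact max_le (e0 _ h) (by linarith)
      · linarith
    have e2 := hM4 (B - tot s n n - a') (by linarith) fun τ hτ => by linarith [e0 τ hτ]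
    refine ⟨?_, fun τ hτ => ?_⟩
    · rw [htot1 n le_rfl fun _ => rfl, hMn]; linarith
    · by_cases h : τ = τ0
      · subst h
        rw [htot2 hτ]; linarith
      · rw [htot1 τ hτ.le fun h' => absurd h' h, hD τ]
        linarith [hM2 τ hτ]
  · rw [htot2 h]
    refine ⟨by linarith [hM0 0 (Nat.zero_le n)], fun τ hτ => ?_⟩
    rw [hD τ]
    linarith [hM2 τ hτ, hM3 τ hτ.le]

/-- Scale of a type. -/
noncomputable def eta (τ : ℕ) : ℝ := (1 / 2) ^ τ / 100

theorem eta_pos (τ : ℕ) : 0 < eta τ := by unfold eta; positivity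

/-- Weight functions determined by the stage data. -/
def wt (K : ℕ → Option (ℕ × ℕ) → ℝ) (i : Option (ℕ × ℕ)) : G → ℝ
  | Sum.inl _ => if i = none then 1 else 0
  | Sum.inr p => K p.1 i

/-- Truncated stage data. -/
def tr (K : ℕ → Option (ℕ × ℕ) → ℝ) (n : ℕ) : ℕ → Option (ℕ × ℕ) → ℝ :=
  fun k => if k < n then K k else 0

theorem wt_tr (K : ℕ → Option (ℕ × ℕ) → ℝ) (i : Option (ℕ × ℕ)) {n : ℕ} {g : G} (h : st g ≤ n) :
    wt (tr K n) i g = wt K i g := by
  rcases g with s | ⟨k, m⟩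
  · rfl
  · have : k < n := h
    simp [wt, tr, this]

theorem tr_tr (K : ℕ → Option (ℕ × ℕ) → ℝ) {τ n : ℕ} (h : τ ≤ n) : tr (tr K n) τ = tr K τ := by
  funext k
  unfold tr
  split_ifs with h1 h2
  · rfl
  · omega
  · rfl

/-- An almost norming functional for the vector of stage `τ`. -/
noncomputable def psi (K : ℕ → Option (ℕ × ℕ) → ℝ) (τ : ℕ) : G → ℝ :=
  Classical.epsilon fun f => Adm (wt K none) τ f ∧ Sn (wt K none) τ (zz τ) / 2 ≤ ev f (zz τ)

/-- Increments on the binary tree at level `τ`. -/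
noncomputable def bit (τ : ℕ) : G → ℝ
  | Sum.inl (b :: s) => if s.length = τ then (if b then 2 / 3 else -(2 / 3)) else 0
  | _ => 0

/-- The functional of type `τ`. -/
noncomputable def phi (K : ℕ → Option (ℕ × ℕ) → ℝ) (τ : ℕ) : G → ℝ :=
  build fun g => if st g ≤ τ then 1 / 3 * dif (psi (tr K τ) τ) g else bit τ g

/-- The numbers `η τ |φ τ z|`. -/
noncomputable def pp (K : ℕ → Option (ℕ × ℕ) → ℝ) (n τ : ℕ) : ℝ :=
  if τ < n then eta τ * |ev (phi K τ) (zz n)| else 0

/-- The data of stage `n` from the earlier data. -/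
noncomputable def step (n : ℕ) (K : ℕ → Option (ℕ × ℕ) → ℝ) : Option (ℕ × ℕ) → ℝ
  | none => Sn (wt K none) n (zz n)
  | some i => Classical.epsilon (Good n (rq n).2 eta (Sn (wt K none) n (zz n))
      (fun σ τ => Sn (wt K (some (σ, τ))) n (zz n)) (pp K n)) i.1 i.2

/-- The stage data. -/
noncomputable def KK : ℕ → Option (ℕ × ℕ) → ℝ :=
  Nat.lt_wfRel.wf.fix fun n ih => step n fun k => if h : k < n then ih k h else 0

theorem KK_eq (n : ℕ) : KK n = step n KK := by
  have h1 : KK n = step n (tr KK n) := by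
    unfold KK
    rw [WellFounded.fix_eq]
    congr 1
  have h2 : ∀ i, Sn (wt (tr KK n) i) n = Sn (wt KK i) n := fun i =>
    Sn_congr fun g hg => wt_tr KK i hg
  have h3 : pp (tr KK n) n = pp KK n := by
    funext τ
    unfold pp phi
    split_ifs with h
    · rw [tr_tr KK h.le]
    · rfl
  rw [h1]
  funext i
  cases i with
  | none => simp only [step, h2]
  | some i => simp only [step, h2, h3]

/-- The weights. -/
noncomputable def om (i : Option (ℕ × ℕ)) : G → ℝ := wt KK i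

/-- The witnessing functionals. -/
noncomputable def ph (τ : ℕ) : G → ℝ := phi KK τ

theorem om_none_inl (s : List Bool) : om none (Sum.inl s) = 1 := by simp [om, wt]

theorem om_some_inl (i : ℕ × ℕ) (s : List Bool) : om (some i) (Sum.inl s) = 0 := by simp [om, wt]

theorem om_none_inr (n m : ℕ) : om none (Sum.inr (n, m)) = Sn (om none) n (zz n) := by
  change KK n none = _
  rw [KK_eq]; rfl

theorem dif_ph (τ : ℕ) (g : G) :
    dif (ph τ) g = if st g ≤ τ then 1 / 3 * dif (psi (tr KK τ) τ) g else bit τ g := by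
  rw [ph, phi, dif_build]

theorem psi_spec {τ : ℕ} (h : ∀ g, st g ≤ τ → 0 ≤ om none g) :
    Adm (om none) τ (psi (tr KK τ) τ) ∧
      Sn (om none) τ (zz τ) / 2 ≤ ev (psi (tr KK τ) τ) (zz τ) := by
  have h1 : ∀ g, st g ≤ τ → wt (tr KK τ) none g = om none g := fun g hg => wt_tr KK none hg
  have h2 : ∀ f, Adm (wt (tr KK τ) none) τ f ↔ Adm (om none) τ f := fun f =>
    and_congr_right fun _ => forall₂_congr fun g hg => by rw [h1 g hg]
  have h3 : ∃ f, Adm (wt (tr KK τ) none) τ f ∧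
      Sn (wt (tr KK τ) none) τ (zz τ) / 2 ≤ ev f (zz τ) := by
    simp only [h2, Sn_congr h1]
    by_contra hcon
    push Not at hcon
    have h4 := Sn_le h fun f hf => (hcon f hf).le
    have h5 := hcon _ (adm_zero h)
    rw [ev_zero] at h5
    linarith
  have h4 : Adm (wt (tr KK τ) none) τ (psi (tr KK τ) τ) ∧
      Sn (wt (tr KK τ) none) τ (zz τ) / 2 ≤ ev (psi (tr KK τ) τ) (zz τ) :=
    Classical.epsilon_spec h3
  rwa [h2, Sn_congr h1] at h4

theorem ph_zs {τ : ℕ} (h : ∀ g, st g ≤ τ → 0 ≤ om none g) (n : ℕ) : Zs n (dif (ph τ)) := by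
  have h1 := (psi_spec h).1.1
  refine ⟨fun s _ => ?_, fun k _ => ?_⟩
  · simp only [dif_ph, st, List.length_cons]
    split_ifs with h2
    · linear_combination 1 / 3 * h1.1 s h2
    · simp only [bit]
      split_ifs <;> simp_all
  · simp only [dif_ph, st]
    split_ifs with h2
    · rw [← Finset.mul_sum, h1.2 k h2, mul_zero]
    · simp [bit]

theorem ph_eq {τ : ℕ} {g : G} (hg : st g ≤ τ) : ph τ g = 1 / 3 * psi (tr KK τ) τ g := by
  have := eq_of_dif (n := τ) (f := ph τ)
    (f' := fun g => 1 / 3 * psi (tr KK τ) τ g + 0 * psi (tr KK τ) τ g) (fun g hg => by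
      rw [dif_ph, if_pos hg]
      simp only [dif, ev_comb]
      ring) g hg
  simpa using this

theorem ph_inr {τ n : ℕ} (h : τ ≤ n) (m : ℕ) : ph τ (Sum.inr (n, m)) = ev (ph τ) (zz n) := by
  have h1 := dif_ph τ (Sum.inr (n, m))
  rw [if_neg (by simp [st]; omega), dif] at h1
  simp only [bit, par] at h1
  linarith

theorem ph_cons {τ : ℕ} (b : Bool) {s : List Bool} (h : τ ≤ s.length) :
    ph τ (Sum.inl (b :: s)) = ph τ (Sum.inl s) + bit τ (Sum.inl (b :: s)) := by
  have h1 := dif_ph τ (Sum.inl (b :: s))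
  rw [if_neg (by simp [st]; omega), dif] at h1
  simp only [par, ev_single] at h1
  linarith

/-- Invariants of the weights up to stage `n`. -/
def Inv (n : ℕ) : Prop := ∀ g, st g ≤ n → (∀ i, 0 ≤ om i g) ∧
  (∀ σ τ, st g ≤ σ + 1 → om (some (σ, τ)) g = 0) ∧
  (∀ σ τ, τ ≤ σ → om (some (σ, τ)) g ≤ om (some (σ, σ + 1)) g) ∧
  (∀ σ, om (some (σ, σ + 1)) g ≤ eta σ * om none g) ∧
  ∀ σ < n, om (some (σ, σ)) g + eta σ * |ph σ g| ≤ eta σ * om none g

theorem Inv.good {n : ℕ} (h : Inv n) : Good n (rq n).2 eta (Sn (om none) n (zz n))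
    (fun σ τ => Sn (om (some (σ, τ))) n (zz n)) (pp KK n) (fun σ τ => KK n (some (σ, τ))) := by
  have h1 : ∃ κ, Good n (rq n).2 eta (Sn (om none) n (zz n))
      (fun σ τ => Sn (om (some (σ, τ))) n (zz n)) (pp KK n) κ := by
    refine exists_good _ _ _ _ _ _ (fun σ τ _ hτ => ?_) (fun σ _ => ?_) (fun σ hσ => ?_)
      fun τ => ?_
    · simpa using Sn_le_mul (ω' := om (some (σ, σ + 1))) (fun g hg => (h g hg).1 _) one_pos
        (fun g hg => by simpa using (h g hg).2.2.1 σ τ hτ) (lv_zz n)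
    · exact Sn_le_mul (fun g hg => (h g hg).1 _) (eta_pos σ) (fun g hg => (h g hg).2.2.2.1 σ)
        (lv_zz n)
    · have hz := ph_zs (τ := σ) (fun g hg => (h g (by omega)).1 _) n
      have := Sn_comp (ω := om (some (σ, σ))) (ω' := om none) (fun g hg => (h g hg).1 _)
        (eta_pos σ) (hz.comb hz (eta σ) 0) (fun g hg => by
          simpa [abs_mul, abs_of_pos (eta_pos σ)] using (h g hg).2.2.2.2 σ hσ) (lv_zz n)
      rw [ev_comb, zero_mul, add_zero, abs_mul, abs_of_pos (eta_pos σ)] at this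
      simpa [pp, hσ, ph] using this
    · unfold pp
      split_ifs
      · exact mul_nonneg (eta_pos τ).le (abs_nonneg _)
      · exact le_rfl
  have h2 := Classical.epsilon_spec h1
  rw [KK_eq]
  exact h2

theorem inv_all (n : ℕ) : Inv n := by
  induction n with
  | zero =>
    rintro (s | ⟨k, m⟩) hg
    · refine ⟨fun i => ?_, fun σ τ _ => om_some_inl _ _, fun σ τ _ => by simp [om_some_inl],
        fun σ => by simp [om_some_inl, om_none_inl, (eta_pos σ).le], fun σ hσ => by omega⟩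
      cases i <;> simp [om_some_inl, om_none_inl]
    · simp [st] at hg
  | succ n ih =>
    have hG := ih.good
    have h0 : ∀ i g, st g ≤ n → 0 ≤ om i g := fun i g hg => (ih g hg).1 i
    have hψ := (psi_spec (h0 none)).1
    have hlow : ∀ g, st g ≤ n → |ph n g| ≤ 1 / 3 * om none g := fun g hg => by
      rw [ph_eq hg, abs_mul, abs_of_pos (by norm_num : (0 : ℝ) < 1 / 3)]
      exact mul_le_mul_of_nonneg_left (hψ.2 g hg) (by norm_num)
    intro g hg
    rcases hg.eq_or_lt with hg | hg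
    swap
    · have hg' : st g ≤ n := by omega
      obtain ⟨a1, a2, a3, a4, a5⟩ := ih g hg'
      refine ⟨a1, a2, a3, a4, fun σ hσ => ?_⟩
      rcases (Nat.lt_succ_iff.mp hσ).eq_or_lt with rfl | hσ'
      · rw [a2 σ σ (by omega), zero_add]
        refine mul_le_mul_of_nonneg_left ?_ (eta_pos σ).le
        linarith [hlow g hg', a1 none]
      · exact a5 σ hσ'
    rcases g with s | ⟨k, m⟩
    · refine ⟨fun i => ?_, fun σ τ _ => om_some_inl _ _, fun σ τ _ => by simp [om_some_inl],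
        fun σ => by simp [om_some_inl, om_none_inl, (eta_pos σ).le], fun σ hσ => ?_⟩
      · cases i <;> simp [om_some_inl, om_none_inl]
      · rcases s with _ | ⟨b, s⟩
        · simp [st] at hg
        have hs : s.length = n := by simpa [st] using hg
        rw [om_some_inl, zero_add, om_none_inl, ph_cons b (by omega)]
        rcases (Nat.lt_succ_iff.mp hσ).eq_or_lt with rfl | hσ'
        · refine mul_le_mul_of_nonneg_left ((abs_add_le _ _).trans ?_) (eta_pos σ).le
          have e1 := hlow (Sum.inl s) hs.le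
          rw [om_none_inl] at e1
          have e2 : |bit σ (Sum.inl (b :: s))| ≤ 2 / 3 := by
            simp only [bit, hs, if_true]
            split_ifs <;> simp [abs_of_pos]
          linarith
        · have e1 := (ih (Sum.inl s) hs.le).2.2.2.2 σ hσ'
          rw [om_some_inl, zero_add, om_none_inl] at e1
          have hne : s.length ≠ σ := by omega
          simpa [bit, hne] using e1
    · obtain rfl : k = n := by simpa [st] using hg
      have hs0 := Sn_nonneg (h0 none) (lv_zz k)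
      have hk : ∀ σ τ, om (some (σ, τ)) (Sum.inr (k, m)) = KK k (some (σ, τ)) := fun _ _ => rfl
      simp only [hk, om_none_inr]
      refine ⟨fun i => ?_, fun σ τ hσ => hG.zero σ τ (by simpa [st] using hσ), fun σ τ hτ => ?_,
        fun σ => ?_, fun σ hσ => ?_⟩
      · rcases i with _ | ⟨σ, τ⟩
        · rwa [om_none_inr]
        · rw [hk]
          rcases lt_or_ge σ k with h | h
          · exact (Sn_nonneg (h0 _) (lv_zz k)).trans (hG.ge σ τ h)
          · exact (hG.zero σ τ h).ge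
      · rcases lt_or_ge σ k with h | h
        · exact hG.le1 σ τ h hτ
        · exact ((hG.zero σ τ h).trans (hG.zero σ _ h).symm).le
      · rcases lt_or_ge σ k with h | h
        · exact hG.le2 σ h
        · exact (hG.zero σ _ h).le.trans (mul_nonneg (eta_pos σ).le hs0)
      · rw [ph_inr (by omega)]
        rcases (Nat.lt_succ_iff.mp hσ).eq_or_lt with rfl | hσ'
        · have e1 : KK σ (some (σ, σ)) = 0 := hG.zero σ σ le_rfl
          rw [e1, zero_add]
          refine mul_le_mul_of_nonneg_left ?_ (eta_pos σ).le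
          have := abs_ev_le (ω := om none) (by norm_num : (0 : ℝ) < 1 / 3) (ph_zs (h0 none) σ)
            hlow (lv_zz σ)
          linarith
        · have := hG.le3 σ hσ'
          simpa [pp, hσ', ph] using this

theorem om_nonneg (i : Option (ℕ × ℕ)) (g : G) : 0 ≤ om i g := (inv_all _ g le_rfl).1 i

theorem om_zero {σ τ : ℕ} {g : G} (h : st g ≤ σ + 1) : om (some (σ, τ)) g = 0 :=
  (inv_all _ g le_rfl).2.1 σ τ h

theorem om_le_inf {σ : ℕ} (τ : ℕ) (g : G) :
    om (some (σ, min τ (σ + 1))) g ≤ om (some (σ, σ + 1)) g := by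
  rcases le_or_gt τ σ with h | h
  · rw [min_eq_left (by omega)]; exact (inv_all _ g le_rfl).2.2.1 σ τ h
  · rw [min_eq_right (by omega)]

theorem om_le_eta (σ : ℕ) (g : G) : om (some (σ, σ + 1)) g ≤ eta σ * om none g :=
  (inv_all _ g le_rfl).2.2.2.1 σ

theorem ph_le (σ : ℕ) (g : G) : |ph σ g| ≤ om none g := by
  have := (inv_all (max (st g) (σ + 1)) g (le_max_left _ _)).2.2.2.2 σ
    (lt_of_lt_of_le (Nat.lt_succ_self σ) (le_max_right _ _))
  have h2 := om_nonneg (some (σ, σ)) g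
  exact le_of_mul_le_mul_left (by linarith) (eta_pos σ)

theorem ph_rel (τ n : ℕ) : Zs n (dif (ph τ)) := ph_zs (fun g _ => om_nonneg none g) n

theorem om_cons (i : Option (ℕ × ℕ)) : Cons (om i) := by
  refine ⟨om_nonneg i, ?_⟩
  rintro ((_ | ⟨b, s⟩) | ⟨n, m⟩) k hg
  · simp [st] at hg
  · have hs : s.length = k := by simpa [st] using hg
    refine Sn_le (fun g _ => om_nonneg i g) fun f hf => ?_
    simp only [par, ev_single, one_mul]
    exact (le_abs_self _).trans (hf.2 (Sum.inl s) hs.le)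
  · obtain rfl : n = k := by simpa [st] using hg
    rcases i with _ | ⟨σ, τ⟩
    · exact (om_none_inr n m).ge
    · rcases lt_or_ge σ n with h | h
      · exact (inv_all n).good.ge σ τ h
      · exact (Sn_eq_zero (fun g hg => om_zero (by omega)) (lv_zz n)).le.trans (om_nonneg _ _)

end Pool.Agent.Lib.MP_67dc8a_an.R
end

-- part Pool.Agent.Lib.MP_67dc8a_an.RNorm
section

/-!
Real example, part 3: the norm and its main estimates on finitely supported vectors.
-/

namespace Pool.Agent.Lib.MP_67dc8a_an.R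

open Finset

variable {n : ℕ} {x y : G →₀ ℝ}

theorem S_om (i : Option (ℕ × ℕ)) (hx : Lv n x) : S (om i) x = Sn (om i) n x :=
  S_eq (om_cons i) hx

theorem S_nonneg (i : Option (ℕ × ℕ)) (x : G →₀ ℝ) : 0 ≤ S (om i) x :=
  Sn_nonneg (fun g _ => om_nonneg i g) (lv_lvl x)

theorem exists_lv₂ (x y : G →₀ ℝ) : ∃ n, Lv n x ∧ Lv n y :=
  ⟨max (lvl x) (lvl y), (lv_lvl x).mono (le_max_left _ _), (lv_lvl y).mono (le_max_right _ _)⟩

theorem S_add (i : Option (ℕ × ℕ)) (x y : G →₀ ℝ) :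
    S (om i) (x + y) ≤ S (om i) x + S (om i) y := by
  obtain ⟨n, hx, hy⟩ := exists_lv₂ x y
  rw [S_om i hx, S_om i hy, S_om i (hx.add hy)]
  exact Sn_add (fun g _ => om_nonneg i g) hx hy

theorem S_smul (i : Option (ℕ × ℕ)) (c : ℝ) (x : G →₀ ℝ) :
    S (om i) (c • x) ≤ |c| * S (om i) x := by
  rw [S_om i ((lv_lvl x).smul c)]
  exact Sn_smul (fun g _ => om_nonneg i g) (lv_lvl x) c

theorem S_vanish {σ τ : ℕ} (hx : Lv (σ + 1) x) : S (om (some (σ, τ))) x = 0 := by
  rw [S_om _ hx]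
  exact Sn_eq_zero (fun g hg => om_zero hg) hx

theorem S_single (i : Option (ℕ × ℕ)) (g : G) : S (om i) (Finsupp.single g 1) ≤ om i g := by
  rw [S_om i (lv_single g 1)]
  refine Sn_le (fun g _ => om_nonneg i g) fun f hf => ?_
  rw [ev_single, one_mul]
  exact (le_abs_self _).trans (hf.2 g le_rfl)

theorem abs_ph_le (τ : ℕ) (x : G →₀ ℝ) : |ev (ph τ) x| ≤ S (om none) x :=
  Adm.abs_le ⟨ph_rel τ _, fun g _ => ph_le τ g⟩ (lv_lvl x)

theorem S_comp_le (σ τ : ℕ) (x : G →₀ ℝ) :
    S (om (some (σ, min τ (σ + 1)))) x ≤ S (om (some (σ, σ + 1))) x := by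
  have := Sn_le_mul (ω := om (some (σ, min τ (σ + 1)))) (ω' := om (some (σ, σ + 1)))
    (fun g _ => om_nonneg _ g) one_pos (fun g _ => by simpa using om_le_inf τ g) (lv_lvl x)
  rwa [one_mul] at this

theorem S_inf_le (σ : ℕ) (x : G →₀ ℝ) :
    S (om (some (σ, σ + 1))) x ≤ eta σ * S (om none) x :=
  Sn_le_mul (fun g _ => om_nonneg _ g) (eta_pos σ) (fun g _ => om_le_eta σ g) (lv_lvl x)

theorem eta_succ (τ : ℕ) : 2 * eta (τ + 1) = eta τ := by unfold eta; ring

theorem eta_anti {σ τ : ℕ} (h : σ ≤ τ) : eta τ ≤ eta σ := by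
  unfold eta
  exact div_le_div_of_nonneg_right (pow_le_pow_of_le_one (by norm_num) (by norm_num) h)
    (by norm_num)

theorem eta_le (τ : ℕ) : eta τ ≤ 1 / 100 := (eta_anti (Nat.zero_le τ)).trans (by simp [eta])

theorem exists_eta_lt {ε : ℝ} (hε : 0 < ε) : ∃ T, eta T < ε := by
  obtain ⟨T, hT⟩ := exists_pow_lt_of_lt_one hε (by norm_num : (1 / 2 : ℝ) < 1)
  refine ⟨T, lt_of_le_of_lt ?_ hT⟩
  unfold eta
  exact div_le_self (by positivity) (by norm_num)

theorem sum_eta (n m : ℕ) : ∑ σ ∈ range m, (if n ≤ σ then eta σ else 0) ≤ 2 * eta n := by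
  have h : ∑ σ ∈ range m, (if n ≤ σ then eta σ else 0) + 2 * eta (max m n) = 2 * eta n := by
    induction m with
    | zero => simp
    | succ m ih =>
      rw [Finset.sum_range_succ, ← ih]
      split_ifs with h
      · rw [max_eq_left (by omega), max_eq_left h, eta_succ]; ring
      · rw [max_eq_right (by omega), max_eq_right (by omega), add_zero]
  linarith [eta_pos (max m n)]

/-- The sum of the components seen by type `τ`. -/
noncomputable def Tt (τ : ℕ) (x : G →₀ ℝ) : ℝ :=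
  ∑ σ ∈ range (lvl x), S (om (some (σ, min τ (σ + 1)))) x

/-- The sum of the largest components. -/
noncomputable def Ti (x : G →₀ ℝ) : ℝ := ∑ σ ∈ range (lvl x), S (om (some (σ, σ + 1))) x

theorem Tt_eq (τ : ℕ) (hx : Lv n x) :
    Tt τ x = ∑ σ ∈ range n, S (om (some (σ, min τ (σ + 1)))) x :=
  Finset.sum_subset (range_mono hx.lvl_le) fun σ _ hσ =>
    S_vanish ((lv_lvl x).mono (by simp at hσ; omega))

theorem Ti_eq (hx : Lv n x) : Ti x = ∑ σ ∈ range n, S (om (some (σ, σ + 1))) x :=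
  Finset.sum_subset (range_mono hx.lvl_le) fun σ _ hσ =>
    S_vanish ((lv_lvl x).mono (by simp at hσ; omega))

theorem Tt_tot (τ : ℕ) (hx : Lv n x) :
    Tt τ x = tot (fun σ τ => Sn (om (some (σ, τ))) n x) n τ := by
  rw [Tt_eq τ hx]
  exact Finset.sum_congr rfl fun σ _ => S_om _ hx

theorem Tt_nonneg (τ : ℕ) (x : G →₀ ℝ) : 0 ≤ Tt τ x :=
  Finset.sum_nonneg fun _ _ => S_nonneg _ _

theorem Tt_le (τ : ℕ) (x : G →₀ ℝ) : Tt τ x ≤ Ti x :=
  Finset.sum_le_sum fun σ _ => S_comp_le σ τ x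

theorem Tt_eq_Ti {τ : ℕ} (hx : Lv τ x) : Tt τ x = Ti x := by
  rw [Tt_eq τ hx, Ti_eq hx]
  refine Finset.sum_congr rfl fun σ hσ => ?_
  rw [min_eq_right (Finset.mem_range.mp hσ)]

theorem Ti_le (x : G →₀ ℝ) : Ti x ≤ 2 / 100 * S (om none) x := by
  refine (Finset.sum_le_sum fun σ _ => S_inf_le σ x).trans ?_
  rw [← Finset.sum_mul]
  refine mul_le_mul_of_nonneg_right ?_ (S_nonneg _ _)
  have := sum_eta 0 (lvl x)
  simp only [Nat.zero_le, if_true] at this
  linarith [eta_le 0]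

theorem Tt_add (τ : ℕ) (x y : G →₀ ℝ) : Tt τ (x + y) ≤ Tt τ x + Tt τ y := by
  obtain ⟨n, hx, hy⟩ := exists_lv₂ x y
  rw [Tt_eq τ hx, Tt_eq τ hy, Tt_eq τ (hx.add hy), ← Finset.sum_add_distrib]
  exact Finset.sum_le_sum fun σ _ => S_add _ x y

theorem Tt_smul (τ : ℕ) (c : ℝ) (x : G →₀ ℝ) : Tt τ (c • x) ≤ |c| * Tt τ x := by
  rw [Tt_eq τ ((lv_lvl x).smul c), Tt, Finset.mul_sum]
  exact Finset.sum_le_sum fun σ _ => S_smul _ c x

/-- The seminorm of type `τ`. -/
noncomputable def term (τ : ℕ) (x : G →₀ ℝ) : ℝ :=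
  S (om none) x + Tt τ x + eta τ * |ev (ph τ) x|

theorem term_le (τ : ℕ) (x : G →₀ ℝ) : term τ x ≤ 103 / 100 * S (om none) x := by
  have h1 := mul_le_mul (eta_le τ) (abs_ph_le τ x) (abs_nonneg _) (by norm_num)
  unfold term
  linarith [Tt_le τ x, Ti_le x]

theorem term_add (τ : ℕ) (x y : G →₀ ℝ) : term τ (x + y) ≤ term τ x + term τ y := by
  have h1 := mul_le_mul_of_nonneg_left (abs_add_le (ev (ph τ) x) (ev (ph τ) y)) (eta_pos τ).le
  unfold term
  rw [map_add]
  linarith [S_add none x y, Tt_add τ x y]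

/-- The norm. -/
noncomputable def N (x : G →₀ ℝ) : ℝ := ⨆ τ, term τ x

theorem term_le_N (τ : ℕ) (x : G →₀ ℝ) : term τ x ≤ N x :=
  le_ciSup (f := fun τ => term τ x) ⟨_, by rintro _ ⟨τ, rfl⟩; exact term_le τ x⟩ τ

theorem N_le {B : ℝ} (h : ∀ τ, term τ x ≤ B) : N x ≤ B := ciSup_le h

theorem N_le_S (x : G →₀ ℝ) : N x ≤ 103 / 100 * S (om none) x := N_le fun τ => term_le τ x

theorem S_le_N (x : G →₀ ℝ) : S (om none) x ≤ N x := by
  refine le_trans ?_ (term_le_N 0 x)
  unfold term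
  linarith [Tt_nonneg 0 x, mul_nonneg (eta_pos 0).le (abs_nonneg (ev (ph 0) x))]

theorem N_add (x y : G →₀ ℝ) : N (x + y) ≤ N x + N y :=
  N_le fun τ => (term_add τ x y).trans (add_le_add (term_le_N τ x) (term_le_N τ y))

theorem N_smul (c : ℝ) (x : G →₀ ℝ) : N (c • x) ≤ |c| * N x := by
  refine N_le fun τ => le_trans ?_ (mul_le_mul_of_nonneg_left (term_le_N τ x) (abs_nonneg c))
  unfold term
  rw [map_smul, smul_eq_mul, abs_mul]
  nlinarith [S_smul none c x, Tt_smul τ c x]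

theorem N_zero : N 0 = 0 := by
  have h1 := N_smul 0 0
  rw [zero_smul, abs_zero, zero_mul] at h1
  exact le_antisymm h1 ((S_nonneg _ _).trans (S_le_N 0))

/-- The children of the vector of stage `n`. -/
noncomputable def cc (n m : ℕ) : G →₀ ℝ := Finsupp.single (Sum.inr (n, m)) 1

theorem lv_cc (n m : ℕ) : Lv (n + 1) (cc n m) := lv_single (Sum.inr (n, m) : G) 1

theorem pp_eq {n τ : ℕ} (h : τ < n) : pp KK n τ = eta τ * |ev (ph τ) (zz n)| := by
  simp [pp, h, ph]

theorem tot_of_le (κ : ℕ → ℕ → ℝ) {n τ : ℕ} (h : n ≤ τ) : tot κ n τ = tot κ n n :=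
  Finset.sum_congr rfl fun σ hσ => by
    have := Finset.mem_range.mp hσ
    rw [min_eq_right (by omega), min_eq_right (by omega)]

theorem N_child (n m : ℕ) : N (cc n m) ≤ N (zz n) + eta n * S (om none) (zz n) := by
  have hG := (inv_all n).good
  have hz := lv_zz n
  obtain ⟨h1, h2⟩ := hG.up (N (zz n) - S (om none) (zz n)) (by
      have := term_le_N n (zz n)
      unfold term at this
      rw [Tt_tot n hz] at this
      linarith [mul_nonneg (eta_pos n).le (abs_nonneg (ev (ph n) (zz n)))]) fun τ hτ => by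
      have := term_le_N τ (zz n)
      unfold term at this
      rw [Tt_tot τ hz] at this
      rw [pp_eq hτ]
      linarith
  have h0 : S (om none) (cc n m) ≤ S (om none) (zz n) := by
    rw [S_om none hz, ← om_none_inr n m]; exact S_single _ _
  have hs0 := S_nonneg none (zz n)
  refine N_le fun τ => ?_
  have h3 : Tt τ (cc n m) ≤ tot (fun σ τ => KK n (some (σ, τ))) n τ := by
    rw [Tt_eq τ (lv_cc n m), Finset.sum_range_succ, S_vanish (lv_cc n m), add_zero]
    exact Finset.sum_le_sum fun σ _ => S_single _ _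
  unfold term
  rcases lt_or_ge τ n with h | h
  · have h4 := h2 τ h
    rw [pp_eq h] at h4
    rw [cc, ev_single, one_mul, ph_inr h.le]
    have := mul_nonneg (eta_pos n).le hs0
    unfold cc at h0 h3
    linarith
  · rw [tot_of_le _ h] at h3
    have h4 := mul_le_mul (eta_anti h) ((abs_ph_le τ (cc n m)).trans h0) (abs_nonneg _)
      (eta_pos n).le
    linarith

theorem ev_rel {f : G → ℝ} (hf : Zs (n + 1) (dif f)) :
    ev f (∑ m : Fin (n + 1), (cc n m - zz n)) = 0 := by
  rw [map_sum, ← hf.2 n (Nat.lt_succ_self n), Finset.sum_range]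
  refine Finset.sum_congr rfl fun m _ => ?_
  simp [cc, dif, par]

theorem N_rel (n : ℕ) : N (∑ m : Fin (n + 1), (cc n m - zz n)) ≤ 0 := by
  have hx : Lv (n + 1) (∑ m : Fin (n + 1), (cc n m - zz n)) :=
    lv_sum _ fun m => (lv_cc n m).sub ((lv_zz n).mono (Nat.le_succ n))
  refine (N_le_S _).trans ?_
  rw [S_om none hx]
  have := Sn_le (ω := om none) (n := n + 1) (x := ∑ m : Fin (n + 1), (cc n m - zz n)) (B := 0)
    (fun g _ => om_nonneg _ g) fun f hf => (ev_rel hf.1).le
  linarith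

theorem N_low {w : G →₀ ℝ} (hw : Lv n w) (hτ : (rq n).2 < n) {k : ℕ} (hk : 0 < k)
    (J : Fin k → Fin (n + 1)) (hξ : 2 * (k : ℝ) / (n + 1) ≤ 1 / 2) : ∃ θ : ℝ, |θ| = 1 ∧
      (1 - 2 * (2 * (k : ℝ) / (n + 1))) *
        (term (rq n).2 w + N (zz n) - eta n * S (om none) (zz n)) ≤
      N (w + θ • (k : ℝ)⁻¹ • ∑ l, cc n (J l)) := by
  set τ0 := (rq n).2 with hτ0
  set ξ : ℝ := 2 * (k : ℝ) / (n + 1) with hξdef
  have hξ0 : 0 ≤ ξ := by positivity
  have hG := (inv_all n).good
  have hz := lv_zz n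
  obtain ⟨θ, hθ, hab⟩ : ∃ θ : ℝ, |θ| = 1 ∧ |ev (ph τ0) w| + |ev (ph τ0) (zz n)| ≤
      |ev (ph τ0) w + θ * ev (ph τ0) (zz n)| := by
    rcases le_total 0 (ev (ph τ0) w * ev (ph τ0) (zz n)) with h | h
    · exact ⟨1, abs_one, by rw [one_mul]; exact ((abs_add_eq_add_abs_iff _ _).mpr
        (mul_nonneg_iff.mp h)).ge⟩
    · refine ⟨-1, by simp, ?_⟩
      rw [← abs_neg (ev (ph τ0) (zz n)), neg_one_mul]
      exact ((abs_add_eq_add_abs_iff _ _).mpr (mul_nonneg_iff.mp (by linarith))).ge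
  refine ⟨θ, hθ, le_trans ?_ (term_le_N τ0 _)⟩
  set v := w + θ • (k : ℝ)⁻¹ • ∑ l, cc n (J l) with hv
  have hlv : Lv (n + 1) v :=
    (hw.mono (Nat.le_succ n)).add (((lv_sum _ fun l => lv_cc n (J l)).smul _).smul _)
  have key : ∀ i, (1 - 2 * ξ) * (S (om i) w + KK n i) ≤ S (om i) v := by
    intro i
    rw [S_om i hw, S_om i hlv]
    exact Sn_children (om_cons i) (fun m => rfl) hw hk J hθ hξ
  have h1 : (1 - 2 * ξ) * (Tt τ0 w + tot (fun σ τ => KK n (some (σ, τ))) n τ0) ≤ Tt τ0 v := by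
    rw [Tt_eq τ0 hlv, Tt_eq τ0 hw, Finset.sum_range_succ, tot, ← Finset.sum_add_distrib,
      Finset.mul_sum]
    exact le_add_of_le_of_nonneg (Finset.sum_le_sum fun σ _ => key _) (S_nonneg _ _)
  have h2 := key none
  have h3 : KK n none = S (om none) (zz n) := by
    rw [S_om none hz, ← om_none_inr n 0]; rfl
  have h4 : ev (ph τ0) v = ev (ph τ0) w + θ * ev (ph τ0) (zz n) := by
    have hk0 : (k : ℝ) ≠ 0 := by exact_mod_cast hk.ne'
    rw [hv, map_add, map_smul, map_smul, map_sum]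
    simp only [cc, ev_single, one_mul, ph_inr hτ.le, Finset.sum_const, Finset.card_univ,
      Fintype.card_fin, nsmul_eq_mul, smul_eq_mul]
    rw [← mul_assoc (k : ℝ)⁻¹, inv_mul_cancel₀ hk0, one_mul]
  obtain ⟨h5, h6⟩ := hG.low hτ
  have h7 : N (zz n) ≤ S (om none) (zz n) + (tot (fun σ τ => KK n (some (σ, τ))) n τ0 +
      pp KK n τ0) + eta n * S (om none) (zz n) := by
    refine N_le fun τ => ?_
    unfold term
    rw [Tt_tot τ hz]
    rcases lt_or_ge τ n with h | h
    · have h8 := h6 τ h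
      rw [pp_eq h] at h8
      linarith [mul_nonneg (eta_pos n).le (S_nonneg none (zz n))]
    · rw [tot_of_le _ h]
      have h8 := mul_le_mul (eta_anti h) (abs_ph_le τ (zz n)) (abs_nonneg _) (eta_pos n).le
      linarith
  rw [pp_eq hτ] at h7
  have h8 := mul_le_mul_of_nonneg_left hab (eta_pos τ0).le
  have h9 : 0 ≤ ξ * (eta τ0 * (|ev (ph τ0) w| + |ev (ph τ0) (zz n)|)) :=
    mul_nonneg hξ0 (mul_nonneg (eta_pos τ0).le (by positivity))
  have h10 := mul_le_mul_of_nonneg_left h7 (by linarith : 0 ≤ 1 - 2 * ξ)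
  rw [h3] at h2
  unfold term
  rw [h4]
  nlinarith

theorem N_gap (n : ℕ) (x : G →₀ ℝ) : S (om none) x + Ti x +
    eta n * (S (om none) (zz n) / 6 - 3 * S (om none) (x - zz n)) ≤ N x := by
  refine le_trans ?_ (term_le_N n x)
  have hz := lv_zz n
  have h1 : S (om none) (zz n) / 6 ≤ ev (ph n) (zz n) := by
    have h2 := (psi_spec (τ := n) fun g _ => om_nonneg none g).2
    have h3 : ev (ph n) (zz n) = 1 / 3 * ev (psi (tr KK n) n) (zz n) := by
      rw [ev_congr (f' := fun g => 1 / 3 * psi (tr KK n) n g + 0 * psi (tr KK n) n g) hz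
        fun g hg => by rw [ph_eq hg]; ring, ev_comb]
      ring
    rw [S_om none hz, h3]
    linarith
  have h2 : S (om none) (zz n) / 6 - S (om none) (x - zz n) ≤ |ev (ph n) x| := by
    have h3 := abs_ph_le n (x - zz n)
    rw [map_sub] at h3
    linarith [le_abs_self (ev (ph n) x), neg_abs_le (ev (ph n) x - ev (ph n) (zz n))]
  have h3 : Ti x ≤ Tt n x + 2 * eta n * S (om none) (x - zz n) := by
    refine le_trans ?_ (add_le_add le_rfl
      (mul_le_mul_of_nonneg_right (sum_eta n (lvl x)) (S_nonneg _ _)))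
    rw [Ti, Tt, Finset.sum_mul, ← Finset.sum_add_distrib]
    refine Finset.sum_le_sum fun σ _ => ?_
    split_ifs with h
    · have h4 := S_add (some (σ, σ + 1)) (x - zz n) (zz n)
      rw [sub_add_cancel, S_vanish (hz.mono (by omega))] at h4
      linarith [S_inf_le σ (x - zz n), S_nonneg (some (σ, min n (σ + 1))) x]
    · rw [min_eq_right (by omega), zero_mul, add_zero]
  have h4 := mul_le_mul_of_nonneg_left h2 (eta_pos n).le
  unfold term
  linarith

/-- Vectors with a gap are not `ℓ¹`-orthogonal to vectors with opposite signs. -/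
theorem N_add_le {γ : ℝ} {T : ℕ} {z : G →₀ ℝ} (hγ : S (om none) x + Ti x + γ ≤ N x)
    (hx : S (om none) x ≤ 2) (hT : 4 * eta T ≤ γ)
    (hz : ∀ τ < T, ev (ph τ) x * ev (ph τ) z ≤ 0 ∧ 1 / 5 ≤ |ev (ph τ) z|) :
    N (x + z) ≤ N x + N z - eta T / 3 := by
  have hη := eta_pos T
  refine N_le fun τ => ?_
  have h1 := Tt_le τ x
  have h2 := term_le_N τ z
  have h3 := term_add τ x z
  by_cases h : eta τ * |ev (ph τ) x| ≤ γ / 2
  · have : term τ x ≤ N x - γ / 2 := by unfold term; linarith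
    linarith
  · push Not at h
    have hτ : τ < T := by
      by_contra h'
      have := mul_le_mul (eta_anti (not_lt.mp h')) ((abs_ph_le τ x).trans hx) (abs_nonneg _) hη.le
      linarith
    obtain ⟨h4, h5⟩ := hz τ hτ
    have h6 := eta_anti hτ.le
    have h7 := term_le_N τ x
    have h8 : eta τ * |ev (ph τ) x + ev (ph τ) z| ≤
        eta τ * |ev (ph τ) x| + eta τ * |ev (ph τ) z| - eta T / 3 := by
      have hp := eta_pos τ
      have h9 := mul_le_mul_of_nonneg_left h5 hp.le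
      have h10 : (eta τ * ev (ph τ) x) * (eta τ * ev (ph τ) z) ≤ 0 := by
        have := mul_nonpos_of_nonneg_of_nonpos (mul_pos hp hp).le h4
        linarith
      have e1 : ∀ r, eta τ * |r| = |eta τ * r| := fun r => by rw [abs_mul, abs_of_pos hp]
      rw [e1] at h h9
      rw [e1, e1, e1, mul_add]
      generalize eta τ * ev (ph τ) x = a at *
      generalize eta τ * ev (ph τ) z = b at *
      rcases abs_cases a with ha | ha <;> rcases abs_cases b with hb | hb <;>
        rcases abs_cases (a + b) with hab | hab <;> nlinarith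
    unfold term at h2 h7 ⊢
    rw [map_add]
    linarith [S_add none x z, Tt_add τ x z]

end Pool.Agent.Lib.MP_67dc8a_an.R
end
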