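import Pool.Agent.Lib.MP_67dc8a_an.Step
import Pool.Agent.Lib.MP_67dc8a_an.Defs
import Pool.Agent.Lib.MP_67dc8a_an.RNorm

-- part Pool.Agent.Lib.MP_67dc8a_an.Space
section

/-!
The incomplete seminormed space `Y` whose completion is the example.
-/

namespace Pool.Agent.Lib.MP_67dc8a_an

open Finset Function

open Classical in
/-- Expectation of a function of finitely many coordinates. -/
noncomputable def Ev (φ : Om → ℝ) : ℝ := if h : ∃ n, Dep n φ then E h.choose φ else 0

theorem Dep.Ev_eq {n : ℕ} {φ : Om → ℝ} (h : Dep n φ) : Ev φ = E n φ := by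
  have hex : ∃ n, Dep n φ := ⟨n, h⟩
  unfold Ev
  rw [dif_pos hex, ← hex.choose_spec.E_eq (le_max_left _ n), h.E_eq (le_max_right _ n)]

/-- The union of the tower. -/
noncomputable def VV : Submodule ℂ (Om → ℂ) := ⨆ n, XX n

/-- The union of the tower plus one extra dimension. -/
def Y : Type := VV × ℂ

noncomputable instance : AddCommGroup Y := inferInstanceAs (AddCommGroup (VV × ℂ))
noncomputable instance : Module ℂ Y := inferInstanceAs (Module ℂ (VV × ℂ))

/-- First component. -/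
noncomputable def fs : Y →ₗ[ℂ] (Om → ℂ) := VV.subtype ∘ₗ LinearMap.fst ℂ VV ℂ

/-- Second component. -/
noncomputable def sn : Y →ₗ[ℂ] ℂ := LinearMap.snd ℂ VV ℂ

/-- An element with second component zero. -/
noncomputable def mk {n : ℕ} (x : Om → ℂ) (hx : x ∈ XX n) : Y :=
  ((⟨x, Submodule.mem_iSup_of_mem n hx⟩, 0) : VV × ℂ)

/-- The denting point. -/
noncomputable def y0 : Y := ((0, 1) : VV × ℂ)

@[simp] theorem fs_mk {n : ℕ} (x : Om → ℂ) (hx : x ∈ XX n) : fs (mk x hx) = x := rfl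
@[simp] theorem sn_mk {n : ℕ} (x : Om → ℂ) (hx : x ∈ XX n) : sn (mk x hx) = 0 := rfl
@[simp] theorem fs_y0 : fs y0 = 0 := rfl
@[simp] theorem sn_y0 : sn y0 = 1 := rfl

theorem exists_level (v : Y) : ∃ n, fs v ∈ XX n :=
  (Submodule.mem_iSup_of_directed XX XX_mono.directed_le).mp (v : VV × ℂ).1.2

theorem exists_level₂ (v w : Y) : ∃ n, fs v ∈ XX n ∧ fs w ∈ XX n := by
  obtain ⟨n, hn⟩ := exists_level v
  obtain ⟨m, hm⟩ := exists_level w
  exact ⟨max n m, XX_mono (le_max_left _ _) hn, XX_mono (le_max_right _ _) hm⟩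

/-- The sublinear functionals whose supremum is the norm. -/
noncomputable def q (z : ℂ) (v : Y) : ℝ := (z * sn v).re + Ev (fun ω => rho (z * fs v ω))

theorem q_eq {n : ℕ} {v : Y} (h : Dep n (fs v)) (z : ℂ) :
    q z v = (z * sn v).re + E n (fun ω => rho (z * fs v ω)) := by
  unfold q
  rw [(h.comp fun a => rho (z * a)).Ev_eq]

theorem q_add (z : ℂ) (v w : Y) : q z (v + w) ≤ q z v + q z w := by
  obtain ⟨n, hv, hw⟩ := exists_level₂ v w
  have hvw : fs (v + w) ∈ XX n := by rw [map_add]; exact add_mem hv hw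
  rw [q_eq (XX_dep hv), q_eq (XX_dep hw), q_eq (XX_dep hvw)]
  have h := E_mono n (φ := fun ω => rho (z * fs (v + w) ω))
    (ψ := fun ω => rho (z * fs v ω) + rho (z * fs w ω)) fun ω => by
      rw [map_add, Pi.add_apply, mul_add]; exact rho_add _ _
  rw [E_add] at h
  rw [map_add sn, mul_add, Complex.add_re]
  linarith

theorem q_smul (z c : ℂ) (v : Y) : q z (c • v) = q (z * c) v := by
  simp only [q, map_smul, Pi.smul_apply, smul_eq_mul, mul_assoc]

theorem q_real {t : ℝ} (ht : 0 ≤ t) (z : ℂ) (v : Y) : q (t * z) v = t * q z v := by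
  obtain ⟨n, hv⟩ := exists_level v
  rw [q_eq (XX_dep hv), q_eq (XX_dep hv)]
  simp only [mul_assoc, rho_real, abs_of_nonneg ht, E_mul, Complex.re_ofReal_mul, mul_add]

theorem q_addz (z z' : ℂ) (v : Y) : q (z + z') v ≤ q z v + q z' v := by
  obtain ⟨n, hv⟩ := exists_level v
  rw [q_eq (XX_dep hv), q_eq (XX_dep hv), q_eq (XX_dep hv)]
  have h := E_mono n (φ := fun ω => rho ((z + z') * fs v ω))
    (ψ := fun ω => rho (z * fs v ω) + rho (z' * fs v ω)) fun ω => by
      rw [add_mul]; exact rho_add _ _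
  rw [E_add] at h
  rw [add_mul, Complex.add_re]
  linarith

theorem E_rho_mul_le (n : ℕ) {θ : ℂ} (hθ : ‖θ‖ = 1) (x : Om → ℂ) :
    E n (fun ω => rho (θ * x ω)) ≤ 2 * E n (fun ω => rho (x ω)) := by
  rw [← E_mul]
  refine E_mono n fun ω => ?_
  have := rho_mul_le θ (x ω)
  rwa [hθ, mul_one] at this

theorem q_bdd (v : Y) : BddAbove ((fun θ => q θ v) '' {θ : ℂ | ‖θ‖ = 1}) := by
  obtain ⟨n, hv⟩ := exists_level v
  refine ⟨‖sn v‖ + 2 * E n (fun ω => rho (fs v ω)), ?_⟩
  rintro _ ⟨θ, hθ, rfl⟩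
  have hθ' : ‖θ‖ = 1 := hθ
  simp only [q_eq (XX_dep hv)]
  refine add_le_add ((Complex.re_le_norm _).trans ?_) (E_rho_mul_le n hθ' _)
  rw [norm_mul, hθ', one_mul]

/-- The norm. -/
noncomputable def NY (v : Y) : ℝ := sSup ((fun θ => q θ v) '' {θ : ℂ | ‖θ‖ = 1})

theorem unit_nonempty (v : Y) : ((fun θ => q θ v) '' {θ : ℂ | ‖θ‖ = 1}).Nonempty :=
  ⟨_, 1, by simp, rfl⟩

theorem q_le_NY' {θ : ℂ} (hθ : ‖θ‖ = 1) (v : Y) : q θ v ≤ NY v :=
  le_csSup (q_bdd v) ⟨θ, hθ, rfl⟩

theorem NY_le {v : Y} {B : ℝ} (h : ∀ θ : ℂ, ‖θ‖ = 1 → q θ v ≤ B) : NY v ≤ B :=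
  csSup_le (unit_nonempty v) (by rintro _ ⟨θ, hθ, rfl⟩; exact h θ hθ)

theorem q_le_NY (z : ℂ) (v : Y) : q z v ≤ ‖z‖ * NY v := by
  obtain ⟨θ, h1, h2⟩ := Complex.exists_norm_mul_eq_self z
  conv_lhs => rw [← h2, mul_comm]
  rw [q_real (norm_nonneg z)]
  exact mul_le_mul_of_nonneg_left (q_le_NY' h1 v) (norm_nonneg z)

/-- The norm as a seminorm. -/
noncomputable def SN : Seminorm ℂ Y := Seminorm.ofSMulLE NY
  (by
    have h : ∀ θ : ℂ, q θ 0 = 0 := by
      intro θ
      have := q_real le_rfl 1 (0 : Y)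
      rw [← zero_smul ℂ (0 : Y), q_smul, mul_zero]
      simpa using this
    exact le_antisymm (NY_le fun θ _ => (h θ).le) ((h 1).ge.trans (q_le_NY' (by simp) 0)))
  (fun v w => NY_le fun θ hθ => (q_add θ v w).trans (add_le_add (q_le_NY' hθ v) (q_le_NY' hθ w)))
  (fun c v => NY_le fun θ hθ => by
    rw [q_smul]
    refine (q_le_NY _ v).trans (le_of_eq ?_)
    rw [norm_mul, hθ, one_mul])

noncomputable instance : SeminormedAddCommGroup Y := SN.toAddGroupSeminorm.toSeminormedAddCommGroup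

theorem norm_Y (v : Y) : ‖v‖ = NY v := rfl

noncomputable instance : NormedSpace ℂ Y where
  norm_smul_le c v := (map_smul_eq_mul SN c v).le

theorem q_le_norm (z : ℂ) (v : Y) : q z v ≤ ‖z‖ * ‖v‖ := q_le_NY z v

theorem q_le_norm' {θ : ℂ} (hθ : ‖θ‖ = 1) (v : Y) : q θ v ≤ ‖v‖ := q_le_NY' hθ v

theorem norm_le_of_q {v : Y} {B : ℝ} (h : ∀ θ : ℂ, ‖θ‖ = 1 → q θ v ≤ B) : ‖v‖ ≤ B := NY_le h

theorem exists_q {v : Y} {B : ℝ} (h : B < ‖v‖) : ∃ θ : ℂ, ‖θ‖ = 1 ∧ B < q θ v := by
  obtain ⟨_, ⟨θ, hθ, rfl⟩, h2⟩ := exists_lt_of_lt_csSup (unit_nonempty v) h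
  exact ⟨θ, hθ, h2⟩

theorem q_add_neg {n : ℕ} {v : Y} (h : Dep n (fs v)) :
    q 1 v + q (-1) v = 2 * E n (fun ω => rho (fs v ω)) := by
  rw [q_eq h, q_eq h]
  simp only [one_mul, neg_mul, rho_neg, Complex.neg_re]
  ring

theorem r_le_norm {n : ℕ} {v : Y} (h : Dep n (fs v)) : E n (fun ω => rho (fs v ω)) ≤ ‖v‖ := by
  have h1 := q_add_neg h
  have h2 := q_le_norm' (θ := 1) (by simp) v
  have h3 := q_le_norm' (θ := -1) (by simp) v
  linarith

theorem sn_add_r_le {n : ℕ} {v : Y} (h : Dep n (fs v)) :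
    ‖sn v‖ + 1 / 2 * E n (fun ω => rho (fs v ω)) ≤ ‖v‖ := by
  obtain ⟨θ, h1, h2⟩ := Complex.exists_norm_eq_mul_self (sn v)
  refine le_trans ?_ (q_le_norm' h1 v)
  rw [q_eq h, ← h2, Complex.ofReal_re, ← E_mul]
  refine add_le_add le_rfl (E_mono n fun ω => ?_)
  have h3 := rho_le (fs v ω)
  have h4 := norm_le_rho (θ * fs v ω)
  rw [norm_mul, h1, one_mul] at h4
  linarith

theorem norm_sn_le (v : Y) : ‖sn v‖ ≤ ‖v‖ := by
  obtain ⟨n, hv⟩ := exists_level v
  have h1 := sn_add_r_le (XX_dep hv)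
  have h2 := E_nonneg n (φ := fun ω => rho (fs v ω)) fun _ => rho_nonneg _
  linarith

theorem dent (v : Y) : ‖v - sn v • y0‖ ≤ 4 * (‖v‖ - ‖sn v‖) := by
  obtain ⟨n, hv⟩ := exists_level v
  have h1 := sn_add_r_le (XX_dep hv)
  have h2 : fs (v - sn v • y0) = fs v := by simp
  refine norm_le_of_q fun θ hθ => ?_
  rw [q_eq (n := n) (h2 ▸ XX_dep hv), h2]
  have h3 := E_rho_mul_le n hθ (fs v)
  simp only [map_sub, map_smul, sn_y0, smul_eq_mul, mul_one, sub_self, mul_zero, Complex.zero_re]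
  linarith

theorem q_add_y0 (θ c : ℂ) (v : Y) : q θ (v + c • y0) = q θ v + (θ * c).re := by
  simp only [q, map_add, map_smul, fs_y0, smul_zero, add_zero, sn_y0, smul_eq_mul, mul_one,
    mul_add, Complex.add_re]
  ring

theorem norm_y0 : ‖y0‖ = 1 := by
  have h0 : ∀ θ : ℂ, q θ y0 = θ.re := by
    intro θ
    rw [q_eq (n := 0) (fun _ _ _ _ => rfl)]
    simp [rho, E_const]
  refine le_antisymm (norm_le_of_q fun θ hθ => ?_) ?_
  · rw [h0, ← hθ]; exact Complex.re_le_norm θ
  · have := q_le_norm' (θ := 1) (by simp) y0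
    rwa [h0, Complex.one_re] at this

theorem norm_add_y0_le {θ : ℂ} (hθ : ‖θ‖ = 1) {t : ℝ} (ht : 0 < t) (v : Y) :
    ‖v + ((t : ℂ) * (starRingEnd ℂ) θ) • y0‖ ≤ t + q θ v + ‖v‖ ^ 2 / (2 * t) := by
  refine norm_le_of_q fun θ' hθ' => ?_
  rw [q_add_y0]
  have h1 := q_addz θ (θ' - θ) v
  rw [add_sub_cancel] at h1
  have h2 := q_le_norm (θ' - θ) v
  have h3 : (θ' * ((t : ℂ) * (starRingEnd ℂ) θ)).re = t * (1 - ‖θ' - θ‖ ^ 2 / 2) := by
    have h4 : ‖θ‖ ^ 2 = 1 := by rw [hθ]; norm_num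
    have h5 : ‖θ'‖ ^ 2 = 1 := by rw [hθ']; norm_num
    rw [Complex.sq_norm, Complex.normSq_apply] at h4 h5 ⊢
    simp only [Complex.mul_re, Complex.ofReal_re, Complex.conj_re, Complex.ofReal_im,
      Complex.conj_im, Complex.mul_im, Complex.sub_re, Complex.sub_im]
    linear_combination (t / 2) * h4 + (t / 2) * h5
  rw [h3]
  have h4 : ‖θ' - θ‖ * ‖v‖ - t * ‖θ' - θ‖ ^ 2 / 2 ≤ ‖v‖ ^ 2 / (2 * t) := by
    rw [le_div_iff₀ (by positivity)]
    nlinarith [sq_nonneg (‖v‖ - t * ‖θ' - θ‖)]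
  linarith

/-- No element of the completion has all `q θ` equal to one. -/
theorem no_disc (u : Y) : ∃ κ : ℝ, 0 < κ ∧ ∀ G : Y, ‖G - u‖ ≤ 1 / 10 → ‖G‖ ≤ 1 + κ →
    ∃ θ : ℂ, ‖θ‖ = 1 ∧ q θ G < 1 - κ := by
  obtain ⟨n, hu⟩ := exists_level u
  have ha := one_le_aa n
  refine ⟨1 / (2000 * (aa n : ℝ) ^ 2), by positivity, fun G h1 h2 => ?_⟩
  set κ : ℝ := 1 / (2000 * (aa n : ℝ) ^ 2) with hκ
  have hκ0 : 0 < κ := by positivity
  have hκ1 : κ ≤ 1 / 2000 := one_div_le_one_div_of_le (by norm_num) (by nlinarith)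
  by_contra hcon
  push Not at hcon
  obtain ⟨N0, hG0⟩ := exists_level G
  have hG : fs G ∈ XX (max n N0) := XX_mono (le_max_right _ _) hG0
  have hN : n ≤ max n N0 := le_max_left _ _
  generalize max n N0 = N at hG hN
  have hD := XX_dep hG
  have hGu : fs (G - u) ∈ XX N := by rw [map_sub]; exact sub_mem hG (XX_mono hN hu)
  obtain ⟨θ, hθ, h3⟩ := corner hN hu hG
    (by linarith [q_add_neg hD, hcon 1 (by simp), hcon (-1) (by simp)])
    (by linarith [r_le_norm hD])
    (by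
      have := r_le_norm (XX_dep hGu)
      simp only [map_sub, Pi.sub_apply] at this
      linarith)
  set s : ℝ := 1 / (8 * (aa n : ℝ)) with hs
  have hs1 : s ^ 2 ≤ 1 := by
    refine pow_le_one₀ (by positivity) ?_
    rw [hs, div_le_one (by positivity)]; linarith
  have h4 : E N (fun ω => Del θ s (fs G ω)) =
      q (θ * (1 + s * Complex.I)) G + q (θ * (1 - s * Complex.I)) G - 2 * q θ G := by
    rw [q_eq hD, q_eq hD, q_eq hD]
    simp only [Del, E_sub, E_add, E_mul]
    have : (θ * (1 + s * Complex.I) * sn G).re + (θ * (1 - s * Complex.I) * sn G).re =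
        2 * (θ * sn G).re := by
      rw [← Complex.add_re, show θ * (1 + s * Complex.I) * sn G + θ * (1 - s * Complex.I) * sn G =
        ((2 : ℝ) : ℂ) * (θ * sn G) by push_cast; ring, Complex.re_ofReal_mul]
    linarith
  have h5 := q_le_norm (θ * (1 + s * Complex.I)) G
  have h6 := q_le_norm (θ * (1 - s * Complex.I)) G
  rw [norm_mul, hθ, one_mul] at h5 h6
  have h7 : ‖(1 + s * Complex.I : ℂ)‖ * ‖G‖ ≤ (1 + s ^ 2 / 2) * (1 + κ) :=
    mul_le_mul (norm_tang s) h2 (norm_nonneg _) (by positivity)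
  have h8 : ‖(1 - s * Complex.I : ℂ)‖ * ‖G‖ ≤ (1 + s ^ 2 / 2) * (1 + κ) :=
    mul_le_mul (norm_tang' s) h2 (norm_nonneg _) (by positivity)
  have h9 := hcon θ hθ
  have h10 : 1 / (200 * (aa n : ℝ) ^ 2) = 10 * κ := by rw [hκ]; field_simp; norm_num
  rw [h4, h10] at h3
  nlinarith

theorem q_mul {n : ℕ} {x : Om → ℂ} (hx : Dep n x) (G : Xi n → ℝ) {v : Y}
    (hv : ∀ ω, fs v ω = x ω * (G (ω n) : ℝ)) (z : ℂ) :
    q z v = (z * sn v).re + W n (fun ξ => |G ξ|) * E n (fun ω => rho (z * x ω)) := by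
  have hD : Dep (n + 1) (fs v) := by
    rw [show fs v = fun ω => x ω * (G (ω n) : ℝ) from funext hv]
    exact (hx.mono (Nat.le_succ n)).comp₂ (dep_coord n G) fun a b => a * (b : ℝ)
  rw [q_eq hD, ← (hx.comp fun a => rho (z * a)).E_coord]
  congr 2
  funext ω
  rw [hv, ← mul_assoc, mul_comm _ ((G (ω n) : ℝ) : ℂ), rho_real, mul_comm]

theorem norm_mul_le {n : ℕ} {z : Y} (hx : Dep n (fs z)) (G : Xi n → ℝ) {v : Y}
    (hv : ∀ ω, fs v ω = fs z ω * (G (ω n) : ℝ)) (h0 : sn v = 0) :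
    ‖v‖ ≤ W n (fun ξ => |G ξ|) * (2 * ‖z‖) := by
  refine norm_le_of_q fun θ hθ => ?_
  rw [q_mul hx G hv, h0, mul_zero, Complex.zero_re, zero_add]
  refine mul_le_mul_of_nonneg_left ?_ (Ex_nonneg (prn n) fun _ => abs_nonneg _)
  linarith [E_rho_mul_le n hθ (fs z), r_le_norm hx]

/-- Spike perturbation. -/
theorem spike {H : Type} [NormedAddCommGroup H] [InnerProductSpace ℂ H] (Φ : Y →L[ℂ] H)
    (w z : Y) {δ : ℝ} (hδ : 0 < δ) : ∃ z' : Y, ‖z'‖ ≤ ‖z‖ ∧ ‖Φ z' - Φ z‖ ≤ δ ∧
      ∃ θ : ℂ, ‖θ‖ = 1 ∧ ‖w‖ + ‖z‖ - δ ≤ ‖w + θ • z'‖ := by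
  obtain ⟨n0, hw0, hz0⟩ := exists_level₂ w z
  set C := ‖Φ‖ * (4 * ‖z‖) with hC
  have hC0 : 0 ≤ C := by positivity
  obtain ⟨m, hm⟩ := exists_nat_gt (4 * C ^ 2 / δ ^ 2)
  have hm0 : (0 : ℝ) < m := lt_of_le_of_lt (by positivity) hm
  obtain ⟨n1, hn1⟩ := exists_nat_gt ((12 * ‖Φ‖ * ‖z‖ + 8 * m * ‖w‖) / δ)
  have hw : fs w ∈ XX (max n0 n1) := XX_mono (le_max_left _ _) hw0
  have hz : fs z ∈ XX (max n0 n1) := XX_mono (le_max_left _ _) hz0
  have hn : 12 * ‖Φ‖ * ‖z‖ + 8 * m * ‖w‖ ≤ δ * ((max n0 n1 : ℕ) + 1) := by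
    rw [div_lt_iff₀ hδ] at hn1
    have : (n1 : ℝ) ≤ (max n0 n1 : ℕ) := by exact_mod_cast le_max_right _ _
    nlinarith
  generalize max n0 n1 = n at hw hz hn
  have hn0 : (0 : ℝ) < n + 1 := by positivity
  have hN : (0 : ℝ) < NN n := by exact_mod_cast NN_pos n
  have hmem : ∀ j : Fin (NN n), (fun ω => fs z ω * (val (ω n j) : ℝ)) ∈ XX (n + 1) := by
    intro j
    have := mul_mem_XX hz (Pi.single j 1)
    simpa [Pi.single_apply] using this
  let e : Fin (NN n) → Y := fun j => mk _ (hmem j)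
  have he : ∀ j, ‖e j‖ ≤ 2 * ‖z‖ := by
    intro j
    have := norm_mul_le (XX_dep hz) (fun ξ => val (ξ j)) (v := e j) (fun ω => rfl) rfl
    simpa only [abs_of_nonneg (val_nonneg _), W_val, one_mul] using this
  let eb : Y := ((NN n : ℂ))⁻¹ • ∑ j, e j
  have heb : ‖eb‖ ≤ 2 * ‖z‖ := by
    have h1 : ‖∑ j, e j‖ ≤ NN n * (2 * ‖z‖) := by
      refine (norm_sum_le _ _).trans ((Finset.sum_le_sum fun j _ => he j).trans (le_of_eq ?_))
      simp
    rw [show eb = ((NN n : ℂ))⁻¹ • ∑ j, e j from rfl, norm_smul, norm_inv, Complex.norm_natCast,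
      inv_mul_le_iff₀ hN]
    exact h1
  have hebz : ‖eb - (z - sn z • y0)‖ ≤ 3 / (n + 1) * (2 * ‖z‖) := by
    refine (norm_mul_le (XX_dep hz) (fun ξ => (∑ j, (NN n : ℝ)⁻¹ * val (ξ j)) - 1)
      (fun ω => ?_) ?_).trans (mul_le_mul_of_nonneg_right (W_lln n) (by positivity))
    · simp only [eb, e, map_sub, map_smul, map_sum, fs_mk, fs_y0, smul_zero, sub_zero,
        Pi.sub_apply, Pi.smul_apply, Finset.sum_apply, smul_eq_mul]
      push_cast
      rw [mul_sub, mul_one, Finset.mul_sum, Finset.mul_sum]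
      congr 1
      exact Finset.sum_congr rfl fun j _ => by ring
    · simp [eb, e]
  obtain ⟨J, hJ⟩ := maurey (fun j => Φ (e j - eb)) (C := C) (by
      rw [← map_sum, Finset.sum_sub_distrib, Finset.sum_const, Finset.card_univ, Fintype.card_fin,
        ← Nat.cast_smul_eq_nsmul ℂ, show eb = ((NN n : ℂ))⁻¹ • ∑ j, e j from rfl, smul_smul,
        mul_inv_cancel₀ (by exact_mod_cast (NN_pos n).ne'), one_smul, sub_self, map_zero])
    (fun j => (Φ.le_opNorm _).trans (mul_le_mul_of_nonneg_left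
      ((norm_sub_le _ _).trans (by linarith [he j])) (norm_nonneg _))) m
  let F : Xi n → ℝ := fun ξ => ∑ i, (m : ℝ)⁻¹ * val (ξ (J i))
  have hF0 : ∀ ξ, 0 ≤ F ξ := fun ξ =>
    Finset.sum_nonneg fun i _ => mul_nonneg (by positivity) (val_nonneg _)
  have hF1 : W n F = 1 := by
    have h1 := W_val n
    unfold W at h1 ⊢
    rw [Ex_sum]
    simp only [Ex_mul, h1, Finset.sum_const, Finset.card_univ, Fintype.card_fin, nsmul_eq_mul]
    field_simp
  let z' : Y := ((m : ℂ))⁻¹ • ∑ i, e (J i) + sn z • y0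
  have hz1 : ∀ ω, fs z' ω = fs z ω * (F (ω n) : ℝ) := by
    intro ω
    simp only [z', e, F, map_add, map_smul, map_sum, fs_mk, fs_y0, smul_zero, add_zero,
      Pi.smul_apply, Finset.sum_apply, smul_eq_mul]
    push_cast
    rw [Finset.mul_sum, Finset.mul_sum]
    exact Finset.sum_congr rfl fun j _ => by ring
  have hz2 : sn z' = sn z := by simp [z', e]
  refine ⟨z', norm_le_of_q fun θ hθ => ?_, ?_, ?_⟩
  · rw [q_mul (XX_dep hz) F hz1, hz2]
    simp only [abs_of_nonneg (hF0 _), hF1, one_mul]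
    rw [← q_eq (XX_dep hz)]
    exact q_le_norm' hθ z
  · have hm' : (m : ℂ) ≠ 0 := by exact_mod_cast hm0.ne'
    have h1 : Φ z' - Φ z = ((m : ℂ))⁻¹ • ∑ i, Φ (e (J i) - eb) + Φ (eb - (z - sn z • y0)) := by
      rw [← map_sum, ← map_smul, ← map_add, ← map_sub]
      congr 1
      rw [Finset.sum_sub_distrib, Finset.sum_const, Finset.card_univ, Fintype.card_fin,
        ← Nat.cast_smul_eq_nsmul ℂ, smul_sub, smul_smul, inv_mul_cancel₀ hm', one_smul]
      simp only [z']
      abel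
    rw [h1]
    refine (norm_add_le _ _).trans ?_
    have h2 : ‖((m : ℂ))⁻¹ • ∑ i, Φ (e (J i) - eb)‖ ≤ δ / 2 := by
      rw [norm_smul, norm_inv, Complex.norm_natCast, inv_mul_le_iff₀ hm0]
      refine (abs_le_of_sq_le_sq' (hJ.trans ?_) (by positivity)).2
      rw [div_lt_iff₀ (by positivity)] at hm
      nlinarith
    have h3 : ‖Φ (eb - (z - sn z • y0))‖ ≤ δ / 2 := by
      refine (Φ.le_opNorm _).trans ((mul_le_mul_of_nonneg_left hebz (norm_nonneg _)).trans ?_)
      rw [div_mul_eq_mul_div, mul_div_assoc', div_le_iff₀ hn0]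
      have : 0 ≤ 8 * (m : ℝ) * ‖w‖ := by positivity
      linarith
    linarith
  · obtain ⟨θ0, h0, hq0⟩ := exists_q (v := w) (B := ‖w‖ - δ / 4) (by linarith)
    obtain ⟨θ1, h1, hq1⟩ := exists_q (v := z) (B := ‖z‖ - δ / 4) (by linarith)
    have hθ0 : θ0 ≠ 0 := by rintro rfl; simp at h0
    refine ⟨θ0⁻¹ * θ1, by rw [norm_mul, norm_inv, h0, h1]; norm_num, ?_⟩
    refine le_trans ?_ (q_le_norm' h0 _)
    have hD : Dep (n + 1) (fs (w + (θ0⁻¹ * θ1) • z')) := by
      rw [show fs (w + (θ0⁻¹ * θ1) • z') =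
        fun ω => fs w ω + (θ0⁻¹ * θ1) * (fs z ω * (F (ω n) : ℝ)) from
          funext fun ω => by simp [hz1]]
      exact ((XX_dep hw).mono (Nat.le_succ n)).comp₂ ((((XX_dep hz).mono (Nat.le_succ n)).comp₂
        (dep_coord n F) fun a b => a * (b : ℝ))) fun a b => a + (θ0⁻¹ * θ1) * b
    let T : Xi n → ℝ := fun ξ => ∑ i, top 0 (ξ (J i))
    have hT0 : ∀ b : Option (Fin (LL n)), 0 ≤ top 0 b := fun b => by
      rcases top_cases 0 b with h | h <;> simp [h]
    have hT : W n T ≤ m * (1 / (n + 1)) := by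
      have h2 := W_top n
      unfold W at h2 ⊢
      rw [Ex_sum]
      refine (Finset.sum_le_sum fun i _ => h2 (J i)).trans (le_of_eq ?_)
      simp
    have h2 := E_mono (n + 1)
      (φ := fun ω => rho (θ0 * fs w ω) + rho (θ1 * fs z ω) * F (ω n) -
        2 * (rho (θ0 * fs w ω) * T (ω n)))
      (ψ := fun ω => rho (θ0 * fs (w + (θ0⁻¹ * θ1) • z') ω)) fun ω => by
        have h3 : θ0 * fs (w + (θ0⁻¹ * θ1) • z') ω =
            θ0 * fs w ω + (F (ω n) : ℝ) * (θ1 * fs z ω) := by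
          simp only [map_add, map_smul, Pi.add_apply, Pi.smul_apply, smul_eq_mul, hz1]
          field_simp
        rw [h3]
        by_cases hx : ∀ i, top 0 (ω n (J i)) = 0
        · have h4 : F (ω n) = 0 :=
            Finset.sum_eq_zero fun i _ => by rw [val_eq_zero (hx i), mul_zero]
          have h5 : T (ω n) = 0 := Finset.sum_eq_zero fun i _ => hx i
          simp [h4, h5]
        · push Not at hx
          obtain ⟨i, hi⟩ := hx
          have h4 : 1 ≤ T (ω n) := by
            rw [← (top_cases 0 _).resolve_left hi]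
            exact Finset.single_le_sum (f := fun i => top 0 (ω n (J i))) (fun i _ => hT0 _)
              (Finset.mem_univ i)
          have h5 := rho_le_sub ((F (ω n) : ℝ) * (θ1 * fs z ω))
            (θ0 * fs w ω + (F (ω n) : ℝ) * (θ1 * fs z ω))
          rw [sub_add_cancel_right, rho_neg, rho_real, abs_of_nonneg (hF0 _)] at h5
          nlinarith [rho_nonneg (θ0 * fs w ω)]
    rw [E_sub, E_add, E_mul, ((XX_dep hz).comp fun a => rho (θ1 * a)).E_coord,
      ((XX_dep hw).comp fun a => rho (θ0 * a)).E_coord,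
      ((XX_dep hw).comp fun a => rho (θ0 * a)).E_eq (Nat.le_succ n), hF1, one_mul] at h2
    rw [q_eq (XX_dep hw)] at hq0
    rw [q_eq (XX_dep hz)] at hq1
    rw [q_eq hD]
    have h3 : θ0 * sn (w + (θ0⁻¹ * θ1) • z') = θ0 * sn w + θ1 * sn z := by
      simp only [map_add, map_smul, smul_eq_mul, hz2]
      field_simp
    rw [h3, Complex.add_re]
    have h4 : W n T * E n (fun ω => rho (θ0 * fs w ω)) ≤ m * (1 / (n + 1)) * (2 * ‖w‖) :=
      mul_le_mul hT (by linarith [E_rho_mul_le n h0 (fs w), r_le_norm (XX_dep hw)])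
        (E_nonneg n fun _ => rho_nonneg _) (by positivity)
    have h5 : m * (1 / (n + 1 : ℝ)) * (2 * ‖w‖) ≤ δ / 4 := by
      rw [mul_one_div, div_mul_eq_mul_div, div_le_iff₀ hn0]
      have : 0 ≤ 12 * ‖Φ‖ * ‖z‖ := by positivity
      linarith
    linarith

end Pool.Agent.Lib.MP_67dc8a_an
end

-- part Pool.Agent.Lib.MP_67dc8a_an.Main
section

/-!
The completion of `Y` has the super ADP, is infinite-dimensional and has no Daugavet point.
-/

namespace Pool.Agent.Lib.MP_67dc8a_an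

open UniformSpace Metric Filter Topology

/-- The example. -/
abbrev XC : Type := Completion Y

/-- The second coordinate on `Y`. -/
noncomputable def snL : Y →L[ℂ] ℂ := sn.mkContinuous 1 fun v => by
  rw [one_mul]; exact norm_sn_le v

/-- The second coordinate on the completion. -/
noncomputable def tau : XC →L[ℂ] ℂ := snL.fromCompletion

theorem tau_coe (v : Y) : tau (v : XC) = sn v := snL.fromCompletion_apply_coe v

theorem norm_tau_le (x : XC) : ‖tau x‖ ≤ ‖x‖ := by
  refine Completion.induction_on x (isClosed_le (by fun_prop) (by fun_prop)) fun v => ?_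
  rw [tau_coe, Completion.norm_coe]; exact norm_sn_le v

theorem dentC (x : XC) : ‖x - tau x • (y0 : XC)‖ ≤ 4 * (‖x‖ - ‖tau x‖) := by
  refine Completion.induction_on x (isClosed_le (by fun_prop) (by fun_prop)) fun v => ?_
  rw [tau_coe, ← Completion.coe_smul, ← Completion.coe_sub, Completion.norm_coe,
    Completion.norm_coe]
  exact dent v

theorem exists_close (x : XC) {η : ℝ} (hη : 0 < η) : ∃ v : Y, ‖x - (v : XC)‖ < η := by
  obtain ⟨v, hv⟩ := Completion.denseRange_coe.exists_dist_lt x hη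
  exact ⟨v, by rwa [dist_eq_norm] at hv⟩

theorem weak_nhds {X : Type} [NormedAddCommGroup X] [NormedSpace ℂ X] {U : Set (WeakSpace ℂ X)}
    (hU : IsOpen U) {z : X} (hz : toWeakSpace ℂ X z ∈ U) :
    ∃ (I : Type) (_ : Fintype I) (Φ : X →L[ℂ] EuclideanSpace ℂ I) (δ : ℝ), 0 < δ ∧
      ∀ x : X, ‖Φ x - Φ z‖ < δ → toWeakSpace ℂ X x ∈ U := by
  classical
  obtain ⟨V, hV, rfl⟩ := isOpen_induced_iff.mp hU
  have h1 : V ∈ 𝓝 (fun f : StrongDual ℂ X => f z) := hV.mem_nhds hz
  rw [nhds_pi, Filter.mem_pi] at h1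
  obtain ⟨I, hI, t, ht, hsub⟩ := h1
  have : Fintype I := hI.fintype
  let Φ : X →L[ℂ] EuclideanSpace ℂ I :=
    (EuclideanSpace.equiv I ℂ).symm.toContinuousLinearMap ∘L
      ContinuousLinearMap.pi fun i : I => (i : StrongDual ℂ X)
  have h2 : ∀ᶠ v : EuclideanSpace ℂ I in 𝓝 (Φ z), ∀ i : I, v i ∈ t i := by
    rw [Filter.eventually_all]
    intro i
    have hc : Continuous fun v : EuclideanSpace ℂ I => v i := by fun_prop
    exact hc.continuousAt.eventually_mem (ht i)
  obtain ⟨δ, hδ, h3⟩ := Metric.eventually_nhds_iff.mp h2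
  refine ⟨I, inferInstance, Φ, δ, hδ, fun x hx => hsub fun f hf => ?_⟩
  exact h3 (by rwa [dist_eq_norm]) ⟨f, hf⟩

theorem superADP : SuperADP ℂ XC := by
  rintro x hx W ⟨U, hU, rfl⟩ ⟨z, ⟨-, hzU⟩, hz⟩
  constructor
  · rintro r ⟨y, ⟨hy, -⟩, θ, hθ, rfl⟩
    refine (norm_add_le _ _).trans ?_
    rw [norm_smul, hθ, hx, one_mul]
    linarith [mem_closedBall_zero_iff.mp hy]
  · intro b hb
    refine le_of_forall_pos_le_add fun ε hε => ?_
    obtain ⟨I, _, Φ, δ, hδ, hΦ⟩ := weak_nhds hU hzU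
    set η : ℝ := min (min (ε / 5) (1 / 2)) (δ / (2 * ‖Φ‖ + 2)) with hη
    have hη0 : 0 < η := by positivity
    have hη1 : η ≤ ε / 5 := (min_le_left _ _).trans (min_le_left _ _)
    have hη2 : η ≤ 1 / 2 := (min_le_left _ _).trans (min_le_right _ _)
    have hη3 : η * (2 * ‖Φ‖ + 2) ≤ δ := by
      rw [← le_div_iff₀ (by positivity)]; exact min_le_right _ _
    obtain ⟨w, hw⟩ := exists_close x hη0
    obtain ⟨v, hv⟩ := exists_close (((1 - η : ℝ) : ℂ) • z) hη0
    have hs : ‖((1 - η : ℝ) : ℂ) • z‖ = 1 - η := by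
      rw [norm_smul, hz, mul_one, Complex.norm_real, Real.norm_of_nonneg (by linarith)]
    have hv1 : ‖v‖ ≤ 1 := by
      have := norm_sub_norm_le (v : XC) (((1 - η : ℝ) : ℂ) • z)
      rw [norm_sub_rev, Completion.norm_coe, hs] at this
      linarith
    have hv2 : 1 - 2 * η ≤ ‖v‖ := by
      have := norm_sub_norm_le (((1 - η : ℝ) : ℂ) • z) (v : XC)
      rw [Completion.norm_coe, hs] at this
      linarith
    have hv3 : ‖(v : XC) - z‖ ≤ 2 * η := by
      have h1 : (v : XC) - z = -(((1 - η : ℝ) : ℂ) • z - v) - (η : ℂ) • z := by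
        push_cast; module
      rw [h1]
      refine (norm_sub_le _ _).trans ?_
      rw [norm_neg, norm_smul, hz, mul_one, Complex.norm_real, Real.norm_of_nonneg hη0.le]
      linarith
    have hw1 : 1 - η ≤ ‖w‖ := by
      have := norm_sub_norm_le x (w : XC)
      rw [Completion.norm_coe, hx] at this
      linarith
    obtain ⟨z', h1, h2, θ, hθ, h3⟩ := spike (Φ ∘L Completion.toComplL) w v hη0
    have h4 : ‖Φ z' - Φ z‖ < δ := by
      have h5 : ‖Φ v - Φ z‖ ≤ ‖Φ‖ * (2 * η) := by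
        rw [← map_sub]
        exact (Φ.le_opNorm _).trans (mul_le_mul_of_nonneg_left hv3 (norm_nonneg _))
      have h6 := norm_sub_le_norm_sub_add_norm_sub (Φ z') (Φ v) (Φ z)
      have h7 : ‖Φ z' - Φ v‖ ≤ η := h2
      nlinarith
    have h5 : ‖x + θ • (z' : XC)‖ ≤ b := hb ⟨z', ⟨by
      rw [mem_closedBall_zero_iff, Completion.norm_coe]; linarith, hΦ _ h4⟩, θ, hθ, rfl⟩
    have h6 : ‖w + θ • z'‖ ≤ ‖x + θ • (z' : XC)‖ + ‖x - w‖ := by
      rw [← Completion.norm_coe, Completion.coe_add, Completion.coe_smul]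
      have : (w : XC) + θ • (z' : XC) = (x + θ • (z' : XC)) - (x - w) := by abel
      rw [this]
      exact norm_sub_le _ _
    linarith

theorem two_le_of_daugavet {x : XC} (hx : IsDaugavetPoint ℂ x) {θ : ℂ} (hθ : ‖θ‖ = 1) :
    2 ≤ ‖x + (starRingEnd ℂ) θ • (y0 : XC)‖ := by
  have hθ2 : θ * (starRingEnd ℂ) θ = 1 := by
    rw [Complex.mul_conj, Complex.normSq_eq_norm_sq, hθ]; simp
  have hy : ‖(y0 : XC)‖ = 1 := by rw [Completion.norm_coe, norm_y0]
  have hf1 : (θ • tau) ((starRingEnd ℂ) θ • (y0 : XC)) = 1 := by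
    simp only [smul_apply, map_smul, tau_coe, sn_y0, smul_eq_mul, mul_one]
    rw [mul_comm, hθ2]
  have hf0 : θ • tau ≠ 0 := by
    intro h
    rw [h] at hf1
    simp at hf1
  have hsup : sSup ((fun z => RCLike.re ((θ • tau) z)) '' closedBall (0 : XC) 1) = 1 := by
    refine IsGreatest.csSup_eq ⟨⟨(starRingEnd ℂ) θ • (y0 : XC), ?_, ?_⟩, ?_⟩
    · rw [mem_closedBall_zero_iff, norm_smul, hy, Complex.norm_conj, hθ, one_mul]
    · simp only [hf1, RCLike.one_re]
    · rintro _ ⟨z, hz, rfl⟩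
      refine (RCLike.re_le_norm _).trans ?_
      rw [smul_apply, norm_smul, hθ, one_mul]
      exact (norm_tau_le z).trans (mem_closedBall_zero_iff.mp hz)
  refine le_of_forall_pos_le_add fun ε hε => ?_
  set e := min (ε / 3) 1 with he
  have he0 : 0 < e := by positivity
  have he1 : e ≤ ε / 3 := min_le_left _ _
  have he2 : e ≤ 1 := min_le_right _ _
  refine (hx.2 (θ • tau) hf0 (e ^ 2 / 2) (by positivity)).2 ?_
  rintro _ ⟨z, ⟨hz1, hz2⟩, rfl⟩
  rw [hsup] at hz2
  have hz1' := mem_closedBall_zero_iff.mp hz1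
  have hz3 : 1 - e ^ 2 / 2 < (θ * tau z).re := hz2
  have h1 : ‖θ * tau z‖ = ‖tau z‖ := by rw [norm_mul, hθ, one_mul]
  have h2 : (θ * tau z).re ≤ ‖tau z‖ := h1 ▸ Complex.re_le_norm _
  have h3 : ‖tau z‖ ≤ 1 := (norm_tau_le z).trans hz1'
  have h4 : ‖θ * tau z - 1‖ ≤ e := by
    refine (abs_le_of_sq_le_sq' ?_ he0.le).2
    have h5 : ‖θ * tau z‖ ^ 2 ≤ 1 := by rw [h1]; exact pow_le_one₀ (norm_nonneg _) h3
    rw [Complex.sq_norm, Complex.normSq_apply] at h5 ⊢
    simp only [Complex.sub_re, Complex.one_re, Complex.sub_im, Complex.one_im, sub_zero]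
    nlinarith
  have h5 : ‖(tau z - (starRingEnd ℂ) θ) • (y0 : XC)‖ ≤ e := by
    rw [norm_smul, hy, mul_one]
    have : θ * tau z - 1 = θ * (tau z - (starRingEnd ℂ) θ) := by rw [mul_sub, hθ2]
    rwa [this, norm_mul, hθ, one_mul] at h4
  have h6 := dentC z
  have h7 : x + z = (x + (starRingEnd ℂ) θ • (y0 : XC)) + ((z - tau z • (y0 : XC)) +
      (tau z - (starRingEnd ℂ) θ) • (y0 : XC)) := by module
  have h8 := norm_add_le (z - tau z • (y0 : XC)) ((tau z - (starRingEnd ℂ) θ) • (y0 : XC))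
  have h9 := norm_add_le (x + (starRingEnd ℂ) θ • (y0 : XC)) ((z - tau z • (y0 : XC)) +
      (tau z - (starRingEnd ℂ) θ) • (y0 : XC))
  rw [← h7] at h9
  dsimp only
  nlinarith

theorem not_daugavet (x : XC) : ¬ IsDaugavetPoint ℂ x := by
  intro hx
  obtain ⟨u, hu⟩ := exists_close x (η := 1 / 20) (by norm_num)
  obtain ⟨κ, hκ, hG⟩ := no_disc u
  set η : ℝ := min (κ / 4) (1 / 20) with hη
  have hη0 : 0 < η := by positivity
  have hη1 : η ≤ κ / 4 := min_le_left _ _
  have hη2 : η ≤ 1 / 20 := min_le_right _ _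
  obtain ⟨G, hxG⟩ := exists_close x hη0
  have hG1 : ‖G‖ ≤ 1 + η := by
    have := norm_sub_norm_le (G : XC) x
    rw [norm_sub_rev, Completion.norm_coe, hx.1] at this
    linarith
  obtain ⟨θ, hθ, hq⟩ := hG G (by
    rw [← Completion.norm_coe, Completion.coe_sub]
    have := norm_sub_le_norm_sub_add_norm_sub (G : XC) x u
    rw [norm_sub_rev (G : XC) x] at this
    linarith) (by linarith)
  have h2 := two_le_of_daugavet hx hθ
  set t : ℝ := 1 + 8 / κ with ht
  have ht1 : 1 ≤ t := by rw [ht]; have : 0 < 8 / κ := by positivity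
                         linarith
  have h3 : 1 + t ≤ ‖x + ((t : ℂ) * (starRingEnd ℂ) θ) • (y0 : XC)‖ := by
    have h4 : (t : ℂ) • (x + (starRingEnd ℂ) θ • (y0 : XC)) =
        (x + ((t : ℂ) * (starRingEnd ℂ) θ) • (y0 : XC)) + ((t - 1 : ℝ) : ℂ) • x := by
      push_cast; module
    have h5 := norm_add_le (x + ((t : ℂ) * (starRingEnd ℂ) θ) • (y0 : XC)) (((t - 1 : ℝ) : ℂ) • x)
    rw [← h4, norm_smul, norm_smul, hx.1, Complex.norm_real, Complex.norm_real,
      Real.norm_of_nonneg (by linarith), Real.norm_of_nonneg (by linarith)] at h5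
    nlinarith
  have h4 := norm_add_y0_le hθ (t := t) (by linarith) G
  have h5 : ‖x + ((t : ℂ) * (starRingEnd ℂ) θ) • (y0 : XC)‖ ≤
      ‖G + ((t : ℂ) * (starRingEnd ℂ) θ) • y0‖ + ‖x - G‖ := by
    rw [← Completion.norm_coe (G + _), Completion.coe_add, Completion.coe_smul]
    have : x + ((t : ℂ) * (starRingEnd ℂ) θ) • (y0 : XC) =
        ((G : XC) + ((t : ℂ) * (starRingEnd ℂ) θ) • (y0 : XC)) + (x - G) := by abel
    rw [this]
    exact norm_add_le _ _
  have h6 : ‖G‖ ^ 2 / (2 * t) ≤ κ / 4 := by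
    rw [div_le_iff₀ (by linarith)]
    have h7 : κ / 4 * (2 * t) = κ / 2 + 4 := by rw [ht]; field_simp; ring
    rw [h7]
    nlinarith [norm_nonneg G]
  linarith

theorem val_mem (n : ℕ) :
    (fun ω : Om => ((val (ω n ⟨0, NN_pos n⟩) : ℝ) : ℂ)) ∈ XX (n + 1) := by
  have := mul_mem_XX (one_mem_XX n) (Pi.single ⟨0, NN_pos n⟩ 1)
  simpa [Pi.single_apply] using this

theorem sep {n m : ℕ} (h : n < m) : 1 / 2 ≤ ‖mk _ (val_mem n) - mk _ (val_mem m)‖ := by
  have hD : fs (mk _ (val_mem n) - mk _ (val_mem m)) ∈ XX (m + 1) := by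
    rw [map_sub]
    exact sub_mem (XX_mono (by omega) (val_mem n)) (val_mem m)
  refine le_trans ?_ (r_le_norm (XX_dep hD))
  have h1 : Dep m (fun ω : Om => val (ω n ⟨0, NN_pos n⟩)) :=
    (dep_coord n fun ξ => val (ξ ⟨0, NN_pos n⟩)).mono h
  have h2 : E m (fun ω : Om => val (ω n ⟨0, NN_pos n⟩)) = 1 := by
    rw [(dep_coord n fun ξ => val (ξ ⟨0, NN_pos n⟩)).E_eq h, E_succ]
    simp only [Function.update_self, W_val, E_const]
  have h3 := E_mono (m + 1)
    (φ := fun ω : Om => val (ω n ⟨0, NN_pos n⟩) - val (ω n ⟨0, NN_pos n⟩) *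
      top 0 (ω m ⟨0, NN_pos m⟩))
    (ψ := fun ω => rho (fs (mk _ (val_mem n) - mk _ (val_mem m)) ω)) fun ω => by
      rcases top_cases 0 (ω m ⟨0, NN_pos m⟩) with h0 | h0
      · simp [h0, val_eq_zero h0, rho, le_abs_self]
      · simp [h0, rho_nonneg]
  rw [E_sub, h1.E_eq (Nat.le_succ m), h1.E_coord (fun ξ => top 0 (ξ ⟨0, NN_pos m⟩)), h2] at h3
  have h4 := W_top m ⟨0, NN_pos m⟩
  have h5 : (1 : ℝ) / (m + 1) ≤ 1 / 2 := by
    refine one_div_le_one_div_of_le (by norm_num) ?_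
    have : (1 : ℝ) ≤ m := by exact_mod_cast (by omega : 1 ≤ m)
    linarith
  linarith

theorem not_finiteDimensional : ¬ FiniteDimensional ℂ XC := by
  intro hfin
  have : ProperSpace XC := FiniteDimensional.proper ℂ XC
  let s : ℕ → XC := fun n => (mk _ (val_mem n) : Y)
  have hs : ∀ n, s n ∈ closedBall (0 : XC) (2 * ‖mk _ (one_mem_XX 0)‖) := by
    intro n
    rw [mem_closedBall_zero_iff, Completion.norm_coe]
    have := norm_mul_le (z := mk _ (one_mem_XX 0)) (n := n) (fun _ _ _ _ => rfl)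
      (fun ξ => val (ξ ⟨0, NN_pos n⟩)) (v := mk _ (val_mem n)) (fun ω => by simp) rfl
    simpa only [abs_of_nonneg (val_nonneg _), W_val, one_mul] using this
  obtain ⟨a, -, φ, hφ, hlim⟩ := (isCompact_closedBall _ _).tendsto_subseq hs
  obtain ⟨N, hN⟩ := Metric.cauchySeq_iff'.mp hlim.cauchySeq (1 / 2) (by norm_num)
  have h1 := hN (N + 1) (Nat.le_succ N)
  have h2 := sep (hφ (Nat.lt_succ_self N))
  rw [dist_comm, dist_eq_norm] at h1
  simp only [Function.comp, s] at h1
  rw [← Completion.coe_sub, Completion.norm_coe] at h1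
  linarith

end Pool.Agent.Lib.MP_67dc8a_an
end

-- part Pool.Agent.Lib.MP_67dc8a_an.RSign
section

/-!
Real example, part 4: functionals that force the signs of the witnessing functionals.
-/

namespace Pool.Agent.Lib.MP_67dc8a_an.R

open Finset

/-- The bit of a node at a given level. -/
def bitAt : List Bool → ℕ → Bool
  | [], _ => false
  | b :: s, τ => if τ = s.length then b else bitAt s τ

/-- The sign of a bit. -/
def sg (b : Bool) : ℝ := if b then 1 else -1

theorem abs_sg (b : Bool) : |sg b| = 1 := by cases b <;> simp [sg]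

theorem ph_sign {τ : ℕ} (s : List Bool) (h : τ < s.length) :
    1 / 3 ≤ sg (bitAt s τ) * ph τ (Sum.inl s) := by
  induction s with
  | nil => simp at h
  | cons b s ih =>
    have h' : τ ≤ s.length := by simpa [Nat.lt_succ_iff] using h
    rw [ph_cons b h']
    rcases h'.eq_or_lt with h1 | h1
    · have h2 : |ph τ (Sum.inl s)| ≤ 1 / 3 := by
        rw [ph_eq (by simp [st, h1]), abs_mul, abs_of_pos (by norm_num : (0 : ℝ) < 1 / 3)]
        have := (psi_spec (τ := τ) fun g _ => om_nonneg none g).1.2 (Sum.inl s) (by simp [st, h1])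
        rw [om_none_inl] at this
        linarith
      obtain ⟨h3, h4⟩ := abs_le.mp h2
      cases b <;> simp only [bitAt, bit, sg, h1, if_true] <;> simp <;> rw [← h1] <;> linarith
    · have hne : τ ≠ s.length := h1.ne
      simpa [bitAt, bit, hne, hne.symm] using ih h1

/-- The branch with given bits. -/
def node (β : ℕ → Bool) : ℕ → List Bool
  | 0 => []
  | k + 1 => β k :: node β k

theorem length_node (β : ℕ → Bool) (k : ℕ) : (node β k).length = k := by
  induction k with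
  | zero => rfl
  | succ k ih => simp [node, ih]

theorem bitAt_node (β : ℕ → Bool) {k τ : ℕ} (h : τ < k) : bitAt (node β k) τ = β τ := by
  induction k with
  | zero => omega
  | succ k ih =>
    simp only [node, bitAt, length_node]
    split_ifs with h1
    · rw [h1]
    · exact ih (by omega)

/-- The node follows the branch up to level `T`. -/
def On (β : ℕ → Bool) (T : ℕ) (s : List Bool) : Prop :=
  ∀ τ < s.length, τ < T → bitAt s τ = β τ

theorem on_cons (β : ℕ → Bool) (T : ℕ) (b : Bool) (s : List Bool) :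
    On β T (b :: s) ↔ On β T s ∧ (s.length < T → b = β s.length) := by
  constructor
  · intro h
    refine ⟨fun τ h1 h2 => ?_, fun h1 => ?_⟩
    · simpa [bitAt, h1.ne] using h τ (by simp; omega) h2
    · simpa [bitAt] using h s.length (by simp) h1
  · rintro ⟨h1, h2⟩ τ h3 h4
    simp only [bitAt]
    split_ifs with h5
    · rw [h5] at h4 ⊢; exact h2 h4
    · exact h1 τ (by simp at h3; omega) h4

open Classical in
/-- Values on the tree of the functional attached to a branch. -/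
noncomputable def gt (β : ℕ → Bool) (T : ℕ) (s : List Bool) : ℝ :=
  if On β T s then 2 ^ min s.length T / 2 ^ T else 0

theorem gt_rel (β : ℕ → Bool) (T : ℕ) (s : List Bool) :
    gt β T (true :: s) + gt β T (false :: s) = 2 * gt β T s := by
  have ht := on_cons β T true s
  have hf := on_cons β T false s
  simp only [gt, List.length_cons]
  by_cases h : On β T s
  · rcases lt_or_ge s.length T with h1 | h1
    · rw [min_eq_left (by omega), min_eq_left h1.le, if_pos h]
      rcases hb : β s.length with _ | _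
      · rw [if_neg (by simp [ht, h1, hb]), if_pos (by simp [hf, h, hb])]; ring
      · rw [if_pos (by simp [ht, h, hb]), if_neg (by simp [hf, h1, hb])]; ring
    · rw [min_eq_right (by omega), min_eq_right h1, if_pos h, if_pos (ht.mpr ⟨h, by omega⟩),
        if_pos (hf.mpr ⟨h, by omega⟩)]
      ring
  · rw [if_neg h, if_neg fun h' => h (ht.mp h').1, if_neg fun h' => h (hf.mp h').1]
    ring

theorem gt_cases (β : ℕ → Bool) (T : ℕ) (s : List Bool) :
    (0 ≤ gt β T s ∧ gt β T s ≤ 1 / 2) ∨ (gt β T s = 1 ∧ T ≤ s.length ∧ On β T s) := by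
  unfold gt
  split_ifs with h
  · rcases lt_or_ge s.length T with h1 | h1
    · left
      refine ⟨by positivity, ?_⟩
      rw [min_eq_left h1.le, div_le_iff₀ (by positivity)]
      have := pow_le_pow_right₀ (by norm_num : (1 : ℝ) ≤ 2) (Nat.succ_le_of_lt h1)
      rw [pow_succ] at this
      linarith
    · right
      exact ⟨by rw [min_eq_right h1, div_self (by positivity)], h1, h⟩
  · left; norm_num

/-- Increments of the functional attached to a branch. -/
noncomputable def ginc (β : ℕ → Bool) (T : ℕ) : G → ℝ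
  | Sum.inl [] => gt β T []
  | Sum.inl (b :: s) => gt β T (b :: s) - gt β T s
  | Sum.inr _ => 0

/-- The functional attached to a branch. -/
noncomputable def gf (β : ℕ → Bool) (T : ℕ) : G → ℝ := build (ginc β T)

theorem gf_inl (β : ℕ → Bool) (T : ℕ) (s : List Bool) : gf β T (Sum.inl s) = gt β T s := by
  induction s with
  | nil => rw [gf, build_eq]; simp [ginc, par]
  | cons b s ih =>
    rw [gf, build_eq]
    rw [gf] at ih
    simp [ginc, par, ih]

theorem gf_rel (β : ℕ → Bool) (T n : ℕ) : Zs n (dif (gf β T)) := by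
  rw [gf, dif_build]
  refine ⟨fun s _ => ?_, fun k _ => by simp [ginc]⟩
  simp only [ginc]
  linarith [gt_rel β T s]

theorem gf_dif (β : ℕ → Bool) (T : ℕ) (p : ℕ × ℕ) : dif (gf β T) (Sum.inr p) = 0 := by
  rw [gf, dif_build]; rfl

theorem gf_node (β : ℕ → Bool) (T : ℕ) : gf β T (Sum.inl (node β T)) = 1 := by
  have h : On β T (node β T) := fun τ _ h => bitAt_node β h
  rw [gf_inl, gt, if_pos h, length_node, min_self, div_self (by positivity)]

theorem abs_gf_le (β : ℕ → Bool) (T : ℕ) (x : G →₀ ℝ) : |ev (gf β T) x| ≤ S (om none) x := by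
  have h := bound_of_default (om_cons none) one_pos (gf_rel β T (lvl x)) (by
    rintro (s | p) _
    · left
      rw [gf_inl, om_none_inl, abs_le]
      rcases gt_cases β T s with h | h <;> constructor <;> linarith [h.1, h.2]
    · exact Or.inr (gf_dif β T p))
  exact Adm.abs_le ⟨gf_rel β T _, fun g hg => by simpa using h g hg⟩ (lv_lvl x)

theorem sign_force (β : ℕ → Bool) {T τ : ℕ} (hτ : τ < T) (x : G →₀ ℝ) :
    8 / 3 * ev (gf β T) x - 7 / 3 * S (om none) x ≤ sg (β τ) * ev (ph τ) x := by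
  have h1 := bound_of_default (om_cons none) (by norm_num : (0 : ℝ) < 1 / 2) (gf_rel β T τ) (by
    rintro (s | p) hs
    · left
      rw [gf_inl, om_none_inl, abs_le]
      rcases gt_cases β T s with h | h
      · constructor <;> linarith [h.1, h.2]
      · have : s.length ≤ τ := hs
        omega
    · exact Or.inr (gf_dif β T p))
  have hz := (gf_rel β T (lvl x)).comb (ph_rel τ (lvl x)) (8 / 3) (-sg (β τ))
  have hb : ∀ g, |sg (β τ) * ph τ g| ≤ om none g := fun g => by
    rw [abs_mul, abs_sg, one_mul]; exact ph_le τ g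
  have h2 := bound_of_default (om_cons none) (by norm_num : (0 : ℝ) < 7 / 3) hz (by
    rintro (s | ⟨k, m⟩) _
    · left
      obtain ⟨h3, h4⟩ := abs_le.mp (hb (Sum.inl s))
      rw [om_none_inl] at h3 h4
      rw [gf_inl, om_none_inl, abs_le]
      rcases gt_cases β T s with h | ⟨h5, h6, h7⟩
      · constructor <;> linarith [h.1, h.2]
      · have h8 := ph_sign s (hτ.trans_le h6)
        rw [h7 τ (hτ.trans_le h6) hτ] at h8
        constructor <;> linarith
    · rcases lt_or_ge k τ with h | h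
      · left
        obtain ⟨h3, h4⟩ := abs_le.mp (hb (Sum.inr (k, m)))
        obtain ⟨h5, h6⟩ := abs_le.mp (h1 (Sum.inr (k, m)) h)
        rw [abs_le]
        constructor <;> linarith
      · right
        have h3 := gf_dif β T (k, m)
        simp only [dif, ev_comb, par, ph_inr h] at h3 ⊢
        linarith)
  have h3 := abs_ev_le (by norm_num : (0 : ℝ) < 7 / 3) hz h2 (lv_lvl x)
  rw [ev_comb] at h3
  have h4 := (le_abs_self _).trans h3
  unfold S
  linarith

theorem N_tree (s : List Bool) : N (Finsupp.single (Sum.inl s) 1) ≤ 101 / 100 := by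
  have h0 := S_single none (Sum.inl s)
  rw [om_none_inl] at h0
  refine N_le fun τ => ?_
  have h1 : Tt τ (Finsupp.single (Sum.inl s) 1) ≤ 0 :=
    Finset.sum_nonpos fun σ _ => (S_single _ _).trans (om_some_inl _ _).le
  have h2 := mul_le_mul (eta_le τ) ((abs_ph_le τ _).trans h0) (abs_nonneg _) (by norm_num)
  unfold term
  linarith

theorem tree_sep {k j : ℕ} (h : k < j) :
    2 / 3 ≤ N (Finsupp.single (Sum.inl (node (fun i => decide (i = k)) (k + 1))) 1 -
      Finsupp.single (Sum.inl (node (fun i => decide (i = j)) (j + 1))) 1) := by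
  refine le_trans ?_ ((abs_ph_le k _).trans (S_le_N _))
  have h1 := ph_sign (τ := k) (node (fun i => decide (i = k)) (k + 1)) (by simp [length_node])
  have h2 := ph_sign (τ := k) (node (fun i => decide (i = j)) (j + 1))
    (by rw [length_node]; omega)
  rw [bitAt_node _ (by omega)] at h1 h2
  simp only [sg, decide_true, if_true, h.ne, decide_false] at h1 h2
  rw [map_sub, ev_single, ev_single]
  refine le_trans ?_ (le_abs_self _)
  simp only [Bool.false_eq_true, if_false] at h2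
  linarith

end Pool.Agent.Lib.MP_67dc8a_an.R
end

-- part Pool.Agent.Lib.MP_67dc8a_an.RMain
section

/-!
Real example, part 5: the completion has the super ADP, is infinite-dimensional and has no
Daugavet point.
-/

namespace Pool.Agent.Lib.MP_67dc8a_an.R

open UniformSpace Metric Filter Topology

/-- Finitely supported vectors with the seminorm `N`. -/
def Y : Type := G →₀ ℝ

noncomputable instance : AddCommGroup Y := inferInstanceAs (AddCommGroup (G →₀ ℝ))
noncomputable instance : Module ℝ Y := inferInstanceAs (Module ℝ (G →₀ ℝ))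

/-- The norm as a seminorm. -/
noncomputable def SN : Seminorm ℝ Y := Seminorm.ofSMulLE (fun v : Y => N v) N_zero
  (fun v w => N_add v w) (fun c v => N_smul c v)

noncomputable instance : SeminormedAddCommGroup Y := SN.toAddGroupSeminorm.toSeminormedAddCommGroup

noncomputable instance : NormedSpace ℝ Y where
  norm_smul_le c v := (map_smul_eq_mul SN c v).le

/-- The identity map to `Y`. -/
noncomputable def mkY : (G →₀ ℝ) →ₗ[ℝ] Y := (LinearMap.id : (G →₀ ℝ) →ₗ[ℝ] (G →₀ ℝ))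

theorem norm_mkY (x : G →₀ ℝ) : ‖mkY x‖ = N x := rfl

/-- The example. -/
abbrev XR : Type := Completion Y

/-- The map to the completion. -/
noncomputable def io : (G →₀ ℝ) →ₗ[ℝ] XR :=
  (Completion.toComplL : Y →L[ℝ] XR).toLinearMap ∘ₗ mkY

theorem norm_io (x : G →₀ ℝ) : ‖io x‖ = N x := Completion.norm_coe (mkY x)

theorem exists_rat (x : G →₀ ℝ) : ∀ ε : ℝ, 0 < ε → ∃ y : G →₀ ℚ, ‖io x - io (cst y)‖ ≤ ε := by
  induction x using Finsupp.induction_linear with
  | zero => exact fun ε hε => ⟨0, by simp [cst, hε.le]⟩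
  | add f g hf hg =>
    intro ε hε
    obtain ⟨y, hy⟩ := hf (ε / 2) (by positivity)
    obtain ⟨y', hy'⟩ := hg (ε / 2) (by positivity)
    refine ⟨y + y', ?_⟩
    have h1 : cst (y + y') = cst y + cst y' := by ext a; simp [cst]
    rw [h1, map_add, map_add, add_sub_add_comm]
    linarith [norm_add_le (io f - io (cst y)) (io g - io (cst y'))]
  | single g r =>
    intro ε hε
    obtain ⟨q, hq⟩ := exists_rat_near r
      (show 0 < ε / (‖io (Finsupp.single g 1)‖ + 1) by positivity)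
    refine ⟨Finsupp.single g q, ?_⟩
    have h1 : cst (Finsupp.single g q) = (q : ℝ) • Finsupp.single g 1 := by simp [cst]
    have h2 : Finsupp.single g r = r • Finsupp.single g (1 : ℝ) := by simp
    rw [h1, h2, map_smul, map_smul, ← sub_smul, norm_smul, Real.norm_eq_abs]
    rw [lt_div_iff₀ (by positivity)] at hq
    nlinarith [abs_nonneg (r - q)]

theorem exists_close (x : XR) {η : ℝ} (hη : 0 < η) : ∃ y : G →₀ ℚ, ‖x - io (cst y)‖ < η := by
  obtain ⟨v, hv⟩ := Completion.denseRange_coe.exists_dist_lt x (half_pos hη)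
  obtain ⟨y, hy⟩ := exists_rat v _ (half_pos hη)
  rw [dist_eq_norm] at hv
  have h1 : ‖x - io v‖ < η / 2 := hv
  exact ⟨y, by linarith [norm_sub_le_norm_sub_add_norm_sub x (io v) (io (cst y))]⟩

/-- Empirical approximation of a mean in a Hilbert space. -/
theorem maurey {H κ : Type} [NormedAddCommGroup H] [InnerProductSpace ℝ H] [Fintype κ]
    [Nonempty κ] (c : κ → H) (hc : ∑ k, c k = 0) {C : ℝ} (hC : ∀ k, ‖c k‖ ≤ C) (m : ℕ) :
    ∃ J : Fin m → κ, ‖∑ i, c (J i)‖ ^ 2 ≤ m * C ^ 2 := by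
  induction m with
  | zero => exact ⟨Fin.elim0, by simp⟩
  | succ m ih =>
    obtain ⟨J, hJ⟩ := ih
    set S := ∑ i, c (J i) with hS
    have h0 : ∑ k, inner ℝ S (c k) = 0 := by
      rw [← inner_sum, hc, inner_zero_right]
    obtain ⟨k, -, hk⟩ : ∃ k ∈ (Finset.univ : Finset κ), inner ℝ S (c k) ≤ 0 := by
      by_contra hcon
      push Not at hcon
      exact (Finset.sum_pos hcon Finset.univ_nonempty).ne' h0
    refine ⟨Fin.cons k J, ?_⟩
    rw [Fin.sum_univ_succ]
    simp only [Fin.cons_zero, Fin.cons_succ, ← hS]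
    rw [add_comm, norm_add_sq_real]
    have h2 : ‖c k‖ ^ 2 ≤ C ^ 2 := pow_le_pow_left₀ (norm_nonneg _) (hC k) 2
    push_cast
    linarith

theorem spike {H : Type} [NormedAddCommGroup H] [InnerProductSpace ℝ H] (Φ : XR →L[ℝ] H)
    (w : G →₀ ℝ) (y : G →₀ ℚ) {δ : ℝ} (hδ : 0 < δ) : ∃ z' : G →₀ ℝ, N z' ≤ N (cst y) + δ ∧
      ‖Φ (io z') - Φ (io (cst y))‖ ≤ δ ∧ ∃ θ : ℝ, |θ| = 1 ∧ N w + N (cst y) - δ ≤ N (w + θ • z') := by
  have ha : 0 ≤ N w := (S_nonneg _ _).trans (S_le_N w)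
  have hb : 0 ≤ N (cst y) := (S_nonneg _ _).trans (S_le_N _)
  obtain ⟨τ0, hτ0⟩ : ∃ τ0, N w - δ / 3 < term τ0 w :=
    exists_lt_of_lt_ciSup (f := fun τ => term τ w) (by change _ < N w; linarith)
  set C := ‖Φ‖ * (3 * N (cst y)) with hC
  obtain ⟨k, hk⟩ := exists_nat_gt (C ^ 2 / δ ^ 2)
  have hk0 : (0 : ℝ) < k := lt_of_le_of_lt (by positivity) hk
  obtain ⟨n0, hn0⟩ := exists_eta_lt (show 0 < δ / 3 / (N (cst y) + 1) by positivity)
  obtain ⟨n1, hn1⟩ := exists_nat_gt (4 * k + 12 * k * (N w + N (cst y)) / δ)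
  obtain ⟨n, hn, hz, hr⟩ := exists_zz y τ0 (max (max (lvl w) (τ0 + 1)) (max n0 n1))
  simp only [max_le_iff] at hn
  obtain ⟨⟨h1, h2⟩, h3, h4⟩ := hn
  have h5 : eta n * S (om none) (cst y) ≤ δ / 3 := by
    rw [lt_div_iff₀ (by positivity)] at hn0
    have := mul_le_mul (eta_anti h3) (S_le_N (cst y)) (S_nonneg _ _) (eta_pos _).le
    nlinarith [eta_pos n0]
  have h6 : eta n * S (om none) (cst y) ≤ N (cst y) := by
    have := mul_le_mul (eta_le n) (S_le_N (cst y)) (S_nonneg _ _) (by norm_num)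
    linarith
  have hn' : (4 * k + 12 * k * (N w + N (cst y)) / δ) ≤ n + 1 := by
    have : (n1 : ℝ) ≤ n := by exact_mod_cast h4
    linarith
  have hpos : (0 : ℝ) < n + 1 := by positivity
  have h7 : 0 ≤ 12 * k * (N w + N (cst y)) / δ := by positivity
  have hξ : 2 * (k : ℝ) / (n + 1) ≤ 1 / 2 := by
    rw [div_le_iff₀ hpos]; linarith
  have hξ2 : 2 * (2 * (k : ℝ) / (n + 1)) * (N w + N (cst y)) ≤ δ / 3 := by
    have h8 : 12 * k * (N w + N (cst y)) / δ ≤ n + 1 := by linarith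
    rw [div_le_iff₀ hδ] at h8
    rw [mul_div_assoc', div_mul_eq_mul_div, div_le_iff₀ hpos]
    linarith
  have hc : ∀ m, ‖io (cc n m)‖ ≤ N (cst y) + eta n * S (om none) (cst y) := fun m => by
    rw [norm_io, ← hz]; exact N_child n m
  obtain ⟨J, hJ⟩ := maurey (fun m : Fin (n + 1) => Φ (io (cc n m - zz n))) (C := C) (by
      rw [← map_sum, ← map_sum, norm_le_zero_iff.mp ((norm_io _).le.trans (N_rel n)), map_zero])
    (fun m => (Φ.le_opNorm _).trans (mul_le_mul_of_nonneg_left (by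
      rw [map_sub]
      refine (norm_sub_le _ _).trans ?_
      rw [norm_io (zz n), hz]
      linarith [hc m]) (norm_nonneg _))) k
  refine ⟨(k : ℝ)⁻¹ • ∑ l, cc n (J l), ?_, ?_, ?_⟩
  · rw [← norm_io, map_smul, map_sum, norm_smul, norm_inv, Real.norm_natCast, inv_mul_le_iff₀ hk0]
    refine (norm_sum_le _ _).trans ((Finset.sum_le_sum fun l _ => hc (J l)).trans ?_)
    simp only [Finset.sum_const, Finset.card_univ, Fintype.card_fin, nsmul_eq_mul]
    exact mul_le_mul_of_nonneg_left (by linarith) hk0.le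
  · have h8 : Φ (io ((k : ℝ)⁻¹ • ∑ l, cc n (J l))) - Φ (io (cst y)) =
        (k : ℝ)⁻¹ • ∑ l, Φ (io (cc n (J l) - zz n)) := by
      rw [← map_sum, ← map_sum, ← map_smul, ← map_smul, ← map_sub, ← map_sub]
      congr 2
      rw [Finset.sum_sub_distrib, Finset.sum_const, Finset.card_univ, Fintype.card_fin,
        ← Nat.cast_smul_eq_nsmul ℝ, smul_sub, smul_smul, inv_mul_cancel₀ hk0.ne', one_smul, hz]
    rw [h8, norm_smul, norm_inv, Real.norm_natCast, inv_mul_le_iff₀ hk0]
    refine (abs_le_of_sq_le_sq' (hJ.trans ?_) (by positivity)).2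
    rw [div_lt_iff₀ (by positivity)] at hk
    nlinarith
  · obtain ⟨θ, hθ, h8⟩ := N_low ((lv_lvl w).mono h1) (by omega) (by exact_mod_cast hk0) J hξ
    refine ⟨θ, hθ, le_trans ?_ h8⟩
    rw [hr, hz]
    have h9 : term τ0 w + N (cst y) - eta n * S (om none) (cst y) ≤ N w + N (cst y) := by
      linarith [term_le_N τ0 w, mul_nonneg (eta_pos n).le (S_nonneg none (cst y))]
    have h10 := mul_le_mul_of_nonneg_left h9
      (show 0 ≤ 2 * (2 * (k : ℝ) / (n + 1)) by positivity)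
    nlinarith

theorem weak_nhds {X : Type} [NormedAddCommGroup X] [NormedSpace ℝ X] {U : Set (WeakSpace ℝ X)}
    (hU : IsOpen U) {z : X} (hz : toWeakSpace ℝ X z ∈ U) :
    ∃ (I : Type) (_ : Fintype I) (Φ : X →L[ℝ] EuclideanSpace ℝ I) (δ : ℝ), 0 < δ ∧
      ∀ x : X, ‖Φ x - Φ z‖ < δ → toWeakSpace ℝ X x ∈ U := by
  classical
  obtain ⟨V, hV, rfl⟩ := isOpen_induced_iff.mp hU
  have h1 : V ∈ 𝓝 (fun f : StrongDual ℝ X => f z) := hV.mem_nhds hz
  rw [nhds_pi, Filter.mem_pi] at h1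
  obtain ⟨I, hI, t, ht, hsub⟩ := h1
  have : Fintype I := hI.fintype
  let Φ : X →L[ℝ] EuclideanSpace ℝ I :=
    (EuclideanSpace.equiv I ℝ).symm.toContinuousLinearMap ∘L
      ContinuousLinearMap.pi fun i : I => (i : StrongDual ℝ X)
  have h2 : ∀ᶠ v : EuclideanSpace ℝ I in 𝓝 (Φ z), ∀ i : I, v i ∈ t i := by
    rw [Filter.eventually_all]
    intro i
    have hc : Continuous fun v : EuclideanSpace ℝ I => v i := by fun_prop
    exact hc.continuousAt.eventually_mem (ht i)
  obtain ⟨δ, hδ, h3⟩ := Metric.eventually_nhds_iff.mp h2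
  refine ⟨I, inferInstance, Φ, δ, hδ, fun x hx => hsub fun f hf => ?_⟩
  exact h3 (by rwa [dist_eq_norm]) ⟨f, hf⟩

theorem superADP : SuperADP ℝ XR := by
  rintro x hx W ⟨U, hU, rfl⟩ ⟨z, ⟨-, hzU⟩, hz⟩
  constructor
  · rintro r ⟨y, ⟨hy, -⟩, θ, hθ, rfl⟩
    refine (norm_add_le _ _).trans ?_
    rw [norm_smul, hθ, hx, one_mul]
    linarith [mem_closedBall_zero_iff.mp hy]
  · intro b hb
    refine le_of_forall_pos_le_add fun ε hε => ?_
    obtain ⟨I, _, Φ, δ, hδ, hΦ⟩ := weak_nhds hU hzU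
    set η : ℝ := min (min (ε / 6) (1 / 2)) (δ / (3 * ‖Φ‖ + 2)) with hη
    have hη0 : 0 < η := by positivity
    have hη1 : η ≤ ε / 6 := (min_le_left _ _).trans (min_le_left _ _)
    have hη2 : η ≤ 1 / 2 := (min_le_left _ _).trans (min_le_right _ _)
    have hη3 : η * (3 * ‖Φ‖ + 2) ≤ δ := by
      rw [← le_div_iff₀ (by positivity)]; exact min_le_right _ _
    obtain ⟨w, hw⟩ := exists_close x hη0
    obtain ⟨v, hv⟩ := exists_close ((1 - 2 * η) • z) hη0
    have hs : ‖(1 - 2 * η) • z‖ = 1 - 2 * η := by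
      rw [norm_smul, hz, mul_one, Real.norm_of_nonneg (by linarith)]
    have hv1 : N (cst v) ≤ 1 - η := by
      have := norm_sub_norm_le (io (cst v)) ((1 - 2 * η) • z)
      rw [norm_sub_rev, norm_io, hs] at this
      linarith
    have hv2 : 1 - 3 * η ≤ N (cst v) := by
      have := norm_sub_norm_le ((1 - 2 * η) • z) (io (cst v))
      rw [norm_io, hs] at this
      linarith
    have hv3 : ‖io (cst v) - z‖ ≤ 3 * η := by
      have h1 : io (cst v) - z = -((1 - 2 * η) • z - io (cst v)) - (2 * η) • z := by module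
      rw [h1]
      refine (norm_sub_le _ _).trans ?_
      rw [norm_neg, norm_smul, hz, mul_one, Real.norm_of_nonneg (by linarith)]
      linarith
    have hw1 : 1 - η ≤ N (cst w) := by
      have := norm_sub_norm_le x (io (cst w))
      rw [norm_io, hx] at this
      linarith
    obtain ⟨z', h1, h2, θ, hθ, h3⟩ := spike Φ (cst w) v hη0
    have h4 : ‖Φ (io z') - Φ z‖ < δ := by
      have h5 : ‖Φ (io (cst v)) - Φ z‖ ≤ ‖Φ‖ * (3 * η) := by
        rw [← map_sub]
        exact (Φ.le_opNorm _).trans (mul_le_mul_of_nonneg_left hv3 (norm_nonneg _))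
      have h6 := norm_sub_le_norm_sub_add_norm_sub (Φ (io z')) (Φ (io (cst v))) (Φ z)
      nlinarith
    have h5 : ‖x + θ • io z'‖ ≤ b := hb ⟨io z', ⟨by
      rw [mem_closedBall_zero_iff, norm_io]; linarith, hΦ _ h4⟩, θ, hθ, rfl⟩
    have h6 : N (cst w + θ • z') ≤ ‖x + θ • io z'‖ + ‖x - io (cst w)‖ := by
      rw [← norm_io, map_add, map_smul]
      have : io (cst w) + θ • io z' = (x + θ • io z') - (x - io (cst w)) := by abel
      rw [this]
      exact norm_sub_le _ _
    linarith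

/-- The functional attached to a branch on `Y`. -/
noncomputable def gY (β : ℕ → Bool) (T : ℕ) : Y →L[ℝ] ℝ :=
  LinearMap.mkContinuous (ev (gf β T) : (G →₀ ℝ) →ₗ[ℝ] ℝ) 1 fun v => by
    rw [one_mul]; exact (abs_gf_le β T v).trans (S_le_N v)

/-- The functional attached to a branch on the completion. -/
noncomputable def gX (β : ℕ → Bool) (T : ℕ) : XR →L[ℝ] ℝ := (gY β T).fromCompletion

theorem gX_io (β : ℕ → Bool) (T : ℕ) (v : G →₀ ℝ) : gX β T (io v) = ev (gf β T) v :=
  (gY β T).fromCompletion_apply_coe (mkY v)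

theorem abs_gX_le (β : ℕ → Bool) (T : ℕ) (x : XR) : |gX β T x| ≤ ‖x‖ := by
  refine Completion.induction_on x (isClosed_le (by fun_prop) (by fun_prop)) fun v => ?_
  change |gX β T (io v)| ≤ ‖io v‖
  rw [gX_io, norm_io]
  exact (abs_gf_le β T v).trans (S_le_N v)

theorem not_daugavet (x : XR) : ¬ IsDaugavetPoint ℝ x := by
  intro hx
  obtain ⟨u, hu⟩ := exists_close x (η := 1 / 100) (by norm_num)
  obtain ⟨n, -, hz, -⟩ := exists_zz u 0 0
  have hn := eta_pos n
  obtain ⟨T, hT⟩ := exists_eta_lt (show 0 < eta n / 80 by positivity)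
  have hT0 := eta_pos T
  have hT1 := eta_le T
  obtain ⟨a, ha⟩ := exists_close x (show 0 < eta T / 20 by positivity)
  have ha1 : N (cst a) ≤ 1 + eta T / 20 := by
    have := norm_sub_norm_le (io (cst a)) x
    rw [norm_sub_rev, norm_io, hx.1] at this
    linarith
  have hu1 : 99 / 100 ≤ N (cst u) := by
    have := norm_sub_norm_le x (io (cst u))
    rw [norm_io, hx.1] at this
    linarith
  have hau : N (cst a - cst u) ≤ 2 / 100 := by
    rw [← norm_io, map_sub]
    have := norm_sub_le_norm_sub_add_norm_sub (io (cst a)) x (io (cst u))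
    rw [norm_sub_rev (io (cst a)) x] at this
    linarith
  have hgap : S (om none) (cst a) + Ti (cst a) + eta n / 20 ≤ N (cst a) := by
    have h1 := N_gap n (cst a)
    rw [hz] at h1
    have h2 : 1 / 20 ≤ S (om none) (cst u) / 6 - 3 * S (om none) (cst a - cst u) := by
      linarith [N_le_S (cst u), S_le_N (cst a - cst u)]
    linarith [mul_le_mul_of_nonneg_left h2 hn.le]
  classical
  let β : ℕ → Bool := fun τ => decide (ev (ph τ) (cst a) ≤ 0)
  let b : XR := (100 / 101 : ℝ) • io (Finsupp.single (Sum.inl (node β T)) 1)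
  have hb1 : ‖b‖ ≤ 1 := by
    rw [norm_smul, norm_io, Real.norm_of_nonneg (by norm_num)]
    linarith [N_tree (node β T)]
  have hb2 : gX β T b = 100 / 101 := by
    rw [map_smul, gX_io, ev_single, gf_node]; simp
  have hf0 : gX β T ≠ 0 := by
    intro h
    rw [h] at hb2
    norm_num at hb2
  have hsup : 100 / 101 ≤ sSup ((fun z => RCLike.re (gX β T z)) '' closedBall (0 : XR) 1) := by
    refine le_csSup ⟨1, ?_⟩ ⟨b, mem_closedBall_zero_iff.mpr hb1, hb2⟩
    rintro _ ⟨z, hz, rfl⟩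
    exact (le_abs_self _).trans ((abs_gX_le β T z).trans (mem_closedBall_zero_iff.mp hz))
  have h2 : (2 : ℝ) ≤ 2 - eta T / 12 := by
    refine (hx.2 (gX β T) hf0 (1 / 100) (by norm_num)).2 ?_
    rintro _ ⟨y, ⟨hy1, hy2⟩, rfl⟩
    have hy3 : 98 / 100 < gX β T y := by
      have : sSup ((fun z => RCLike.re (gX β T z)) '' closedBall (0 : XR) 1) - 1 / 100 <
        gX β T y := hy2
      linarith
    have hy4 := mem_closedBall_zero_iff.mp hy1
    obtain ⟨z, hyz⟩ := exists_close y (show 0 < eta T / 20 by positivity)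
    have hz1 : N (cst z) ≤ 1 + eta T / 20 := by
      have := norm_sub_norm_le (io (cst z)) y
      rw [norm_sub_rev, norm_io] at this
      linarith
    have hz2 : 97 / 100 ≤ ev (gf β T) (cst z) := by
      have := (le_abs_self _).trans (abs_gX_le β T (y - io (cst z)))
      rw [map_sub, gX_io] at this
      linarith
    have h3 := N_add_le (T := T) (z := cst z) hgap (by linarith [S_le_N (cst a)]) (by linarith)
      fun τ hτ => by
        have h4 := sign_force β hτ (cst z)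
        have h5 : 1 / 5 ≤ sg (β τ) * ev (ph τ) (cst z) := by linarith [S_le_N (cst z)]
        by_cases h : ev (ph τ) (cst a) ≤ 0
        · simp only [β, h, decide_true, sg, if_true, one_mul] at h5
          exact ⟨mul_nonpos_of_nonpos_of_nonneg h (by linarith), h5.trans (le_abs_self _)⟩
        · simp only [β, h, decide_false, sg, Bool.false_eq_true, if_false, neg_one_mul] at h5
          exact ⟨mul_nonpos_of_nonneg_of_nonpos (not_le.mp h).le (by linarith),
            h5.trans (neg_le_abs _)⟩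
    have h4 : x + y = io (cst a + cst z) + ((x - io (cst a)) + (y - io (cst z))) := by
      rw [map_add]; abel
    have h5 := norm_add_le (io (cst a + cst z)) ((x - io (cst a)) + (y - io (cst z)))
    have h6 := norm_add_le (x - io (cst a)) (y - io (cst z))
    rw [← h4, norm_io] at h5
    dsimp only
    linarith
  linarith

theorem not_finiteDimensional : ¬ FiniteDimensional ℝ XR := by
  intro hfin
  have : ProperSpace XR := FiniteDimensional.proper ℝ XR
  let s : ℕ → XR := fun k =>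
    io (Finsupp.single (Sum.inl (node (fun i => decide (i = k)) (k + 1))) 1)
  have hs : ∀ n, s n ∈ closedBall (0 : XR) (101 / 100) := by
    intro n
    rw [mem_closedBall_zero_iff, norm_io]
    exact N_tree _
  obtain ⟨a, -, φ, hφ, hlim⟩ := (isCompact_closedBall _ _).tendsto_subseq hs
  obtain ⟨M, hM⟩ := Metric.cauchySeq_iff'.mp hlim.cauchySeq (1 / 2) (by norm_num)
  have h1 := hM (M + 1) (Nat.le_succ M)
  have h2 := tree_sep (hφ (Nat.lt_succ_self M))
  rw [dist_comm, dist_eq_norm] at h1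
  simp only [Function.comp, s] at h1
  rw [← map_sub, norm_io] at h1
  linarith

end Pool.Agent.Lib.MP_67dc8a_an.R
end
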