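import Mathlib

-- part Pool.Agent.Lib.MP_67dc8a_an.Prod
section

/-!
Finite product probability spaces: expectation as a finite sum, and the three estimates on
independent copies of a heavy-tailed spike.
-/

namespace Pool.Agent.Lib.MP_67dc8a_an

open Finset

section Prod

variable {ι β : Type} [Fintype ι] [DecidableEq ι] [Fintype β]

/-- Expectation on the product space. -/
noncomputable def Ex (p : β → ℝ) (φ : (ι → β) → ℝ) : ℝ := ∑ ξ : ι → β, (∏ j, p (ξ j)) * φ ξ

variable {p : β → ℝ}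

theorem Ex_prod (φ : ι → β → ℝ) :
    Ex p (fun ξ : ι → β => ∏ j, φ j (ξ j)) = ∏ j, ∑ b, p b * φ j b := by
  unfold Ex
  rw [Finset.prod_univ_sum, Fintype.piFinset_univ]
  refine Finset.sum_congr rfl fun ξ _ => ?_
  rw [← Finset.prod_mul_distrib]

theorem Ex_add (φ ψ : (ι → β) → ℝ) : Ex p (fun ξ => φ ξ + ψ ξ) = Ex p φ + Ex p ψ := by
  simp only [Ex, mul_add, Finset.sum_add_distrib]

theorem Ex_sub (φ ψ : (ι → β) → ℝ) : Ex p (fun ξ => φ ξ - ψ ξ) = Ex p φ - Ex p ψ := by
  simp only [Ex, mul_sub, Finset.sum_sub_distrib]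

theorem Ex_mul (c : ℝ) (φ : (ι → β) → ℝ) : Ex p (fun ξ => c * φ ξ) = c * Ex p φ := by
  simp only [Ex, Finset.mul_sum]
  exact Finset.sum_congr rfl fun ξ _ => by ring

theorem Ex_sum {κ : Type} (s : Finset κ) (φ : κ → (ι → β) → ℝ) :
    Ex p (fun ξ => ∑ k ∈ s, φ k ξ) = ∑ k ∈ s, Ex p (φ k) := by
  simp only [Ex, Finset.mul_sum]
  exact Finset.sum_comm

theorem Ex_mono (hp : ∀ b, 0 ≤ p b) {φ ψ : (ι → β) → ℝ} (h : ∀ ξ, φ ξ ≤ ψ ξ) :
    Ex p φ ≤ Ex p ψ :=
  Finset.sum_le_sum fun ξ _ =>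
    mul_le_mul_of_nonneg_left (h ξ) (Finset.prod_nonneg fun j _ => hp (ξ j))

theorem Ex_const (h1 : ∑ b, p b = 1) (c : ℝ) : Ex p (fun _ : ι → β => c) = c := by
  have h := Ex_prod (p := p) (fun (_ : ι) (_ : β) => (1 : ℝ))
  simp only [Finset.prod_const_one, mul_one, h1] at h
  have h2 := Ex_mul (p := p) c (fun _ : ι → β => (1 : ℝ))
  simp only [mul_one] at h2
  rw [h2, h, mul_one]

theorem Ex_nonneg (hp : ∀ b, 0 ≤ p b) {φ : (ι → β) → ℝ} (h : ∀ ξ, 0 ≤ φ ξ) : 0 ≤ Ex p φ :=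
  Finset.sum_nonneg fun ξ _ => mul_nonneg (Finset.prod_nonneg fun j _ => hp (ξ j)) (h ξ)

theorem Ex_single (h1 : ∑ b, p b = 1) (g : β → ℝ) (i : ι) :
    Ex p (fun ξ : ι → β => g (ξ i)) = ∑ b, p b * g b := by
  have h := Ex_prod (p := p) (fun (j : ι) (b : β) => if j = i then g b else 1)
  simp only [Finset.prod_ite_eq', Finset.mem_univ, if_true] at h
  rw [h, Finset.prod_eq_single i]
  · simp
  · intro j _ hj
    simp [hj, h1]
  · simp

theorem Ex_pair (h1 : ∑ b, p b = 1) (g g' : β → ℝ) {i k : ι} (hik : i ≠ k) :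
    Ex p (fun ξ : ι → β => g (ξ i) * g' (ξ k)) = (∑ b, p b * g b) * ∑ b, p b * g' b := by
  have h := Ex_prod (p := p)
    (fun (j : ι) (b : β) => (if j = i then g b else 1) * (if j = k then g' b else 1))
  simp only [Finset.prod_mul_distrib, Finset.prod_ite_eq', Finset.mem_univ, if_true] at h
  rw [h]
  have h2 : ∀ j : ι, (∑ b, p b * ((if j = i then g b else 1) * (if j = k then g' b else 1))) =
      (if j = i then ∑ b, p b * g b else 1) * (if j = k then ∑ b, p b * g' b else 1) := by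
    intro j
    by_cases hi : j = i
    · have hk : j ≠ k := hi ▸ hik
      simp [hi, hik]
    · by_cases hk : j = k
      · have : k ≠ i := hik.symm
        simp [hk, this]
      · simp [hi, hk, h1]
  simp only [h2, Finset.prod_mul_distrib, Finset.prod_ite_eq', Finset.mem_univ, if_true]

theorem Ex_abs_le (hp : ∀ b, 0 ≤ p b) (h1 : ∑ b, p b = 1) (Y : (ι → β) → ℝ) {R : ℝ}
    (hR : 0 ≤ R) (h : Ex p (fun ξ => Y ξ ^ 2) ≤ R ^ 2) : Ex p (fun ξ => |Y ξ|) ≤ R := by
  set m := Ex p (fun ξ => |Y ξ|) with hm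
  have h0 : 0 ≤ Ex p (fun ξ => (|Y ξ| - m) ^ 2) := Ex_nonneg hp fun _ => sq_nonneg _
  have h2 : (fun ξ => (|Y ξ| - m) ^ 2) = fun ξ => (Y ξ ^ 2 - (2 * m) * |Y ξ|) + m ^ 2 := by
    funext ξ
    rw [← sq_abs (Y ξ)]; ring
  rw [h2, Ex_add, Ex_sub, Ex_mul, Ex_const h1, ← hm] at h0
  have h3 : m ^ 2 ≤ R ^ 2 := by nlinarith
  exact (abs_le_of_sq_le_sq' h3 hR).2

/-- Second moment of a sum of independent centered variables. -/
theorem Ex_sq_le (h1 : ∑ b, p b = 1) (r : ι → ℝ) (g : ι → β → ℝ) :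
    Ex p (fun ξ : ι → β => (∑ j, r j * (g j (ξ j) - ∑ b, p b * g j b)) ^ 2) ≤
      ∑ j, r j ^ 2 * ∑ b, p b * g j b ^ 2 := by
  set c : ι → β → ℝ := fun j b => g j b - ∑ b, p b * g j b with hc
  have hc0 : ∀ j, ∑ b, p b * c j b = 0 := by
    intro j
    simp only [hc, mul_sub, Finset.sum_sub_distrib, ← Finset.sum_mul, h1]
    ring
  have h2 : (fun ξ : ι → β => (∑ j, r j * (g j (ξ j) - ∑ b, p b * g j b)) ^ 2) =
      fun ξ => ∑ i, ∑ k, (r i * r k) * (c i (ξ i) * c k (ξ k)) := by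
    funext ξ
    rw [sq, Finset.sum_mul_sum]
    refine Finset.sum_congr rfl fun i _ => Finset.sum_congr rfl fun k _ => ?_
    simp only [hc]; ring
  rw [h2, Ex_sum]
  refine Finset.sum_le_sum fun i _ => ?_
  rw [Ex_sum, Finset.sum_eq_single i]
  · rw [Ex_mul, Ex_single h1 (fun b => c i b * c i b), ← sq]
    refine mul_le_mul_of_nonneg_left ?_ (sq_nonneg _)
    set m := ∑ b, p b * g i b with hm
    have h3 : ∑ b, p b * (c i b * c i b) =
        ∑ b, p b * g i b ^ 2 - 2 * m * ∑ b, p b * g i b + m ^ 2 * ∑ b, p b := by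
      rw [Finset.mul_sum univ _ (2 * m), Finset.mul_sum univ _ (m ^ 2), ← Finset.sum_sub_distrib,
        ← Finset.sum_add_distrib]
      refine Finset.sum_congr rfl fun b _ => ?_
      simp only [hc, ← hm]; ring
    rw [h3, h1, ← hm]
    nlinarith [sq_nonneg m]
  · intro k _ hk
    rw [Ex_mul, Ex_pair h1 _ _ hk.symm, hc0, zero_mul, mul_zero]
  · simp

/-- Lower `ℓ¹` estimate coming from the rare top values. -/
theorem l1_lower (hp : ∀ b, 0 ≤ p b) (h1 : ∑ b, p b = 1) (f : β → ℝ) (hf1 : ∑ b, p b * f b = 1)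
    (T : β → ℝ) (hT : ∀ b, T b = 0 ∨ T b = 1) {c : ℝ} (hc : 0 < c)
    (hN : (Fintype.card ι : ℝ) * ∑ b, p b * T b ≤ 1 / 2)
    (he : 1 / c ≤ ∑ b, p b * (f b * T b) - ∑ b, p b * T b) (u : ℝ) (r : ι → ℝ) :
    ∑ j, |r j| ≤ 2 * c * Ex p (fun ξ : ι → β => |u + ∑ j, r j * f (ξ j)|) := by
  set π := ∑ b, p b * T b with hπ
  set e := ∑ b, p b * (f b * T b) with hedef
  have hT0 : ∀ b, 0 ≤ T b := fun b => by rcases hT b with h | h <;> simp [h]
  have hπ0 : 0 ≤ π := Finset.sum_nonneg fun b _ => mul_nonneg (hp b) (hT0 b)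
  rcases isEmpty_or_nonempty ι with hι | hι
  · have : 0 ≤ Ex p (fun ξ : ι → β => |u + ∑ j, r j * f (ξ j)|) :=
      Ex_nonneg hp fun _ => abs_nonneg _
    simp only [Finset.univ_eq_empty, Finset.sum_empty] at this ⊢
    positivity
  have hcard : (1 : ℝ) ≤ Fintype.card ι := by exact_mod_cast Fintype.card_pos
  have hπ1 : π ≤ 1 / 2 := by nlinarith
  let F : ι → ι → β → ℝ := fun j k b => if k = j then T b - π else 1 - T b
  let t : ι → (ι → β) → ℝ := fun j ξ => ∏ k, F j k (ξ k)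
  let s : ι → ℝ := fun j => if 0 ≤ r j then 1 else -1
  have hs : ∀ j, s j * r j = |r j| := by
    intro j
    by_cases h : 0 ≤ r j
    · simp [s, h, abs_of_nonneg h]
    · simp [s, h, abs_of_neg (not_le.mp h)]
  have hs1 : ∀ j, |s j| = 1 := by
    intro j
    by_cases h : 0 ≤ r j <;> simp [s, h]
  have hmean : ∀ j, ∑ b, p b * F j j b = 0 := by
    intro j
    simp only [F, if_true, mul_sub, Finset.sum_sub_distrib, ← Finset.sum_mul, h1, ← hπ]
    ring
  have hoth : ∀ j k, k ≠ j → ∑ b, p b * F j k b = 1 - π := by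
    intro j k hk
    simp only [F, hk, if_false, mul_sub, Finset.sum_sub_distrib, mul_one, h1, ← hπ]
  have ht0 : ∀ j, Ex p (t j) = 0 := by
    intro j
    rw [show t j = fun ξ => ∏ k, F j k (ξ k) from rfl, Ex_prod]
    exact Finset.prod_eq_zero (Finset.mem_univ j) (hmean j)
  have hft : ∀ i j, Ex p (fun ξ => f (ξ i) * t j ξ) =
      ∏ k, ∑ b, p b * ((if k = i then f b else 1) * F j k b) := by
    intro i j
    rw [← Ex_prod]
    congr 1
    funext ξ
    simp only [t, Finset.prod_mul_distrib, Finset.prod_ite_eq', Finset.mem_univ, if_true]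
  have hft0 : ∀ i j, i ≠ j → Ex p (fun ξ => f (ξ i) * t j ξ) = 0 := by
    intro i j hij
    rw [hft]
    refine Finset.prod_eq_zero (Finset.mem_univ j) ?_
    simp only [hij.symm, if_false, one_mul, hmean]
  have hft1 : ∀ j, 1 / (2 * c) ≤ Ex p (fun ξ => f (ξ j) * t j ξ) := by
    intro j
    rw [hft, ← Finset.mul_prod_erase _ _ (Finset.mem_univ j)]
    have h2 : ∑ b, p b * ((if j = j then f b else 1) * F j j b) = e - π := by
      simp only [F, if_true, mul_sub, Finset.sum_sub_distrib, ← hedef]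
      have : ∑ b, p b * (f b * π) = (∑ b, p b * f b) * π := by
        rw [Finset.sum_mul]
        exact Finset.sum_congr rfl fun b _ => by ring
      rw [this, hf1, one_mul]
    have h3 : ∏ k ∈ Finset.univ.erase j, ∑ b, p b * ((if k = j then f b else 1) * F j k b) =
        (1 - π) ^ (Fintype.card ι - 1) := by
      rw [Finset.prod_congr rfl (g := fun _ => 1 - π), Finset.prod_const,
        Finset.card_erase_of_mem (Finset.mem_univ j), Finset.card_univ]
      intro k hk
      have hk' := Finset.ne_of_mem_erase hk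
      simp only [hk', if_false, one_mul, hoth j k hk']
    rw [h2, h3]
    have h4 : 1 + ((Fintype.card ι - 1 : ℕ) : ℝ) * (-π) ≤ (1 + -π) ^ (Fintype.card ι - 1) :=
      one_add_mul_le_pow (by linarith) _
    have h5 : ((Fintype.card ι - 1 : ℕ) : ℝ) ≤ Fintype.card ι := by
      exact_mod_cast Nat.sub_le _ _
    have h6 : 1 / 2 ≤ (1 - π) ^ (Fintype.card ι - 1) := by
      rw [sub_eq_add_neg]; nlinarith
    have h7 : 0 < 1 / c := by positivity
    calc 1 / (2 * c) = 1 / c * (1 / 2) := by field_simp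
      _ ≤ (e - π) * (1 - π) ^ (Fintype.card ι - 1) :=
        mul_le_mul he h6 (by norm_num) (by linarith)
  have hbd : ∀ ξ : ι → β, ∑ j, |t j ξ| ≤ 1 := by
    intro ξ
    by_cases h : ∃ k, T (ξ k) = 1
    · obtain ⟨k, hk⟩ := h
      rw [Finset.sum_eq_single k]
      · rw [show t k ξ = ∏ l, F k l (ξ l) from rfl, Finset.abs_prod]
        refine Finset.prod_le_one (fun _ _ => abs_nonneg _) fun l _ => ?_
        simp only [F]
        split_ifs
        · rcases hT (ξ l) with h | h <;> rw [h, abs_le] <;> constructor <;> linarith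
        · rcases hT (ξ l) with h | h <;> simp [h]
      · intro j _ hj
        rw [abs_eq_zero]
        refine Finset.prod_eq_zero (Finset.mem_univ k) ?_
        simp [F, hj.symm, hk]
      · simp
    · have h' : ∀ k, T (ξ k) = 0 := fun k => (hT (ξ k)).resolve_right fun hk => h ⟨k, hk⟩
      have h2 : ∀ j, |t j ξ| = π := by
        intro j
        have : t j ξ = ∏ k, if k = j then -π else 1 := by
          refine Finset.prod_congr rfl fun k _ => ?_
          simp [F, h' k]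
        rw [this, Finset.prod_ite_eq']
        simp [abs_of_nonneg hπ0]
      simp only [h2, Finset.sum_const, Finset.card_univ, nsmul_eq_mul]
      linarith
  have hmain : Ex p (fun ξ => (u + ∑ i, r i * f (ξ i)) * ∑ j, s j * t j ξ) ≤
      Ex p (fun ξ : ι → β => |u + ∑ j, r j * f (ξ j)|) := by
    refine Ex_mono hp fun ξ => ?_
    refine (le_abs_self _).trans ?_
    rw [abs_mul]
    refine mul_le_of_le_one_right (abs_nonneg _) ((Finset.abs_sum_le_sum_abs _ _).trans ?_)
    simpa only [abs_mul, hs1, one_mul] using hbd ξ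
  have hexp : (fun ξ : ι → β => (u + ∑ i, r i * f (ξ i)) * ∑ j, s j * t j ξ) =
      fun ξ => ∑ j, ((u * s j) * t j ξ + ∑ i, (s j * r i) * (f (ξ i) * t j ξ)) := by
    funext ξ
    rw [Finset.mul_sum]
    refine Finset.sum_congr rfl fun j _ => ?_
    rw [add_mul, Finset.sum_mul]
    congr 1
    · ring
    · exact Finset.sum_congr rfl fun i _ => by ring
  rw [hexp, Ex_sum] at hmain
  have hlow : ∑ j, |r j| * (1 / (2 * c)) ≤
      ∑ j, Ex p (fun ξ => (u * s j) * t j ξ + ∑ i, (s j * r i) * (f (ξ i) * t j ξ)) := by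
    refine Finset.sum_le_sum fun j _ => ?_
    rw [Ex_add, Ex_mul, ht0, mul_zero, zero_add, Ex_sum, Finset.sum_eq_single j]
    · rw [Ex_mul, hs]
      exact mul_le_mul_of_nonneg_left (hft1 j) (abs_nonneg _)
    · intro i _ hi
      rw [Ex_mul, hft0 i j hi, mul_zero]
    · simp
  rw [← Finset.sum_mul] at hlow
  have h9 := hlow.trans hmain
  rw [mul_one_div, div_le_iff₀ (by positivity)] at h9
  linarith

/-- Concentration near a constant, off a small event. -/
theorem conc (hp : ∀ b, 0 ≤ p b) (h1 : ∑ b, p b = 1) (f : β → ℝ) {h : ℝ} (hh : 0 ≤ h)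
    (hbig : ∀ σ τ : ℝ, 0 ≤ σ → 0 ≤ τ →
      τ * ∑ b, p b * (if σ * f b ≤ τ then 0 else 1) ≤ h ^ 2 * σ)
    (hsmall : ∀ σ τ : ℝ, 0 ≤ σ → 0 ≤ τ →
      σ * ∑ b, p b * (if σ * f b ≤ τ then f b else 0) ^ 2 ≤ h ^ 2 * τ)
    (σ : ι → ℝ) (hσ : ∀ j, 0 ≤ σ j) :
    ∃ (m : ι → ℝ) (good : (ι → β) → ℝ), (∀ ξ, 0 ≤ good ξ ∧ good ξ ≤ 1) ∧
      1 - h ^ 2 ≤ Ex p good ∧ ∀ r : ι → ℝ, (∀ j, |r j| ≤ σ j) →
        Ex p (fun ξ => good ξ * |∑ j, r j * (f (ξ j) - m j)|) ≤ h * ∑ j, σ j := by
  set S := ∑ j, σ j with hS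
  have hS0 : 0 ≤ S := Finset.sum_nonneg fun j _ => hσ j
  let g : ι → β → ℝ := fun j b => if σ j * f b ≤ S then f b else 0
  refine ⟨fun j => ∑ b, p b * g j b, fun ξ => if ∀ j, σ j * f (ξ j) ≤ S then 1 else 0,
    fun ξ => by dsimp only; split_ifs <;> norm_num, ?_, fun r hr => ?_⟩
  · rcases hS0.eq_or_lt with h0 | h0
    · have hz : ∀ j, σ j = 0 := fun j =>
        (Finset.sum_eq_zero_iff_of_nonneg fun j _ => hσ j).mp h0.symm j (Finset.mem_univ j)
      simp only [hz, zero_mul, hS0, implies_true, if_true, Ex_const h1]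
      nlinarith [sq_nonneg h]
    · have h2 : Ex p (fun ξ : ι → β => 1 - ∑ j, (if σ j * f (ξ j) ≤ S then 0 else 1 : ℝ)) ≤
          Ex p (fun ξ : ι → β => if ∀ j, σ j * f (ξ j) ≤ S then 1 else 0) := by
        refine Ex_mono hp fun ξ => ?_
        split_ifs with hx
        · simp [hx]
        · push Not at hx
          obtain ⟨j, hj⟩ := hx
          have := Finset.single_le_sum
            (f := fun j => (if σ j * f (ξ j) ≤ S then 0 else 1 : ℝ))
            (fun j _ => by split_ifs <;> norm_num) (Finset.mem_univ j)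
          simp only [not_le.mpr hj, if_false] at this
          linarith
      refine le_trans ?_ h2
      rw [Ex_sub, Ex_const h1, Ex_sum]
      have h3 : S * ∑ j, Ex p (fun ξ : ι → β => (if σ j * f (ξ j) ≤ S then 0 else 1 : ℝ)) ≤
          S * h ^ 2 := by
        rw [Finset.mul_sum, mul_comm S (h ^ 2), hS, Finset.mul_sum]
        refine Finset.sum_le_sum fun j _ => ?_
        rw [Ex_single h1 (fun b => (if σ j * f b ≤ ∑ j, σ j then 0 else 1 : ℝ)) j]
        exact hbig _ _ (hσ j) hS0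
      have h4 := le_of_mul_le_mul_left h3 h0
      linarith
  · have h2 : Ex p (fun ξ : ι → β => (if ∀ j, σ j * f (ξ j) ≤ S then 1 else 0) *
          |∑ j, r j * (f (ξ j) - ∑ b, p b * g j b)|) ≤
        Ex p (fun ξ : ι → β => |∑ j, r j * (g j (ξ j) - ∑ b, p b * g j b)|) := by
      refine Ex_mono hp fun ξ => ?_
      split_ifs with hx
      · simp [g, hx]
      · simp
    refine h2.trans (Ex_abs_le hp h1 _ (mul_nonneg hh hS0) ((Ex_sq_le h1 r g).trans ?_))
    have h3 : ∀ j, r j ^ 2 * ∑ b, p b * g j b ^ 2 ≤ σ j * (h ^ 2 * S) := by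
      intro j
      have h4 : r j ^ 2 ≤ σ j ^ 2 := by
        rw [← sq_abs]; exact pow_le_pow_left₀ (abs_nonneg _) (hr j) 2
      have h5 : 0 ≤ ∑ b, p b * g j b ^ 2 :=
        Finset.sum_nonneg fun b _ => mul_nonneg (hp b) (sq_nonneg _)
      calc r j ^ 2 * ∑ b, p b * g j b ^ 2 ≤ σ j ^ 2 * ∑ b, p b * g j b ^ 2 :=
            mul_le_mul_of_nonneg_right h4 h5
        _ = σ j * (σ j * ∑ b, p b * g j b ^ 2) := by ring
        _ ≤ σ j * (h ^ 2 * S) := mul_le_mul_of_nonneg_left (hsmall _ _ (hσ j) hS0) (hσ j)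
    refine (Finset.sum_le_sum fun j _ => h3 j).trans (le_of_eq ?_)
    rw [← Finset.sum_mul, ← hS]; ring

/-- Law of large numbers for the average of all copies. -/
theorem lln [Nonempty ι] (hp : ∀ b, 0 ≤ p b) (h1 : ∑ b, p b = 1) (f : β → ℝ) (hf : ∀ b, 0 ≤ f b)
    (hf1 : ∑ b, p b * f b = 1) (T : β → ℝ) (hT : ∀ b, T b = 0 ∨ T b = 1) {γ : ℝ} (hγ : 0 ≤ γ)
    (hv : ∑ b, p b * (f b * (1 - T b)) ^ 2 ≤ γ ^ 2 * Fintype.card ι) :
    Ex p (fun ξ : ι → β => |(∑ j, (Fintype.card ι : ℝ)⁻¹ * f (ξ j)) - 1|) ≤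
      γ + 2 * ∑ b, p b * (f b * T b) := by
  set e := ∑ b, p b * (f b * T b) with he
  set n : ℝ := (Fintype.card ι : ℝ) with hn
  have hn0 : 0 < n := by rw [hn]; exact_mod_cast Fintype.card_pos
  have hT0 : ∀ b, 0 ≤ T b := fun b => by rcases hT b with h | h <;> simp [h]
  have he0 : 0 ≤ e := Finset.sum_nonneg fun b _ => mul_nonneg (hp b) (mul_nonneg (hf b) (hT0 b))
  let g : ι → β → ℝ := fun _ b => f b * (1 - T b)
  have hg : ∀ j, ∑ b, p b * g j b = 1 - e := by
    intro j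
    rw [← hf1, he, ← Finset.sum_sub_distrib]
    exact Finset.sum_congr rfl fun b _ => by simp only [g]; ring
  have h2 : Ex p (fun ξ : ι → β => |∑ j, n⁻¹ * (g j (ξ j) - ∑ b, p b * g j b)|) ≤ γ := by
    refine Ex_abs_le hp h1 _ hγ ((Ex_sq_le h1 (fun _ => n⁻¹) g).trans ?_)
    simp only [g, Finset.sum_const, Finset.card_univ, nsmul_eq_mul, ← hn]
    calc n * (n⁻¹ ^ 2 * ∑ b, p b * (f b * (1 - T b)) ^ 2) ≤ n * (n⁻¹ ^ 2 * (γ ^ 2 * n)) := by
          gcongr
      _ = γ ^ 2 := by field_simp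
  have h3 : Ex p (fun ξ : ι → β => ∑ j, n⁻¹ * (f (ξ j) * T (ξ j))) = e := by
    rw [Ex_sum]
    simp only [Ex_mul, Ex_single h1 (fun b => f b * T b), ← he, Finset.sum_const,
      Finset.card_univ, nsmul_eq_mul, ← hn]
    field_simp
  have h4 : Ex p (fun ξ : ι → β => |(∑ j, n⁻¹ * f (ξ j)) - 1|) ≤
      Ex p (fun ξ : ι → β => (|∑ j, n⁻¹ * (g j (ξ j) - ∑ b, p b * g j b)| +
        ∑ j, n⁻¹ * (f (ξ j) * T (ξ j))) + e) := by
    refine Ex_mono hp fun ξ => ?_
    have h5 : (∑ j, n⁻¹ * f (ξ j)) - 1 = (∑ j, n⁻¹ * (g j (ξ j) - ∑ b, p b * g j b) +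
        ∑ j, n⁻¹ * (f (ξ j) * T (ξ j))) - e := by
      rw [← Finset.sum_add_distrib]
      have h6 : ∀ j, n⁻¹ * (g j (ξ j) - ∑ b, p b * g j b) + n⁻¹ * (f (ξ j) * T (ξ j)) =
          n⁻¹ * f (ξ j) - n⁻¹ * (1 - e) := by
        intro j
        rw [hg j]; simp only [g]; ring
      simp only [h6, Finset.sum_sub_distrib, Finset.sum_const, Finset.card_univ, nsmul_eq_mul,
        ← hn]
      field_simp
      ring
    have h7 : 0 ≤ ∑ j, n⁻¹ * (f (ξ j) * T (ξ j)) :=
      Finset.sum_nonneg fun j _ => mul_nonneg (by positivity) (mul_nonneg (hf _) (hT0 _))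
    rw [h5]
    refine (abs_sub _ _).trans ?_
    rw [abs_of_nonneg he0]
    have := abs_add_le (∑ j, n⁻¹ * (g j (ξ j) - ∑ b, p b * g j b))
      (∑ j, n⁻¹ * (f (ξ j) * T (ξ j)))
    rw [abs_of_nonneg h7] at this
    linarith
  rw [Ex_add, Ex_add, h3, Ex_const h1] at h4
  linarith

end Prod

/-- Empirical approximation of a mean in a Hilbert space. -/
theorem maurey {H κ : Type} [NormedAddCommGroup H] [InnerProductSpace ℂ H] [Fintype κ]
    [Nonempty κ] (c : κ → H) (hc : ∑ k, c k = 0) {C : ℝ} (hC : ∀ k, ‖c k‖ ≤ C) (m : ℕ) :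
    ∃ J : Fin m → κ, ‖∑ i, c (J i)‖ ^ 2 ≤ m * C ^ 2 := by
  induction m with
  | zero => exact ⟨Fin.elim0, by simp⟩
  | succ m ih =>
    obtain ⟨J, hJ⟩ := ih
    set S := ∑ i, c (J i) with hS
    have h0 : ∑ k, RCLike.re (inner ℂ S (c k)) = 0 := by
      rw [← map_sum, ← inner_sum, hc, inner_zero_right, map_zero]
    obtain ⟨k, -, hk⟩ : ∃ k ∈ (Finset.univ : Finset κ), RCLike.re (inner ℂ S (c k)) ≤ 0 := by
      by_contra hcon
      push Not at hcon
      exact (Finset.sum_pos hcon Finset.univ_nonempty).ne' h0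
    refine ⟨Fin.cons k J, ?_⟩
    rw [Fin.sum_univ_succ]
    simp only [Fin.cons_zero, Fin.cons_succ, ← hS]
    rw [add_comm, norm_add_sq (𝕜 := ℂ)]
    have h2 : ‖c k‖ ^ 2 ≤ C ^ 2 := pow_le_pow_left₀ (norm_nonneg _) (hC k) 2
    push_cast
    linarith

end Pool.Agent.Lib.MP_67dc8a_an
end

-- part Pool.Agent.Lib.MP_67dc8a_an.Dist
section

/-!
The heavy-tailed spike: value `2 ^ k` with probability `2 ^ (-k) / L` for `k < L`, else `0`.
-/

namespace Pool.Agent.Lib.MP_67dc8a_an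

open Finset

/-- Values of the spike. -/
noncomputable def val {L : ℕ} : Option (Fin L) → ℝ
  | none => 0
  | some k => 2 ^ (k : ℕ)

/-- Probabilities of the values. -/
noncomputable def pr (L : ℕ) : Option (Fin L) → ℝ
  | none => 1 - ∑ k : Fin L, (1 / 2 : ℝ) ^ (k : ℕ) / L
  | some k => (1 / 2 : ℝ) ^ (k : ℕ) / L

/-- Indicator of the top values. -/
noncomputable def top {L : ℕ} (K : ℕ) : Option (Fin L) → ℝ
  | none => 0
  | some k => if K ≤ (k : ℕ) then 1 else 0

theorem geom_tail (K L : ℕ) :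
    ∑ k ∈ range L, (if K ≤ k then (1 / 2 : ℝ) ^ k else 0) ≤ 2 * (1 / 2) ^ K := by
  have h : ∑ k ∈ range L, (if K ≤ k then (1 / 2 : ℝ) ^ k else 0) ≤
      max 0 (2 * (1 / 2) ^ K - 2 * (1 / 2) ^ L) := by
    induction L with
    | zero => simp
    | succ L ih =>
      rw [Finset.sum_range_succ]
      split_ifs with h
      · have h2 : (1 / 2 : ℝ) ^ L ≤ (1 / 2) ^ K :=
          pow_le_pow_of_le_one (by norm_num) (by norm_num) h
        rw [max_eq_right (by linarith)] at ih
        refine le_max_of_le_right ?_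
        rw [pow_succ]; linarith
      · rw [add_zero]
        refine ih.trans (max_le_max le_rfl ?_)
        have : (0 : ℝ) < (1 / 2) ^ L := by positivity
        rw [pow_succ]; linarith
  refine h.trans (max_le (by positivity) ?_)
  have : (0 : ℝ) < (1 / 2) ^ L := by positivity
  linarith

theorem geom_big (σ τ : ℝ) (hτ : 0 ≤ τ) (hσ : 0 ≤ σ) (L : ℕ) :
    ∑ k ∈ range L, τ * ((1 / 2 : ℝ) ^ k * if σ * 2 ^ k ≤ τ then 0 else 1) ≤ 2 * σ := by
  have h : ∑ k ∈ range L, τ * ((1 / 2 : ℝ) ^ k * if σ * 2 ^ k ≤ τ then 0 else 1) ≤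
      max 0 (2 * σ - 2 * (τ * (1 / 2) ^ L)) := by
    induction L with
    | zero => simp
    | succ L ih =>
      rw [Finset.sum_range_succ]
      have h0 : (0 : ℝ) ≤ τ * (1 / 2) ^ L := by positivity
      split_ifs with h
      · rw [mul_zero, mul_zero, add_zero]
        refine ih.trans (max_le_max le_rfl ?_)
        rw [pow_succ]; linarith
      · have h2 : τ * (1 / 2) ^ L ≤ σ := by
          have h3 : (2 : ℝ) ^ L * (1 / 2) ^ L = 1 := by rw [← mul_pow]; norm_num
          have h4 : τ * (1 / 2) ^ L ≤ σ * 2 ^ L * (1 / 2) ^ L :=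
            mul_le_mul_of_nonneg_right (not_le.mp h).le (by positivity)
          rwa [mul_assoc, h3, mul_one] at h4
        rw [max_eq_right (by linarith)] at ih
        refine le_max_of_le_right ?_
        rw [pow_succ]; linarith
  refine h.trans (max_le (by positivity) ?_)
  have : (0 : ℝ) ≤ τ * (1 / 2) ^ L := by positivity
  linarith

theorem geom_small (σ τ : ℝ) (hτ : 0 ≤ τ) (hσ : 0 ≤ σ) (L : ℕ) :
    ∑ k ∈ range L, (if σ * 2 ^ k ≤ τ then σ * 2 ^ k else 0) ≤ 2 * τ := by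
  have h : ∑ k ∈ range L, (if σ * 2 ^ k ≤ τ then σ * 2 ^ k else 0) ≤ 2 * τ ∧
      ∑ k ∈ range L, (if σ * 2 ^ k ≤ τ then σ * 2 ^ k else 0) ≤ σ * 2 ^ L := by
    induction L with
    | zero => simp [hτ, hσ]
    | succ L ih =>
      rw [Finset.sum_range_succ, pow_succ]
      have h0 : 0 ≤ σ * 2 ^ L := by positivity
      split_ifs with h
      · constructor <;> linarith [ih.1, ih.2]
      · constructor <;> linarith [ih.1, ih.2]
  exact h.1

variable {L : ℕ}

theorem val_nonneg (b : Option (Fin L)) : 0 ≤ val b := by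
  cases b with
  | none => exact le_rfl
  | some k => simp only [val]; positivity

theorem sum_half_le : ∑ k : Fin L, (1 / 2 : ℝ) ^ (k : ℕ) / L ≤ 2 / L := by
  rw [← Finset.sum_div, Fin.sum_univ_eq_sum_range (fun k => (1 / 2 : ℝ) ^ k) L]
  have := geom_tail 0 L
  simp only [Nat.zero_le, if_true, pow_zero, mul_one] at this
  exact div_le_div_of_nonneg_right this (Nat.cast_nonneg _)

theorem pr_nonneg (hL : 2 ≤ L) (b : Option (Fin L)) : 0 ≤ pr L b := by
  cases b with
  | none =>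
    have h1 := sum_half_le (L := L)
    have h2 : (2 : ℝ) ≤ L := by exact_mod_cast hL
    have h3 : (2 : ℝ) / L ≤ 1 := by rw [div_le_one (by linarith)]; exact h2
    simp only [pr]; linarith
  | some k => simp only [pr]; positivity

theorem pr_sum : ∑ b, pr L b = 1 := by
  rw [Fintype.sum_option]
  simp only [pr]; ring

theorem half_mul (k : ℕ) : (1 / 2 : ℝ) ^ k * 2 ^ k = 1 := by rw [← mul_pow]; norm_num

theorem pr_val (k : Fin L) : pr L (some k) * val (some k) = 1 / L := by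
  simp only [pr, val]
  rw [div_mul_eq_mul_div, half_mul]

theorem mean_val (hL : 0 < L) : ∑ b, pr L b * val b = 1 := by
  rw [Fintype.sum_option]
  simp only [pr_val, Finset.sum_const, Finset.card_univ, Fintype.card_fin, nsmul_eq_mul]
  have : (L : ℝ) ≠ 0 := by exact_mod_cast hL.ne'
  simp only [val, mul_zero, zero_add]
  field_simp

theorem top_cases (K : ℕ) (b : Option (Fin L)) : top K b = 0 ∨ top K b = 1 := by
  cases b with
  | none => exact Or.inl rfl
  | some k => simp only [top]; split_ifs <;> simp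

theorem val_eq_zero {b : Option (Fin L)} (h : top 0 b = 0) : val b = 0 := by
  cases b with
  | none => rfl
  | some k => simp [top] at h

theorem pr_top (K : ℕ) : ∑ b, pr L b * top K b ≤ 2 * (1 / 2) ^ K / L := by
  rw [Fintype.sum_option]
  simp only [top, mul_zero, zero_add, pr]
  have h : ∀ k : Fin L, (1 / 2 : ℝ) ^ (k : ℕ) / L * (if K ≤ (k : ℕ) then 1 else 0) =
      (if K ≤ (k : ℕ) then (1 / 2 : ℝ) ^ (k : ℕ) else 0) / L := by
    intro k; split_ifs <;> simp
  simp only [h]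
  rw [← Finset.sum_div,
    Fin.sum_univ_eq_sum_range (fun k => if K ≤ k then (1 / 2 : ℝ) ^ k else 0) L]
  exact div_le_div_of_nonneg_right (geom_tail K L) (Nat.cast_nonneg _)

theorem mean_top (K D : ℕ) (hL : L = K + D) :
    ∑ b : Option (Fin L), pr L b * (val b * top K b) = D / L := by
  rw [Fintype.sum_option]
  simp only [← mul_assoc, pr_val]
  simp only [top, mul_zero, zero_add]
  rw [← Finset.mul_sum, Fin.sum_univ_eq_sum_range (fun k => if K ≤ k then (1 : ℝ) else 0) L]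
  have h : ∑ k ∈ range L, (if K ≤ k then (1 : ℝ) else 0) = D := by
    rw [hL, Finset.sum_range_add]
    rw [Finset.sum_eq_zero (fun k hk => if_neg (not_le.mpr (Finset.mem_range.mp hk)))]
    simp
  rw [h]; ring

theorem var_low (K : ℕ) :
    ∑ b : Option (Fin L), pr L b * (val b * (1 - top K b)) ^ 2 ≤ (2 : ℝ) * 2 ^ K / (L : ℝ) := by
  rw [Fintype.sum_option]
  have h : ∀ k : Fin L, pr L (some k) * (val (some k) * (1 - top K (some k))) ^ 2 ≤
      (if (1 : ℝ) * 2 ^ (k : ℕ) ≤ 2 ^ K then (1 : ℝ) * 2 ^ (k : ℕ) else 0 : ℝ) / (L : ℝ) := by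
    intro k
    simp only [pr, val, top]
    by_cases hk : K ≤ (k : ℕ)
    · simp only [hk, if_true, sub_self, mul_zero, ne_eq, OfNat.ofNat_ne_zero, not_false_eq_true,
        zero_pow]
      split_ifs <;> positivity
    · have h2 : (1 : ℝ) * 2 ^ (k : ℕ) ≤ 2 ^ K := by
        rw [one_mul]
        exact pow_le_pow_right₀ (by norm_num) (not_le.mp hk).le
      simp only [hk, if_false, h2, if_true, sub_zero, mul_one]
      rw [sq, div_mul_eq_mul_div, ← mul_assoc, half_mul]
  have h0 : pr L none * (val (none : Option (Fin L)) * (1 - top K (none : Option (Fin L)))) ^ 2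
      = 0 := by simp [val]
  rw [h0, zero_add]
  refine (Finset.sum_le_sum fun k _ => h k).trans ?_
  rw [← Finset.sum_div, Fin.sum_univ_eq_sum_range
    (fun k => if (1 : ℝ) * 2 ^ k ≤ 2 ^ K then (1 : ℝ) * 2 ^ k else 0) L]
  exact div_le_div_of_nonneg_right (geom_small 1 _ (by positivity) zero_le_one L)
    (Nat.cast_nonneg _)

theorem val_big (σ τ : ℝ) (hσ : 0 ≤ σ) (hτ : 0 ≤ τ) :
    τ * ∑ b : Option (Fin L), pr L b * (if σ * val b ≤ τ then 0 else 1) ≤ 2 / L * σ := by
  rw [Fintype.sum_option]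
  have h0 : pr L none * (if σ * val (none : Option (Fin L)) ≤ τ then 0 else 1) = 0 := by
    simp [val, hτ]
  rw [h0, zero_add, Finset.mul_sum]
  have h : ∀ k : Fin L, τ * (pr L (some k) * if σ * val (some k) ≤ τ then 0 else 1) =
      (τ * ((1 / 2 : ℝ) ^ (k : ℕ) * if σ * 2 ^ (k : ℕ) ≤ τ then 0 else 1)) / L := by
    intro k
    change τ * ((1 / 2 : ℝ) ^ (k : ℕ) / L * if σ * 2 ^ (k : ℕ) ≤ τ then 0 else 1) = _
    ring
  simp only [h]
  rw [← Finset.sum_div, Fin.sum_univ_eq_sum_range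
    (fun k => τ * ((1 / 2 : ℝ) ^ k * if σ * 2 ^ k ≤ τ then 0 else 1)) L, div_mul_eq_mul_div]
  exact div_le_div_of_nonneg_right (geom_big σ τ hτ hσ L) (Nat.cast_nonneg _)

theorem val_small (σ τ : ℝ) (hσ : 0 ≤ σ) (hτ : 0 ≤ τ) :
    σ * ∑ b : Option (Fin L), pr L b * (if σ * val b ≤ τ then val b else 0) ^ 2 ≤ 2 / L * τ := by
  rw [Fintype.sum_option]
  have h : ∀ k : Fin L, σ * (pr L (some k) *
      (if σ * val (some k) ≤ τ then val (some k) else 0) ^ 2) =
      (if σ * 2 ^ (k : ℕ) ≤ τ then σ * 2 ^ (k : ℕ) else 0) / L := by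
    intro k
    simp only [pr, val]
    split_ifs
    · rw [sq, div_mul_eq_mul_div, ← mul_assoc, half_mul]; ring
    · simp
  have h0 : pr L none * (if σ * val (none : Option (Fin L)) ≤ τ then
      val (none : Option (Fin L)) else 0) ^ 2 = 0 := by
    simp [val]
  rw [h0, zero_add, Finset.mul_sum]
  simp only [h]
  rw [← Finset.sum_div, Fin.sum_univ_eq_sum_range
    (fun k => if σ * 2 ^ k ≤ τ then σ * 2 ^ k else 0) L, div_mul_eq_mul_div]
  exact div_le_div_of_nonneg_right (geom_small σ τ hτ hσ L) (Nat.cast_nonneg _)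

end Pool.Agent.Lib.MP_67dc8a_an
end

-- part Pool.Agent.Lib.MP_67dc8a_an.Tower
section

/-!
The tower of finite probability spaces and the finite-dimensional spaces of functions on it.
-/

namespace Pool.Agent.Lib.MP_67dc8a_an

open Finset Function

/-- Precision parameter of stage `n` when the previous stages have `a` atoms. -/
def RR (n a : ℕ) : ℕ := 80000 * (n + 1) * a ^ 3

/-- Number of top scales. -/
def DD (n a : ℕ) : ℕ := 2 * RR n a ^ 2

/-- Number of atoms before stage `n`. -/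
def aa : ℕ → ℕ
  | 0 => 1
  | n + 1 => aa n * (n * DD n (aa n) + DD n (aa n) + 1) ^ (2 ^ (n * DD n (aa n)))

/-- Number of low scales of stage `n`. -/
def KK (n : ℕ) : ℕ := n * DD n (aa n)

/-- Number of scales of stage `n`. -/
def LL (n : ℕ) : ℕ := KK n + DD n (aa n)

/-- Number of independent spikes of stage `n`. -/
def NN (n : ℕ) : ℕ := 2 ^ KK n

theorem aa_succ (n : ℕ) : aa (n + 1) = aa n * (LL n + 1) ^ NN n := rfl

theorem NN_pos (n : ℕ) : 0 < NN n := Nat.two_pow_pos _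

theorem aa_pos (n : ℕ) : 0 < aa n := by
  induction n with
  | zero => exact Nat.one_pos
  | succ n ih => rw [aa_succ]; positivity

theorem RR_ge (n : ℕ) : 80000 * (n + 1) * aa n ^ 2 ≤ RR n (aa n) :=
  Nat.mul_le_mul_left _ (Nat.pow_le_pow_right (aa_pos n) (by norm_num))

theorem RR_ge' (n : ℕ) : 80000 * (n + 1) ≤ RR n (aa n) :=
  le_trans (Nat.le_mul_of_pos_right _ (pow_pos (aa_pos n) 2)) (RR_ge n)

theorem DD_ge (n : ℕ) : 4 ≤ DD n (aa n) := by
  have := RR_ge' n
  unfold DD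
  nlinarith

theorem LL_eq (n : ℕ) : (LL n : ℝ) = (n + 1) * DD n (aa n) := by
  unfold LL KK; push_cast; ring

theorem two_le_LL (n : ℕ) : 2 ≤ LL n := by
  have := DD_ge n
  unfold LL; omega

theorem aa_double (n : ℕ) : 2 * aa n ≤ aa (n + 1) := by
  rw [aa_succ, mul_comm]
  refine Nat.mul_le_mul_left _ ?_
  have h1 := two_le_LL n
  calc 2 ≤ (LL n + 1) ^ 1 := by rw [pow_one]; omega
    _ ≤ (LL n + 1) ^ NN n := Nat.pow_le_pow_right (by omega) (NN_pos n)

attribute [irreducible] aa KK LL NN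

theorem two_div_LL (n : ℕ) : (2 : ℝ) / LL n ≤ (1 / RR n (aa n)) ^ 2 := by
  have h1 : (0 : ℝ) < RR n (aa n) := by
    have := RR_ge' n
    exact_mod_cast (by omega : 0 < RR n (aa n))
  have h2 : (DD n (aa n) : ℝ) = 2 * (RR n (aa n) : ℝ) ^ 2 := by unfold DD; push_cast; ring
  rw [LL_eq, h2, div_pow, one_pow, div_le_div_iff₀ (by positivity) (by positivity)]
  have : (0 : ℝ) ≤ n := Nat.cast_nonneg n
  nlinarith [sq_nonneg (RR n (aa n) : ℝ)]

theorem two_div_LL' (n : ℕ) : (2 : ℝ) / LL n ≤ 1 / (2 * (n + 1)) := by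
  have h1 : (4 : ℝ) ≤ DD n (aa n) := by exact_mod_cast DD_ge n
  have : (0 : ℝ) ≤ n := Nat.cast_nonneg n
  rw [LL_eq, div_le_div_iff₀ (by positivity) (by positivity)]
  nlinarith

/-- Coordinate space of stage `n`. -/
abbrev Xi (n : ℕ) : Type := Fin (NN n) → Option (Fin (LL n))

/-- Expectation in the coordinate of stage `n`. -/
noncomputable def W (n : ℕ) (F : Xi n → ℝ) : ℝ := Ex (pr (LL n)) F

theorem prn (n : ℕ) : ∀ b, 0 ≤ pr (LL n) b := pr_nonneg (two_le_LL n)

instance (n : ℕ) : Nonempty (Fin (NN n)) := ⟨⟨0, NN_pos n⟩⟩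

theorem W_val (n : ℕ) (j : Fin (NN n)) : W n (fun ξ => val (ξ j)) = 1 := by
  unfold W
  rw [Ex_single pr_sum val j, mean_val (by have := two_le_LL n; omega)]

theorem W_l1 (n : ℕ) (u : ℝ) (r : Fin (NN n) → ℝ) :
    ∑ j, |r j| ≤ 4 * (n + 1) * W n (fun ξ => |u + ∑ j, r j * val (ξ j)|) := by
  have hn : (0 : ℝ) ≤ n := Nat.cast_nonneg n
  have hL : (0 : ℝ) < LL n := by have := two_le_LL n; exact_mod_cast (by omega : 0 < LL n)
  have h1 := pr_top (L := LL n) (KK n)
  have h2 := two_div_LL' n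
  have h3 : (1 / 2 : ℝ) ^ KK n ≤ 1 := pow_le_one₀ (by norm_num) (by norm_num)
  have h := l1_lower (prn n) pr_sum val (mean_val (by have := two_le_LL n; omega)) (top (KK n))
    (top_cases _) (c := 2 * (n + 1)) (by positivity) (ι := Fin (NN n)) ?_ ?_ u r
  · unfold W; linarith
  · rw [Fintype.card_fin]
    have h4 : (NN n : ℝ) = 2 ^ KK n := by unfold NN; push_cast; rfl
    rw [h4]
    calc (2 : ℝ) ^ KK n * ∑ b, pr (LL n) b * top (KK n) b ≤
          2 ^ KK n * (2 * (1 / 2) ^ KK n / LL n) := by gcongr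
      _ = 2 * ((1 / 2) ^ KK n * 2 ^ KK n) / LL n := by ring
      _ = 2 / LL n := by rw [half_mul, mul_one]
      _ ≤ 1 / (2 * (n + 1)) := h2
      _ ≤ 1 / 2 := by
        refine one_div_le_one_div_of_le (by norm_num) (by linarith)
  · rw [mean_top (KK n) (DD n (aa n)) (by unfold LL; rfl)]
    have hD : (0 : ℝ) < DD n (aa n) := by
      have := DD_ge n; exact_mod_cast (by omega : 0 < DD n (aa n))
    have h5 : (DD n (aa n) : ℝ) / LL n = 2 * (1 / (2 * (n + 1))) := by
      rw [LL_eq]; field_simp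
    have h6 : 2 * (1 / 2 : ℝ) ^ KK n / LL n ≤ 2 / LL n := by gcongr; linarith
    linarith

theorem W_conc (n : ℕ) (σ : Fin (NN n) → ℝ) (hσ : ∀ j, 0 ≤ σ j) :
    ∃ (m : Fin (NN n) → ℝ) (good : Xi n → ℝ), (∀ ξ, 0 ≤ good ξ ∧ good ξ ≤ 1) ∧
      1 - (1 / RR n (aa n)) ^ 2 ≤ W n good ∧ ∀ r : Fin (NN n) → ℝ, (∀ j, |r j| ≤ σ j) →
        W n (fun ξ => good ξ * |∑ j, r j * (val (ξ j) - m j)|) ≤ 1 / RR n (aa n) * ∑ j, σ j :=
  conc (prn n) pr_sum val (by positivity)
    (fun σ τ h1 h2 => (val_big σ τ h1 h2).trans (mul_le_mul_of_nonneg_right (two_div_LL n) h1))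
    (fun σ τ h1 h2 => (val_small σ τ h1 h2).trans (mul_le_mul_of_nonneg_right (two_div_LL n) h2))
    σ hσ

theorem W_lln (n : ℕ) :
    W n (fun ξ => |(∑ j, (NN n : ℝ)⁻¹ * val (ξ j)) - 1|) ≤ 3 / (n + 1) := by
  have hn : (0 : ℝ) ≤ n := Nat.cast_nonneg n
  have h := lln (ι := Fin (NN n)) (prn n) pr_sum val val_nonneg
    (mean_val (by have := two_le_LL n; omega)) (top (KK n)) (top_cases _)
    (γ := 1 / RR n (aa n)) (by positivity) ?_
  · rw [mean_top (KK n) (DD n (aa n)) (by unfold LL; rfl), Fintype.card_fin] at h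
    have hD : (0 : ℝ) < DD n (aa n) := by
      have := DD_ge n; exact_mod_cast (by omega : 0 < DD n (aa n))
    have h5 : (DD n (aa n) : ℝ) / LL n = 1 / (n + 1) := by
      rw [LL_eq]; field_simp
    have h6 : (1 : ℝ) / RR n (aa n) ≤ 1 / (n + 1) := by
      refine one_div_le_one_div_of_le (by positivity) ?_
      have := RR_ge' n
      exact_mod_cast (by omega : n + 1 ≤ RR n (aa n))
    have h7 : (3 : ℝ) / (n + 1) = 3 * (1 / (n + 1)) := by ring
    unfold W; linarith
  · refine (var_low (KK n)).trans ?_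
    have h4 : (NN n : ℝ) = 2 ^ KK n := by unfold NN; push_cast; rfl
    rw [Fintype.card_fin, h4, mul_div_right_comm]
    exact mul_le_mul_of_nonneg_right (two_div_LL n) (by positivity)

theorem W_top (n : ℕ) (j : Fin (NN n)) : W n (fun ξ => top 0 (ξ j)) ≤ 1 / (n + 1) := by
  unfold W
  rw [Ex_single pr_sum (top 0) j]
  refine (pr_top 0).trans ?_
  have hn : (0 : ℝ) ≤ n := Nat.cast_nonneg n
  rw [pow_zero, mul_one]
  exact (two_div_LL' n).trans (one_div_le_one_div_of_le (by positivity) (by linarith))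

/-- The product space. -/
abbrev Om : Type := (n : ℕ) → Xi n

/-- Atoms before stage `n`. -/
def At : ℕ → Type
  | 0 => Unit
  | n + 1 => At n × Xi n

instance instFintypeAt : (n : ℕ) → Fintype (At n)
  | 0 => inferInstanceAs (Fintype Unit)
  | n + 1 => letI := instFintypeAt n; inferInstanceAs (Fintype (At n × Xi n))

theorem sum_At_succ (n : ℕ) (F : At (n + 1) → ℝ) :
    ∑ a, F a = ∑ a : At n, ∑ ξ : Xi n, F (a, ξ) :=
  Fintype.sum_prod_type (α₁ := At n) (α₂ := Xi n) F

theorem card_At (n : ℕ) : Fintype.card (At n) = aa n := by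
  induction n with
  | zero => unfold aa; rfl
  | succ n ih =>
    rw [aa_succ, ← ih]
    have h : Fintype.card (At (n + 1)) = Fintype.card (At n) * Fintype.card (Xi n) :=
      Fintype.card_prod (At n) (Xi n)
    rw [h]
    simp

/-- Weight of an atom. -/
noncomputable def wt : (n : ℕ) → At n → ℝ
  | 0, _ => 1
  | n + 1, a => wt n a.1 * ∏ j, pr (LL n) (a.2 j)

/-- A point in an atom. -/
def pt : (n : ℕ) → At n → Om
  | 0, _ => fun _ _ => none
  | n + 1, a => update (pt n a.1) n a.2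

theorem wt_nonneg (n : ℕ) (a : At n) : 0 ≤ wt n a := by
  induction n with
  | zero => exact zero_le_one
  | succ n ih => exact mul_nonneg (ih a.1) (Finset.prod_nonneg fun j _ => prn n _)

/-- Expectation over the first `n` coordinates. -/
noncomputable def E (n : ℕ) (φ : Om → ℝ) : ℝ := ∑ a : At n, wt n a * φ (pt n a)

theorem E_succ (n : ℕ) (φ : Om → ℝ) :
    E (n + 1) φ = E n (fun ω => W n (fun ξ => φ (update ω n ξ))) := by
  unfold E
  rw [sum_At_succ]
  refine Finset.sum_congr rfl fun a _ => ?_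
  unfold W Ex
  rw [Finset.mul_sum]
  refine Finset.sum_congr rfl fun ξ _ => ?_
  simp only [wt, pt]; ring

theorem E_add (n : ℕ) (φ ψ : Om → ℝ) : E n (fun ω => φ ω + ψ ω) = E n φ + E n ψ := by
  simp only [E, mul_add, Finset.sum_add_distrib]

theorem E_sub (n : ℕ) (φ ψ : Om → ℝ) : E n (fun ω => φ ω - ψ ω) = E n φ - E n ψ := by
  simp only [E, mul_sub, Finset.sum_sub_distrib]

theorem E_mul (n : ℕ) (c : ℝ) (φ : Om → ℝ) : E n (fun ω => c * φ ω) = c * E n φ := by
  simp only [E, Finset.mul_sum]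
  exact Finset.sum_congr rfl fun ξ _ => by ring

theorem E_sum (n : ℕ) {κ : Type} (s : Finset κ) (φ : κ → Om → ℝ) :
    E n (fun ω => ∑ k ∈ s, φ k ω) = ∑ k ∈ s, E n (φ k) := by
  simp only [E, Finset.mul_sum]
  exact Finset.sum_comm

theorem E_mono (n : ℕ) {φ ψ : Om → ℝ} (h : ∀ ω, φ ω ≤ ψ ω) : E n φ ≤ E n ψ :=
  Finset.sum_le_sum fun a _ => mul_le_mul_of_nonneg_left (h _) (wt_nonneg n a)

theorem E_nonneg (n : ℕ) {φ : Om → ℝ} (h : ∀ ω, 0 ≤ φ ω) : 0 ≤ E n φ :=
  Finset.sum_nonneg fun a _ => mul_nonneg (wt_nonneg n a) (h _)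

theorem atom_le (n : ℕ) {φ : Om → ℝ} (h : ∀ ω, 0 ≤ φ ω) (a : At n) :
    wt n a * φ (pt n a) ≤ E n φ :=
  Finset.single_le_sum (f := fun a => wt n a * φ (pt n a))
    (fun a _ => mul_nonneg (wt_nonneg n a) (h _)) (Finset.mem_univ a)

theorem exists_atom (n : ℕ) (φ : Om → ℝ) : ∃ a : At n, E n φ ≤ aa n * (wt n a * φ (pt n a)) := by
  have hne : (Finset.univ : Finset (At n)).Nonempty := by
    rw [← Finset.card_pos, Finset.card_univ, card_At]; exact aa_pos n
  obtain ⟨a, -, ha⟩ := Finset.exists_max_image Finset.univ (fun a => wt n a * φ (pt n a)) hne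
  refine ⟨a, ?_⟩
  have := Finset.sum_le_card_nsmul Finset.univ _ _ ha
  rwa [Finset.card_univ, card_At, nsmul_eq_mul] at this

theorem E_const (n : ℕ) (c : ℝ) : E n (fun _ => c) = c := by
  induction n with
  | zero =>
    have : E 0 (fun _ => c) = ∑ _a : Unit, 1 * c := rfl
    rw [this]; simp
  | succ n ih =>
    rw [E_succ]
    simp only [W, Ex_const pr_sum, ih]

/-- The function does not depend on the coordinates `≥ n`. -/
def Dep {γ : Type} (n : ℕ) (φ : Om → γ) : Prop :=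
  ∀ m, n ≤ m → ∀ (ω : Om) (ξ : Xi m), φ (update ω m ξ) = φ ω

theorem Dep.mono {γ : Type} {n m : ℕ} {φ : Om → γ} (h : Dep n φ) (hm : n ≤ m) : Dep m φ :=
  fun k hk => h k (hm.trans hk)

theorem Dep.comp {γ δ : Type} {n : ℕ} {φ : Om → γ} (h : Dep n φ) (g : γ → δ) :
    Dep n (fun ω => g (φ ω)) := fun m hm ω ξ => by simp only [h m hm]

theorem Dep.comp₂ {γ γ' δ : Type} {n : ℕ} {φ : Om → γ} {ψ : Om → γ'} (h : Dep n φ) (h' : Dep n ψ)
    (g : γ → γ' → δ) : Dep n (fun ω => g (φ ω) (ψ ω)) :=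
  fun m hm ω ξ => by simp only [h m hm, h' m hm]

theorem dep_coord {γ : Type} (n : ℕ) (F : Xi n → γ) : Dep (n + 1) (fun ω => F (ω n)) :=
  fun m hm ω ξ => by
    have : n ≠ m := by omega
    simp only [update_of_ne this]

theorem Dep.E_eq {n m : ℕ} {φ : Om → ℝ} (h : Dep n φ) (hm : n ≤ m) : E m φ = E n φ := by
  induction m, hm using Nat.le_induction with
  | base => rfl
  | succ m hm ih =>
    rw [E_succ, ← ih]
    simp only [h m hm, W, Ex_const pr_sum]

theorem Dep.E_coord {n : ℕ} {φ : Om → ℝ} (h : Dep n φ) (F : Xi n → ℝ) :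
    E (n + 1) (fun ω => φ ω * F (ω n)) = W n F * E n φ := by
  rw [E_succ, ← E_mul]
  congr 1
  funext ω
  simp only [h n le_rfl, update_self, W, Ex_mul]
  ring

end Pool.Agent.Lib.MP_67dc8a_an
end

-- part Pool.Agent.Lib.MP_67dc8a_an.Step
section

/-!
The spaces `XX n`, approximation in measure by earlier stages, and the resulting corner estimate.
-/

namespace Pool.Agent.Lib.MP_67dc8a_an

open Finset Function

/-- A non-Euclidean real norm on `ℂ`. -/
noncomputable def rho (a : ℂ) : ℝ := |a.re| + |a.im|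

theorem rho_nonneg (a : ℂ) : 0 ≤ rho a := add_nonneg (abs_nonneg _) (abs_nonneg _)

theorem rho_add (a b : ℂ) : rho (a + b) ≤ rho a + rho b := by
  unfold rho
  have h1 := abs_add_le a.re b.re
  have h2 := abs_add_le a.im b.im
  simp only [Complex.add_re, Complex.add_im]; linarith

theorem rho_neg (a : ℂ) : rho (-a) = rho a := by simp [rho]

theorem rho_real (t : ℝ) (a : ℂ) : rho (t * a) = |t| * rho a := by
  simp [rho, abs_mul, mul_add]

theorem norm_le_rho (a : ℂ) : ‖a‖ ≤ rho a := Complex.norm_le_abs_re_add_abs_im a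

theorem rho_le (a : ℂ) : rho a ≤ 2 * ‖a‖ := by
  have h1 := Complex.abs_re_le_norm a
  have h2 := Complex.abs_im_le_norm a
  unfold rho; linarith

theorem rho_mul_le (z a : ℂ) : rho (z * a) ≤ 2 * ‖z‖ * rho a := by
  refine (rho_le _).trans ?_
  rw [norm_mul, mul_assoc]
  exact mul_le_mul_of_nonneg_left (mul_le_mul_of_nonneg_left (norm_le_rho a) (norm_nonneg _))
    (by norm_num)

theorem rho_le_sub (a b : ℂ) : rho a ≤ rho b + rho (a - b) := by
  have := rho_add b (a - b)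
  rwa [add_sub_cancel] at this

theorem rho_sub_comm (a b : ℂ) : rho (a - b) = rho (b - a) := by rw [← rho_neg, neg_sub]

/-- The finite-dimensional spaces of the tower. -/
noncomputable def XX : ℕ → Submodule ℂ (Om → ℂ)
  | 0 => Submodule.span ℂ {fun _ => 1}
  | n + 1 =>
    { carrier := {G | ∃ u ∈ XX n, ∃ v : Fin (NN n) → Om → ℂ, (∀ j, v j ∈ XX n) ∧
        ∀ ω, G ω = u ω + ∑ j, v j ω * (val (ω n j) : ℝ)}
      zero_mem' := ⟨0, zero_mem _, 0, fun _ => zero_mem _, fun ω => by simp⟩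
      add_mem' := by
        rintro G G' ⟨u, hu, v, hv, h⟩ ⟨u', hu', v', hv', h'⟩
        refine ⟨u + u', add_mem hu hu', v + v', fun j => add_mem (hv j) (hv' j), fun ω => ?_⟩
        simp only [Pi.add_apply, h, h', add_mul, Finset.sum_add_distrib]
        ring
      smul_mem' := by
        rintro c G ⟨u, hu, v, hv, h⟩
        refine ⟨c • u, Submodule.smul_mem _ c hu, c • v,
          fun j => Submodule.smul_mem _ c (hv j), fun ω => ?_⟩
        simp only [Pi.smul_apply, smul_eq_mul, h, mul_add, Finset.mul_sum, mul_assoc] }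

theorem mem_XX_succ {n : ℕ} {G : Om → ℂ} : G ∈ XX (n + 1) ↔
    ∃ u ∈ XX n, ∃ v : Fin (NN n) → Om → ℂ, (∀ j, v j ∈ XX n) ∧
      ∀ ω, G ω = u ω + ∑ j, v j ω * (val (ω n j) : ℝ) := Iff.rfl

theorem XX_le_succ (n : ℕ) : XX n ≤ XX (n + 1) := fun G hG =>
  mem_XX_succ.mpr ⟨G, hG, 0, fun _ => zero_mem _, fun ω => by simp⟩

theorem XX_mono : Monotone XX := monotone_nat_of_le_succ XX_le_succ

theorem one_mem_XX (n : ℕ) : (fun _ => 1 : Om → ℂ) ∈ XX n :=
  XX_mono (Nat.zero_le n) (Submodule.subset_span rfl)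

theorem mul_mem_XX {n : ℕ} {x : Om → ℂ} (hx : x ∈ XX n) (c : Fin (NN n) → ℝ) :
    (fun ω => x ω * ((∑ j, c j * val (ω n j) : ℝ) : ℂ)) ∈ XX (n + 1) := by
  refine mem_XX_succ.mpr ⟨0, zero_mem _, fun j => (c j : ℂ) • x,
    fun j => Submodule.smul_mem _ _ hx, fun ω => ?_⟩
  simp only [Pi.zero_apply, zero_add, Pi.smul_apply, smul_eq_mul]
  push_cast
  rw [Finset.mul_sum]
  exact Finset.sum_congr rfl fun j _ => by ring

theorem XX_dep {n : ℕ} {G : Om → ℂ} (hG : G ∈ XX n) : Dep n G := by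
  induction n generalizing G with
  | zero =>
    obtain ⟨c, rfl⟩ := Submodule.mem_span_singleton.mp hG
    intro m _ ω ξ
    rfl
  | succ n ih =>
    obtain ⟨u, hu, v, hv, h⟩ := mem_XX_succ.mp hG
    intro m hm ω ξ
    have hne : n ≠ m := by omega
    have hm' : n ≤ m := by omega
    rw [h, h, ih hu m hm', update_of_ne hne]
    congr 1
    exact Finset.sum_congr rfl fun j _ => by rw [ih (hv j) m hm']

/-- Error of stage `n`. -/
noncomputable def del (n : ℕ) : ℝ := 1 / (10000 * (aa n : ℝ) ^ 2)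

theorem one_le_aa (n : ℕ) : (1 : ℝ) ≤ aa n := by exact_mod_cast aa_pos n

theorem del_pos (n : ℕ) : 0 < del n := by
  have := one_le_aa n
  unfold del; positivity

theorem del_le (n : ℕ) : del n ≤ 1 / 10000 := by
  have := one_le_aa n
  unfold del
  exact one_div_le_one_div_of_le (by norm_num) (by nlinarith)

theorem one_step {n : ℕ} {G : Om → ℂ} (hG : G ∈ XX (n + 1)) :
    ∃ G' ∈ XX n, ∃ good : Xi n → ℝ, (∀ ξ, 0 ≤ good ξ ∧ good ξ ≤ 1) ∧ 1 - del n ≤ W n good ∧
      E (n + 1) (fun ω => good (ω n) * rho (G ω - G' ω)) ≤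
        del n * E (n + 1) (fun ω => rho (G ω)) := by
  obtain ⟨u, hu, v, hv, h⟩ := mem_XX_succ.mp hG
  have ha := one_le_aa n
  have hn : (0 : ℝ) ≤ n := Nat.cast_nonneg n
  have hR : (RR n (aa n) : ℝ) = 80000 * (n + 1) * (aa n : ℝ) ^ 3 := by unfold RR; push_cast; ring
  have hupd : ∀ (ω : Om) (ξ : Xi n), G (update ω n ξ) = u ω + ∑ j, v j ω * (val (ξ j) : ℝ) := by
    intro ω ξ
    rw [h, XX_dep hu n le_rfl, update_self]
    congr 1
    exact Finset.sum_congr rfl fun j _ => by rw [XX_dep (hv j) n le_rfl]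
  let σ : Fin (NN n) → ℝ := fun j => E n (fun ω => rho (v j ω))
  have hσ : ∀ j, 0 ≤ σ j := fun j => E_nonneg n fun ω => rho_nonneg _
  have hS : ∑ j, σ j ≤ 4 * (n + 1) * E (n + 1) (fun ω => rho (G ω)) := by
    rw [E_succ, ← E_mul, ← E_sum]
    refine E_mono n fun ω => ?_
    have h1 := W_l1 n (u ω).re (fun j => (v j ω).re)
    have h2 := W_l1 n (u ω).im (fun j => (v j ω).im)
    have h3 : W n (fun ξ => rho (G (update ω n ξ))) =
        W n (fun ξ => |(u ω).re + ∑ j, (v j ω).re * val (ξ j)|) +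
          W n (fun ξ => |(u ω).im + ∑ j, (v j ω).im * val (ξ j)|) := by
      unfold W
      rw [← Ex_add]
      congr 1
      funext ξ
      simp [hupd, rho]
    simp only [rho, Finset.sum_add_distrib] at h3 ⊢
    rw [h3]; linarith
  obtain ⟨m, good, hg, hW, hr⟩ := W_conc n σ hσ
  have hh : (1 : ℝ) / RR n (aa n) ≤ del n := by
    unfold del
    refine one_div_le_one_div_of_le (by positivity) ?_
    have h1 : ((80000 * (n + 1) * aa n ^ 2 : ℕ) : ℝ) ≤ RR n (aa n) := by exact_mod_cast RR_ge n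
    push_cast at h1
    nlinarith [sq_nonneg (aa n : ℝ)]
  have hh0 : (0 : ℝ) ≤ 1 / RR n (aa n) := by positivity
  have hG' : u + ∑ j, (m j : ℂ) • v j ∈ XX n :=
    add_mem hu (Submodule.sum_mem _ fun j _ => Submodule.smul_mem _ _ (hv j))
  refine ⟨u + ∑ j, (m j : ℂ) • v j, hG', good, hg, ?_, ?_⟩
  · have := del_le n
    nlinarith
  · rw [E_succ]
    have h1 : ∀ a : At n, wt n a * W n (fun ξ => good ((update (pt n a) n ξ) n) *
        rho (G (update (pt n a) n ξ) - (u + ∑ j, (m j : ℂ) • v j) (update (pt n a) n ξ))) ≤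
        2 * (1 / RR n (aa n) * ∑ j, σ j) := by
      intro a
      have hw := wt_nonneg n a
      have hb : ∀ j, wt n a * rho (v j (pt n a)) ≤ σ j := fun j =>
        atom_le n (φ := fun ω => rho (v j ω)) (fun ω => rho_nonneg _) a
      have h2 := hr (fun j => wt n a * (v j (pt n a)).re) fun j => by
        refine le_trans ?_ (hb j)
        rw [abs_mul, abs_of_nonneg hw]
        exact mul_le_mul_of_nonneg_left (le_add_of_nonneg_right (abs_nonneg _)) hw
      have h3 := hr (fun j => wt n a * (v j (pt n a)).im) fun j => by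
        refine le_trans ?_ (hb j)
        rw [abs_mul, abs_of_nonneg hw]
        exact mul_le_mul_of_nonneg_left (le_add_of_nonneg_left (abs_nonneg _)) hw
      refine le_trans (le_of_eq ?_) ((add_le_add h2 h3).trans (le_of_eq (by ring)))
      unfold W
      rw [← Ex_add, ← Ex_mul]
      congr 1
      funext ξ
      rw [hupd, XX_dep hG' n le_rfl, update_self]
      have h4 : u (pt n a) + ∑ j, v j (pt n a) * (val (ξ j) : ℝ) -
          (u + ∑ j, (m j : ℂ) • v j) (pt n a) =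
          ∑ j, v j (pt n a) * ((val (ξ j) - m j : ℝ) : ℂ) := by
        simp only [Pi.add_apply, Finset.sum_apply, Pi.smul_apply, smul_eq_mul]
        push_cast
        simp only [mul_sub, Finset.sum_sub_distrib, mul_comm (m _ : ℂ)]
        ring
      rw [h4]
      simp only [rho, Complex.re_sum, Complex.im_sum, Complex.mul_re, Complex.mul_im,
        Complex.ofReal_re, Complex.ofReal_im, mul_zero, sub_zero, zero_add, mul_assoc,
        ← Finset.mul_sum, abs_mul, abs_of_nonneg hw]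
      ring
    refine (Finset.sum_le_sum fun a _ => h1 a).trans ?_
    rw [Finset.sum_const, Finset.card_univ, card_At, nsmul_eq_mul]
    calc (aa n : ℝ) * (2 * (1 / RR n (aa n) * ∑ j, σ j)) ≤
          aa n * (2 * (1 / RR n (aa n) * (4 * (n + 1) * E (n + 1) (fun ω => rho (G ω))))) := by
          gcongr
      _ = del n * E (n + 1) (fun ω => rho (G ω)) := by
          rw [hR]; unfold del; field_simp; ring

theorem iter_step {n N : ℕ} (hN : n ≤ N) : ∀ G ∈ XX N, ∃ G' ∈ XX n, ∃ β : Om → ℝ, Dep N β ∧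
    (∀ ω, 0 ≤ β ω ∧ β ω ≤ 1) ∧
    (∀ φ : Om → ℝ, Dep n φ → (∀ ω, 0 ≤ φ ω) →
      (1 - 3 * (del n - del N)) * E n φ ≤ E N (fun ω => β ω * φ ω)) ∧
    E N (fun ω => β ω * rho (G ω - G' ω)) ≤ 3 * (del n - del N) * E N (fun ω => rho (G ω)) := by
  induction N, hN using Nat.le_induction with
  | base =>
    intro G hG
    refine ⟨G, hG, fun _ => 1, fun _ _ _ _ => rfl, fun _ => by norm_num, fun φ _ _ => by simp, ?_⟩
    simp [rho, E_const]
  | succ N hN ih =>
    intro G hG
    obtain ⟨G1, hG1, good, hg, hW, hE⟩ := one_step hG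
    obtain ⟨G', hG', β, hβ, hβ01, hφ, hE'⟩ := ih G1 hG1
    have hd0 := del_pos N
    have hd1 := del_pos (N + 1)
    have hdn := del_le n
    have hdN := del_le N
    have hquart : 4 * del (N + 1) ≤ del N := by
      have h1 : ((2 * aa N : ℕ) : ℝ) ≤ aa (N + 1) := by exact_mod_cast aa_double N
      push_cast at h1
      have h2 := one_le_aa N
      have h3 := one_le_aa (N + 1)
      unfold del
      rw [mul_one_div, div_le_div_iff₀ (by positivity) (by positivity)]
      nlinarith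
    have hmono : del N ≤ del n := by
      have h1 : (aa n : ℝ) ≤ aa N := by
        exact_mod_cast (monotone_nat_of_le_succ fun k => by have := aa_double k; omega) hN
      have h2 := one_le_aa n
      unfold del
      exact one_div_le_one_div_of_le (by positivity) (by nlinarith)
    set e := 3 * (del n - del N) with he
    have he0 : 0 ≤ e := by linarith
    have he1 : e ≤ 1 / 1000 := by linarith
    refine ⟨G', hG', fun ω => β ω * good (ω N),
      (hβ.mono (Nat.le_succ N)).comp₂ (dep_coord N good) (· * ·), fun ω => ?_, fun φ h1 h2 => ?_,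
      ?_⟩
    · exact ⟨mul_nonneg (hβ01 ω).1 (hg _).1, mul_le_one₀ (hβ01 ω).2 (hg _).1 (hg _).2⟩
    · have h3 := (hβ.comp₂ (h1.mono hN) (· * ·)).E_coord good
      have h4 : (fun ω => β ω * good (ω N) * φ ω) = fun ω => β ω * φ ω * good (ω N) := by
        funext ω; ring
      rw [h4, h3]
      have h5 := hφ φ h1 h2
      have h6 := E_nonneg n h2
      calc (1 - 3 * (del n - del (N + 1))) * E n φ ≤ ((1 - del N) * (1 - e)) * E n φ := by
            refine mul_le_mul_of_nonneg_right ?_ h6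
            nlinarith
        _ = (1 - del N) * ((1 - e) * E n φ) := by ring
        _ ≤ W N good * E N (fun ω => β ω * φ ω) :=
            mul_le_mul hW h5 (mul_nonneg (by linarith) h6) (by linarith)
    · set r := E (N + 1) (fun ω => rho (G ω)) with hr
      set r1 := E N (fun ω => rho (G1 ω)) with hr1
      have hr0 : 0 ≤ r := E_nonneg _ fun _ => rho_nonneg _
      have hr10 : 0 ≤ r1 := E_nonneg _ fun _ => rho_nonneg _
      have h1 : (1 - del N) * r1 ≤ (1 + del N) * r := by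
        have h2 := ((XX_dep hG1).comp rho).E_coord good
        have h3 : E (N + 1) (fun ω => rho (G1 ω) * good (ω N)) ≤
            E (N + 1) (fun ω => rho (G ω) + good (ω N) * rho (G ω - G1 ω)) := by
          refine E_mono _ fun ω => ?_
          have h4 := rho_le_sub (G1 ω) (G ω)
          rw [rho_sub_comm] at h4
          have h5 := rho_nonneg (G ω)
          nlinarith [(hg (ω N)).1, (hg (ω N)).2]
        rw [E_add, h2] at h3
        nlinarith
      have h2 : r1 ≤ 2 * r := by nlinarith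
      have h3 : r1 ≤ (1 + 3 * del N) * r := by nlinarith
      have h4 : E (N + 1) (fun ω => β ω * good (ω N) * rho (G ω - G' ω)) ≤
          E (N + 1) (fun ω => good (ω N) * rho (G ω - G1 ω) + β ω * rho (G1 ω - G' ω)) := by
        refine E_mono _ fun ω => ?_
        have h5 := rho_add (G ω - G1 ω) (G1 ω - G' ω)
        rw [sub_add_sub_cancel] at h5
        have h6 := rho_nonneg (G ω - G1 ω)
        have h7 := rho_nonneg (G1 ω - G' ω)
        obtain ⟨b0, b1⟩ := hβ01 ω
        obtain ⟨g0, g1⟩ := hg (ω N)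
        calc β ω * good (ω N) * rho (G ω - G' ω) ≤
              β ω * good (ω N) * (rho (G ω - G1 ω) + rho (G1 ω - G' ω)) :=
              mul_le_mul_of_nonneg_left h5 (mul_nonneg b0 g0)
          _ = β ω * (good (ω N) * rho (G ω - G1 ω)) + good (ω N) * (β ω * rho (G1 ω - G' ω)) := by
              ring
          _ ≤ _ := add_le_add (mul_le_of_le_one_left (mul_nonneg g0 h6) b1)
              (mul_le_of_le_one_left (mul_nonneg b0 h7) g1)
      have h5 : E (N + 1) (fun ω => β ω * rho (G1 ω - G' ω)) =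
          E N (fun ω => β ω * rho (G1 ω - G' ω)) :=
        (hβ.comp₂ ((XX_dep hG1).comp₂ ((XX_dep hG').mono hN) (fun a b => rho (a - b)))
          (· * ·)).E_eq (Nat.le_succ N)
      rw [E_add, h5] at h4
      have h6 : e * r1 ≤ e * ((1 + 3 * del N) * r) := mul_le_mul_of_nonneg_left h3 he0
      have h7 : del N + e * (1 + 3 * del N) ≤ 3 * (del n - del (N + 1)) := by nlinarith
      have h8 := mul_le_mul_of_nonneg_right h7 hr0
      nlinarith

/-- Second difference of `rho` along a tangent direction. -/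
noncomputable def Del (θ : ℂ) (s : ℝ) (b : ℂ) : ℝ :=
  rho (θ * (1 + s * Complex.I) * b) + rho (θ * (1 - s * Complex.I) * b) - 2 * rho (θ * b)

theorem Del_nonneg (θ : ℂ) (s : ℝ) (b : ℂ) : 0 ≤ Del θ s b := by
  have h := rho_add (θ * (1 + s * Complex.I) * b) (θ * (1 - s * Complex.I) * b)
  have h2 : θ * (1 + s * Complex.I) * b + θ * (1 - s * Complex.I) * b = (2 : ℝ) * (θ * b) := by
    push_cast; ring
  rw [h2, rho_real] at h
  unfold Del
  norm_num at h
  linarith

theorem norm_tang (s : ℝ) : ‖(1 + s * Complex.I : ℂ)‖ ≤ 1 + s ^ 2 / 2 := by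
  refine (abs_le_of_sq_le_sq' ?_ (by positivity)).2
  rw [Complex.sq_norm, Complex.normSq_apply]
  simp only [Complex.add_re, Complex.one_re, Complex.mul_re, Complex.ofReal_re, Complex.I_re,
    mul_zero, Complex.ofReal_im, Complex.I_im, mul_one, sub_self, add_zero, Complex.add_im,
    Complex.one_im, Complex.mul_im, zero_add]
  nlinarith [sq_nonneg (s ^ 2)]

theorem norm_tang' (s : ℝ) : ‖(1 - s * Complex.I : ℂ)‖ ≤ 1 + s ^ 2 / 2 := by
  have := norm_tang (-s)
  push_cast at this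
  rwa [neg_mul, ← sub_eq_add_neg, neg_sq] at this

theorem Del_lip {θ : ℂ} (hθ : ‖θ‖ = 1) {s : ℝ} (hs : |s| ≤ 1) (b b' : ℂ) :
    Del θ s b' ≤ Del θ s b + 12 * rho (b - b') := by
  have hs2 : s ^ 2 ≤ 1 := by rw [← sq_abs]; exact pow_le_one₀ (abs_nonneg _) hs
  have key : ∀ z : ℂ, ‖z‖ ≤ 2 → ∀ c c' : ℂ, rho (z * c') ≤ rho (z * c) + 4 * rho (c - c') := by
    intro z hz c c'
    have h1 := rho_le_sub (z * c') (z * c)
    rw [← mul_sub] at h1
    have h2 := rho_mul_le z (c' - c)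
    rw [rho_sub_comm c' c] at h2
    nlinarith [rho_nonneg (c - c')]
  have h1 := key (θ * (1 + s * Complex.I))
    (by rw [norm_mul, hθ, one_mul]; linarith [norm_tang s]) b b'
  have h2 := key (θ * (1 - s * Complex.I))
    (by rw [norm_mul, hθ, one_mul]; linarith [norm_tang' s]) b b'
  have h3 := rho_le_sub (θ * b) (θ * b')
  rw [← mul_sub] at h3
  have h4 := rho_mul_le θ (b - b')
  rw [hθ] at h4
  unfold Del
  linarith

theorem exists_corner (b : ℂ) : ∃ θ : ℂ, ‖θ‖ = 1 ∧ ∀ s : ℝ, 0 ≤ s → s * rho b ≤ Del θ s b := by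
  obtain ⟨θ, hθ, hb⟩ : ∃ θ : ℂ, ‖θ‖ = 1 ∧ θ * b = (‖b‖ : ℂ) := by
    obtain ⟨θ, h1, h2⟩ := Complex.exists_norm_eq_mul_self b
    exact ⟨θ, h1, h2.symm⟩
  refine ⟨θ, hθ, fun s hs => ?_⟩
  have h1 : ∀ z : ℂ, θ * z * b = (‖b‖ : ℝ) * z := by
    intro z; rw [mul_right_comm, hb]
  have h2 := h1 1
  rw [mul_one] at h2
  unfold Del
  rw [h1, h1, h2, rho_real, rho_real, rho_real, abs_norm]
  have h3 := rho_le b
  simp only [rho, Complex.add_re, Complex.one_re, Complex.mul_re, Complex.ofReal_re, Complex.I_re,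
    mul_zero, Complex.ofReal_im, Complex.I_im, mul_one, sub_self, add_zero, Complex.add_im,
    Complex.one_im, Complex.mul_im, zero_add, Complex.sub_re, Complex.sub_im, sub_zero, zero_sub,
    abs_neg, abs_one, abs_zero, abs_of_nonneg hs] at h3 ⊢
  nlinarith

/-- Corner estimate: an element of the tower that is close to a large element of stage `n` has a
corner of a size that only depends on `n`. -/
theorem corner {n N : ℕ} (hN : n ≤ N) {u G : Om → ℂ} (hu : u ∈ XX n) (hG : G ∈ XX N)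
    (h1 : 9 / 10 ≤ E N (fun ω => rho (G ω))) (h2 : E N (fun ω => rho (G ω)) ≤ 2)
    (h3 : E N (fun ω => rho (G ω - u ω)) ≤ 1 / 10) :
    ∃ θ : ℂ, ‖θ‖ = 1 ∧ (1 / (8 * (aa n : ℝ))) ^ 2 + 1 / (200 * (aa n : ℝ) ^ 2) ≤
      E N (fun ω => Del θ (1 / (8 * (aa n : ℝ))) (G ω)) := by
  obtain ⟨G', hG', β, hβ, hβ01, hφ, hE⟩ := iter_step hN G hG
  have ha := one_le_aa n
  have hd0 := del_pos N
  have hd1 := del_pos n
  have hdn := del_le n
  set s : ℝ := 1 / (8 * (aa n : ℝ)) with hs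
  have hs0 : 0 < s := by positivity
  have hs1 : |s| ≤ 1 := by
    rw [abs_of_pos hs0, hs, div_le_one (by positivity)]; linarith
  have hE2 : E N (fun ω => β ω * rho (G ω - G' ω)) ≤ 6 * del n := by
    have := E_nonneg N (φ := fun ω => rho (G ω)) fun _ => rho_nonneg _
    nlinarith
  have hu1 : 8 / 10 ≤ E n (fun ω => rho (u ω)) := by
    rw [← ((XX_dep hu).comp rho).E_eq hN]
    have := E_mono N (φ := fun ω => rho (G ω)) (ψ := fun ω => rho (u ω) + rho (G ω - u ω))
      fun ω => rho_le_sub _ _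
    rw [E_add] at this
    linarith
  have hG1 : 6 / 10 ≤ E n (fun ω => rho (G' ω)) := by
    rw [← ((XX_dep hG').comp rho).E_eq hN]
    have h4 := hφ _ ((XX_dep hu).comp rho) fun _ => rho_nonneg _
    have h5 := E_mono N (φ := fun ω => β ω * rho (u ω))
      (ψ := fun ω => rho (G' ω) + (rho (G ω - u ω) + β ω * rho (G ω - G' ω))) fun ω => by
        have h6 := rho_le_sub (u ω) (G ω)
        rw [rho_sub_comm] at h6
        have h7 := rho_le_sub (G ω) (G' ω)
        have h8 := rho_nonneg (G' ω)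
        have h9 := rho_nonneg (G ω - u ω)
        obtain ⟨b0, b1⟩ := hβ01 ω
        nlinarith
    rw [E_add, E_add] at h5
    nlinarith
  obtain ⟨a, hat⟩ := exists_atom n (fun ω => rho (G' ω))
  obtain ⟨θ, hθ, hc⟩ := exists_corner (G' (pt n a))
  refine ⟨θ, hθ, ?_⟩
  have h4 := hφ _ ((XX_dep hG').comp (Del θ s)) fun _ => Del_nonneg _ _ _
  have h5 := atom_le n (φ := fun ω => Del θ s (G' ω)) (fun _ => Del_nonneg _ _ _) a
  have h6 := mul_le_mul_of_nonneg_left (hc s hs0.le) (wt_nonneg n a)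
  have h7 := E_mono N (φ := fun ω => β ω * Del θ s (G' ω))
    (ψ := fun ω => Del θ s (G ω) + 12 * (β ω * rho (G ω - G' ω))) fun ω => by
      have h8 := Del_lip hθ hs1 (G ω) (G' ω)
      have h9 := Del_nonneg θ s (G ω)
      obtain ⟨b0, b1⟩ := hβ01 ω
      nlinarith
  rw [E_add, E_mul] at h7
  have h8 : 6 / 10 * (8 * s) * s ≤ E n (fun ω => Del θ s (G' ω)) := by
    have h9 : 6 / 10 * (8 * s) ≤ wt n a * rho (G' (pt n a)) := by
      have : 8 * s = 1 / (aa n : ℝ) := by rw [hs]; field_simp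
      rw [this, mul_one_div, div_le_iff₀ (by positivity)]
      linarith
    nlinarith
  have h9 : del n = 64 / 10000 * s ^ 2 := by unfold del; rw [hs]; field_simp; norm_num
  have h10 : 1 / (200 * (aa n : ℝ) ^ 2) = 64 / 200 * s ^ 2 := by rw [hs]; field_simp; norm_num
  have h11 : (1 - 3 * del n) * E n (fun ω => Del θ s (G' ω)) ≤
      (1 - 3 * (del n - del N)) * E n (fun ω => Del θ s (G' ω)) :=
    mul_le_mul_of_nonneg_right (by linarith) (by nlinarith)
  have h12 : 1 / 2 * E n (fun ω => Del θ s (G' ω)) ≤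
      (1 - 3 * del n) * E n (fun ω => Del θ s (G' ω)) :=
    mul_le_mul_of_nonneg_right (by linarith) (by nlinarith)
  rw [h10]
  nlinarith

end Pool.Agent.Lib.MP_67dc8a_an
end
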